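import Mathlib

set_option autoImplicit false

namespace Pool.Agent.P.MP_485d6e_al

/-- Terms in the signature with two binary operations `+` and `·` (no constants), over the
variables `x_0, x_1, ...`. -/
inductive Term : Type
  | var : ℕ → Term
  | add : Term → Term → Term
  | mul : Term → Term → Term

/-- The value of a term in the algebra `(A, ad, mu)` when the variable `x_n` takes the value
`φ n`. -/
def Term.eval {A : Type} (ad mu : A → A → A) (φ : ℕ → A) : Term → A
  | .var n => φ n
  | .add s t => ad (s.eval ad mu φ) (t.eval ad mu φ)
  | .mul s t => mu (s.eval ad mu φ) (t.eval ad mu φ)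

/-- Substitution of the term `σ n` for the variable `x_n`. -/
def Term.subst (σ : ℕ → Term) (t : Term) : Term := t.eval Term.add Term.mul σ

/-- The algebra `(A, ad, mu)` satisfies the identity `s ≈ t`. -/
def Holds {A : Type} (ad mu : A → A → A) (s t : Term) : Prop :=
  ∀ φ : ℕ → A, s.eval ad mu φ = t.eval ad mu φ

/-- Birkhoff's equational logic: `s ≈ t` follows from the set `E` of identities. -/
inductive Derives (E : Set (Term × Term)) : Term → Term → Prop
  | ax (s t : Term) (h : (s, t) ∈ E) (σ : ℕ → Term) : Derives E (s.subst σ) (t.subst σ)
  | refl (s : Term) : Derives E s s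
  | symm {s t : Term} : Derives E s t → Derives E t s
  | trans {s t u : Term} : Derives E s t → Derives E t u → Derives E s u
  | add {s s' t t' : Term} : Derives E s s' → Derives E t t' → Derives E (s.add t) (s'.add t')
  | mul {s s' t t' : Term} : Derives E s s' → Derives E t t' → Derives E (s.mul t) (s'.mul t')

/-- The algebra `(A, ad, mu)` is finitely based: some finite set of identities holds in it, and
all its identities follow from that set. -/
def FinitelyBased {A : Type} (ad mu : A → A → A) : Prop :=
  ∃ E : Set (Term × Term), E.Finite ∧ (∀ e ∈ E, Holds ad mu e.1 e.2) ∧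
    ∀ s t : Term, Holds ad mu s t → Derives E s t

/-- A nonempty subset of `S`. -/
structure Pow (S : Type) : Type where
  /-- the subset -/
  set : Set S
  /-- it is nonempty -/
  ne : set.Nonempty

/-- Addition of the power semiring: union. -/
def Pow.add {S : Type} (A B : Pow S) : Pow S := ⟨A.set ∪ B.set, A.ne.inl⟩

/-- Multiplication of the power semiring: the complex product `{a * b | a ∈ A, b ∈ B}`. -/
def Pow.mul {S : Type} [Mul S] (A B : Pow S) : Pow S :=
  ⟨Set.image2 (fun a b => a * b) A.set B.set, A.ne.image2 B.ne⟩

end Pool.Agent.P.MP_485d6e_al
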