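import Mathlib

set_option autoImplicit false

namespace Pool.Agent.P.MP_485d6e_al

/-- The digraph `H` has finite duality: there is a finite set `F` of finite digraphs such that a
finite digraph `G` has a homomorphism to `H` exactly when no member of `F` has a homomorphism
to `G`. -/
def FiniteDuality {W : Type} (H : W → W → Prop) : Prop :=
  ∃ F : Set (Σ k : ℕ, Fin k → Fin k → Prop), F.Finite ∧
    ∀ (n : ℕ) (G : Fin n → Fin n → Prop), Nonempty (G →r H) ↔ ∀ D ∈ F, IsEmpty (D.2 →r G)

end Pool.Agent.P.MP_485d6e_al
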