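import Mathlib

set_option autoImplicit false

namespace Pool.Agent.P.MP_485d6e_al

open Finset

theorem choose_up (N k d : ℕ) : N.choose (k + d) ≤ (N + 1) ^ d * N.choose k := by
  induction d with
  | zero => simp
  | succ d ih =>
    have h := Nat.choose_succ_right_eq N (k + d)
    calc N.choose (k + (d + 1)) ≤ N.choose (k + d + 1) * (k + d + 1) :=
          Nat.le_mul_of_pos_right _ (by omega)
      _ = N.choose (k + d) * (N - (k + d)) := h
      _ ≤ ((N + 1) ^ d * N.choose k) * (N + 1) := Nat.mul_le_mul ih (by omega)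
      _ = (N + 1) ^ (d + 1) * N.choose k := by ring

theorem choose_down (N k d : ℕ) (h : k + d ≤ N) :
    N.choose k ≤ (N + 1) ^ d * N.choose (k + d) := by
  induction d with
  | zero => simp
  | succ d ih =>
    have h1 := Nat.choose_succ_right_eq N (k + d)
    have h2 : N.choose (k + d) ≤ N.choose (k + d + 1) * (N + 1) :=
      calc N.choose (k + d) ≤ N.choose (k + d) * (N - (k + d)) :=
            Nat.le_mul_of_pos_right _ (by omega)
        _ = N.choose (k + d + 1) * (k + d + 1) := h1.symm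
        _ ≤ N.choose (k + d + 1) * (N + 1) := Nat.mul_le_mul_left _ (by omega)
    calc N.choose k ≤ (N + 1) ^ d * N.choose (k + d) := ih (by omega)
      _ ≤ (N + 1) ^ d * (N.choose (k + d + 1) * (N + 1)) := Nat.mul_le_mul_left _ h2
      _ = (N + 1) ^ (d + 1) * N.choose (k + (d + 1)) := by rw [← add_assoc]; ring

theorem choose_lb (N n C : ℕ) (h1 : n ≤ N) (h2 : N ≤ 2 * n + C) (h3 : 2 * n ≤ N + C) :
    2 ^ N ≤ (N + 1) ^ (C + 1) * N.choose n := by
  have hm : 2 ^ N ≤ (N + 1) * N.choose (N / 2) := by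
    rw [← Nat.sum_range_choose]
    calc ∑ m ∈ range (N + 1), N.choose m ≤ (range (N + 1)).card • N.choose (N / 2) :=
          sum_le_card_nsmul _ _ _ fun m _ => Nat.choose_le_middle m N
      _ = _ := by simp
  have hd : N.choose (N / 2) ≤ (N + 1) ^ C * N.choose n := by
    rcases le_total n (N / 2) with h | h
    · obtain ⟨d, hd⟩ := Nat.exists_eq_add_of_le h
      rw [hd]
      exact le_trans (choose_up N n d)
        (Nat.mul_le_mul_right _ (Nat.pow_le_pow_right (by omega) (by omega)))
    · obtain ⟨d, hd⟩ := Nat.exists_eq_add_of_le h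
      have := choose_down N (N / 2) d (by omega)
      rw [← hd] at this
      exact le_trans this (Nat.mul_le_mul_right _ (Nat.pow_le_pow_right (by omega) (by omega)))
  calc 2 ^ N ≤ (N + 1) * N.choose (N / 2) := hm
    _ ≤ (N + 1) * ((N + 1) ^ C * N.choose n) := Nat.mul_le_mul_left _ hd
    _ = _ := by ring

theorem good_lb {α : Type} [Fintype α] [DecidableEq α] (C m : ℕ) (φ : Fin m → α) (n : α → ℕ)
    (h : ∀ a, n a ≤ (univ.filter fun x => φ x = a).card ∧
      (univ.filter fun x => φ x = a).card ≤ 2 * n a + C ∧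
      2 * n a ≤ (univ.filter fun x => φ x = a).card + C) :
    2 ^ m ≤ (m + 1) ^ (Fintype.card α * (C + 1)) *
      (univ.filter fun F : Finset (Fin m) => ∀ a, (F.filter fun x => φ x = a).card = n a).card := by
  have h1 : ∏ a, ((univ.filter fun x => φ x = a).card).choose (n a) ≤
      (univ.filter fun F : Finset (Fin m) => ∀ a, (F.filter fun x => φ x = a).card = n a).card := by
    have e : ∏ a, ((univ.filter fun x => φ x = a).card).choose (n a) =
        (Fintype.piFinset fun a => powersetCard (n a) (univ.filter fun x => φ x = a)).card := by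
      rw [Fintype.card_piFinset]
      simp
    rw [e]
    have key : ∀ g ∈ Fintype.piFinset fun a => powersetCard (n a) (univ.filter fun x => φ x = a),
        ∀ a, ((univ.biUnion g).filter fun x => φ x = a) = g a := by
      intro g hg a
      rw [Fintype.mem_piFinset] at hg
      ext x
      simp only [mem_filter, mem_biUnion, mem_univ, true_and]
      constructor
      · rintro ⟨⟨b, hb⟩, rfl⟩
        have := (mem_powersetCard.mp (hg b)).1 hb
        simp only [mem_filter, mem_univ, true_and] at this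
        rw [this]; exact hb
      · intro hx
        have := (mem_powersetCard.mp (hg a)).1 hx
        simp only [mem_filter, mem_univ, true_and] at this
        exact ⟨⟨a, hx⟩, this⟩
    refine card_le_card_of_injOn (fun g => univ.biUnion g) (fun g hg => ?_) ?_
    · simp only [coe_filter, mem_univ, true_and, Set.mem_ofPred_eq]
      intro a
      rw [key g hg a]
      have hg' := Fintype.mem_piFinset.mp hg
      exact (mem_powersetCard.mp (hg' a)).2
    · intro g hg g' hg' e
      funext a
      rw [← key g hg a, ← key g' hg' a]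
      simp only at e
      rw [e]
  have h2 : m = ∑ a, (univ.filter fun x => φ x = a).card := by
    have := card_eq_sum_card_fiberwise (s := (univ : Finset (Fin m))) (t := (univ : Finset α))
      (f := φ) (fun _ _ => mem_univ _)
    simpa using this
  calc 2 ^ m = ∏ a, 2 ^ (univ.filter fun x => φ x = a).card := by
        rw [prod_pow_eq_pow_sum, ← h2]
    _ ≤ ∏ a, ((m + 1) ^ (C + 1) * ((univ.filter fun x => φ x = a).card).choose (n a)) := by
        apply prod_le_prod' 
        intro a _
        refine le_trans (choose_lb _ (n a) C (h a).1 (h a).2.1 (h a).2.2) ?_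
        apply Nat.mul_le_mul_right
        apply Nat.pow_le_pow_left
        have := card_filter_le (univ : Finset (Fin m)) fun x => φ x = a
        simp only [card_univ, Fintype.card_fin] at this
        omega
    _ = (m + 1) ^ (Fintype.card α * (C + 1)) *
          ∏ a, ((univ.filter fun x => φ x = a).card).choose (n a) := by
        rw [prod_mul_distrib, prod_const, card_univ, ← pow_mul, mul_comm (C + 1)]
    _ ≤ _ := Nat.mul_le_mul_left _ h1

theorem col_lb (N r : ℕ) (i : Fin N) (f : Fin r → Fin N) (hf : ∀ j, f j ≠ i) :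
    2 ^ N ≤ 2 ^ (r + 1) *
      (univ.filter fun c : Finset (Fin N) => i ∈ c ∧ ∀ j, f j ∉ c).card := by
  set U : Finset (Fin N) := insert i (univ.image f) with hU
  have hUc : U.card ≤ r + 1 := by
    refine le_trans (card_insert_le _ _) ?_
    have := card_image_le (s := (univ : Finset (Fin r))) (f := f)
    simp only [card_univ, Fintype.card_fin] at this
    omega
  have h1 : 2 ^ Uᶜ.card ≤
      (univ.filter fun c : Finset (Fin N) => i ∈ c ∧ ∀ j, f j ∉ c).card := by
    rw [← card_powerset]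
    refine card_le_card_of_injOn (fun c => insert i c) (fun c hc => ?_) ?_
    · simp only [coe_filter, mem_univ, true_and, Set.mem_ofPred_eq, mem_insert, true_or, not_or]
      intro j
      refine ⟨hf j, fun h => ?_⟩
      have := mem_powerset.mp hc h
      simp [hU] at this
    · intro c hc c' hc' e
      have hi : i ∉ c := fun h => by have := mem_powerset.mp hc h; simp [hU] at this
      have hi' : i ∉ c' := fun h => by have := mem_powerset.mp hc' h; simp [hU] at this
      simp only at e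
      rw [← erase_insert hi, e, erase_insert hi']
  have h2 : U.card + Uᶜ.card = N := by
    rw [card_add_card_compl]; simp
  calc 2 ^ N = 2 ^ U.card * 2 ^ Uᶜ.card := by rw [← pow_add, h2]
    _ ≤ _ := Nat.mul_le_mul (Nat.pow_le_pow_right (by omega) hUc) h1

theorem numeric (K D r : ℕ) : ∃ m : ℕ, 1 ≤ m ∧
    (K : ℝ) ^ m * (1 - 1 / ((m : ℝ) + 1) ^ D) ^ ((m + 1) ^ D * (m * K + 1)) +
      (((m + 1) ^ D * (m * K + 1) : ℕ) : ℝ) ^ (r + 1) * (1 - 1 / (2 : ℝ) ^ (r + 1)) ^ m < 1 := by
  set q : ℝ := 1 - 1 / (2 : ℝ) ^ (r + 1) with hq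
  have h2 : (2 : ℝ) ≤ 2 ^ (r + 1) := by
    calc (2 : ℝ) = 2 ^ 1 := by norm_num
      _ ≤ 2 ^ (r + 1) := pow_le_pow_right₀ (by norm_num) (by omega)
  have hq0 : 0 < q := by
    have : 1 / (2 : ℝ) ^ (r + 1) ≤ 1 / 2 := one_div_le_one_div_of_le (by norm_num) h2
    rw [hq]; linarith
  have hq1 : q < 1 := by
    have : 0 < 1 / (2 : ℝ) ^ (r + 1) := by positivity
    rw [hq]; linarith
  have ht := tendsto_pow_const_mul_const_pow_of_abs_lt_one ((D + 1) * (r + 1))
    (r := q) (by rw [abs_of_pos hq0]; exact hq1)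
  have hε : (0 : ℝ) < q / (2 * ((K : ℝ) + 1) ^ (r + 1)) := by positivity
  obtain ⟨m0, hm0⟩ := Filter.eventually_atTop.mp (ht.eventually (gt_mem_nhds hε))
  refine ⟨m0 + 1, by omega, ?_⟩
  set m := m0 + 1 with hm
  have h3 := hm0 (m + 1) (by omega)
  have hA : (K : ℝ) ^ m * (1 - 1 / ((m : ℝ) + 1) ^ D) ^ ((m + 1) ^ D * (m * K + 1)) < 1 / 2 := by
    have hp : (0 : ℝ) < ((m : ℝ) + 1) ^ D := by positivity
    have hp1 : (1 : ℝ) ≤ ((m : ℝ) + 1) ^ D := one_le_pow₀ (by linarith [Nat.cast_nonneg (α := ℝ) m])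
    have a1 : (0 : ℝ) ≤ 1 - 1 / ((m : ℝ) + 1) ^ D := by
      have : 1 / ((m : ℝ) + 1) ^ D ≤ 1 := by rw [div_le_one hp]; exact hp1
      linarith
    have a2 : 1 - 1 / ((m : ℝ) + 1) ^ D ≤ Real.exp (-(1 / ((m : ℝ) + 1) ^ D)) := by
      have := Real.add_one_le_exp (-(1 / ((m : ℝ) + 1) ^ D))
      linarith
    have a3 : (1 - 1 / ((m : ℝ) + 1) ^ D) ^ ((m + 1) ^ D * (m * K + 1)) ≤
        Real.exp (-((m : ℝ) * K + 1)) := by
      refine le_trans (pow_le_pow_left₀ a1 a2 _) (le_of_eq ?_)
      rw [← Real.exp_nat_mul]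
      congr 1
      push_cast
      field_simp
    have a4 : (K : ℝ) ^ m ≤ Real.exp ((m : ℝ) * K) := by
      rw [Real.exp_nat_mul]
      apply pow_le_pow_left₀ (Nat.cast_nonneg _)
      have := Real.add_one_le_exp (K : ℝ)
      linarith
    calc _ ≤ Real.exp ((m : ℝ) * K) * Real.exp (-((m : ℝ) * K + 1)) :=
          mul_le_mul a4 a3 (pow_nonneg a1 _) (Real.exp_pos _).le
      _ = Real.exp (-1) := by rw [← Real.exp_add]; congr 1; ring
      _ < 1 / 2 := by
          rw [Real.exp_neg, inv_eq_one_div]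
          apply one_div_lt_one_div_of_lt (by norm_num)
          have := Real.add_one_lt_exp (x := (1 : ℝ)) (by norm_num)
          linarith
  have hB : (((m + 1) ^ D * (m * K + 1) : ℕ) : ℝ) ^ (r + 1) * q ^ m ≤ 1 / 2 := by
    have b1 : (((m + 1) ^ D * (m * K + 1) : ℕ) : ℝ) ≤ ((m : ℝ) + 1) ^ (D + 1) * (K + 1) := by
      push_cast
      rw [pow_succ, mul_assoc]
      apply mul_le_mul_of_nonneg_left _ (by positivity)
      nlinarith [Nat.cast_nonneg (α := ℝ) m, Nat.cast_nonneg (α := ℝ) K]
    have b2 : (((m + 1) ^ D * (m * K + 1) : ℕ) : ℝ) ^ (r + 1) ≤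
        ((m : ℝ) + 1) ^ ((D + 1) * (r + 1)) * ((K : ℝ) + 1) ^ (r + 1) := by
      rw [pow_mul, ← mul_pow]
      exact pow_le_pow_left₀ (Nat.cast_nonneg _) b1 _
    push_cast at h3
    have hK : (0 : ℝ) < ((K : ℝ) + 1) ^ (r + 1) := by positivity
    rw [lt_div_iff₀ (by positivity), pow_succ q m] at h3
    have b3 : ((m : ℝ) + 1) ^ ((D + 1) * (r + 1)) * ((K : ℝ) + 1) ^ (r + 1) * q ^ m ≤ 1 / 2 := by
      have : (((m : ℝ) + 1) ^ ((D + 1) * (r + 1)) * ((K : ℝ) + 1) ^ (r + 1) * q ^ m * 2) * q <
          1 * q := by linarith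
      have := lt_of_mul_lt_mul_right this hq0.le
      linarith
    exact le_trans (mul_le_mul_of_nonneg_right b2 (pow_pos hq0 _).le) b3
  linarith

/-- A cover-free family that meets prescribed, nearly balanced colour counts for every
colouring. -/
theorem exists_family {α : Type} [Fintype α] [DecidableEq α] (C r : ℕ)
    (ν : ∀ m : ℕ, (Fin m → α) → α → ℕ)
    (hν : ∀ m φ a, ν m φ a ≤ (univ.filter fun x => φ x = a).card ∧
      (univ.filter fun x => φ x = a).card ≤ 2 * ν m φ a + C ∧
      2 * ν m φ a ≤ (univ.filter fun x => φ x = a).card + C) :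
    ∃ (m N : ℕ) (F : Fin N → Finset (Fin m)), 2 ≤ N ∧
      (∀ (i : Fin N) (f : Fin r → Fin N), (∀ j, f j ≠ i) → ∃ x ∈ F i, ∀ j, x ∉ F (f j)) ∧
      ∀ φ : Fin m → α, ∃ i, ∀ a, ((F i).filter fun x => φ x = a).card = ν m φ a := by
  classical
  set K := Fintype.card α with hK
  set D := K * (C + 1) + 1 with hD
  obtain ⟨m, hm1, hnum⟩ := numeric K D r
  set N := (m + 1) ^ D * (m * K + 1) with hN
  have hN2 : 2 ≤ N := by
    have : 2 ≤ (m + 1) ^ D :=
      calc 2 = 2 ^ 1 := rfl
        _ ≤ (m + 1) ^ 1 := Nat.pow_le_pow_left (by omega) _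
        _ ≤ (m + 1) ^ D := Nat.pow_le_pow_right (by omega) (by omega)
    calc 2 = 2 * 1 := rfl
      _ ≤ _ := Nat.mul_le_mul this (by omega)
  set G : (Fin m → α) → Finset (Finset (Fin m)) := fun φ =>
    univ.filter fun F : Finset (Fin m) => ∀ a, (F.filter fun x => φ x = a).card = ν m φ a with hG
  set B1 : (Fin m → α) → Finset (Fin N → Finset (Fin m)) := fun φ =>
    Fintype.piFinset fun _ => (G φ)ᶜ with hB1
  set B2 : Fin N × (Fin r → Fin N) → Finset (Fin N → Finset (Fin m)) := fun p =>
    univ.filter fun ω => (∀ j, p.2 j ≠ p.1) ∧ ∀ x ∈ ω p.1, ∃ j, x ∈ ω (p.2 j) with hB2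
  have c1 : ∀ φ, ((B1 φ).card : ℝ) ≤ (2 ^ m * (1 - 1 / ((m : ℝ) + 1) ^ D)) ^ N := by
    intro φ
    have hg := good_lb C m φ (ν m φ) (hν m φ)
    have hg2 : 2 ^ m ≤ (m + 1) ^ D * (G φ).card :=
      le_trans hg (Nat.mul_le_mul_right _ (Nat.pow_le_pow_right (by omega) (Nat.le_succ _)))
    have hg3 : (2 : ℝ) ^ m ≤ ((m : ℝ) + 1) ^ D * (G φ).card := by exact_mod_cast hg2
    have hc : (G φ).card + (G φ)ᶜ.card = 2 ^ m := by
      rw [card_add_card_compl]; simp
    have hc' : ((G φ).card : ℝ) + (G φ)ᶜ.card = 2 ^ m := by exact_mod_cast hc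
    have hp : (0 : ℝ) < ((m : ℝ) + 1) ^ D := by positivity
    have h4 : (2 : ℝ) ^ m * (1 / ((m : ℝ) + 1) ^ D) ≤ (G φ).card := by
      rw [mul_one_div, div_le_iff₀ hp]; linarith
    rw [hB1]
    simp only [Fintype.card_piFinset, prod_const, card_univ, Fintype.card_fin]
    push_cast
    apply pow_le_pow_left₀ (Nat.cast_nonneg _)
    linarith
  have c2 : ∀ p, ((B2 p).card : ℝ) ≤ (2 ^ N * (1 - 1 / (2 : ℝ) ^ (r + 1))) ^ m := by
    rintro ⟨i, f⟩
    by_cases hf : ∀ j, f j ≠ i
    · set Gd := univ.filter fun c : Finset (Fin N) => i ∈ c ∧ ∀ j, f j ∉ c with hGd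
      have hg := col_lb N r i f hf
      have hg3 : (2 : ℝ) ^ N ≤ 2 ^ (r + 1) * Gd.card := by exact_mod_cast hg
      have hc : Gd.card + Gdᶜ.card = 2 ^ N := by
        rw [card_add_card_compl]; simp
      have hc' : (Gd.card : ℝ) + Gdᶜ.card = 2 ^ N := by exact_mod_cast hc
      have hp : (0 : ℝ) < 2 ^ (r + 1) := by positivity
      have h4 : (2 : ℝ) ^ N * (1 / 2 ^ (r + 1)) ≤ Gd.card := by
        rw [mul_one_div, div_le_iff₀ hp]; linarith
      have h5 : (B2 (i, f)).card ≤ (Fintype.piFinset fun _ : Fin m => Gdᶜ).card := by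
        refine card_le_card_of_injOn (fun ω x => univ.filter fun j => x ∈ ω j) (fun ω hω => ?_) ?_
        · simp only [hB2, coe_filter, mem_univ, true_and, Set.mem_ofPred_eq] at hω
          simp only [mem_coe, Fintype.mem_piFinset, mem_compl, hGd, mem_filter, mem_univ,
            true_and, not_and, not_forall, not_not]
          intro x hx
          exact hω.2 x hx
        · intro ω _ ω' _ e
          funext j
          ext x
          have := congrFun e x
          simp only at this
          have h6 := Finset.ext_iff.mp this j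
          simpa using h6
      simp only [Fintype.card_piFinset, prod_const, card_univ, Fintype.card_fin] at h5
      calc ((B2 (i, f)).card : ℝ) ≤ (Gdᶜ.card : ℝ) ^ m := by exact_mod_cast h5
        _ ≤ _ := pow_le_pow_left₀ (Nat.cast_nonneg _) (by linarith) _
    · have : B2 (i, f) = ∅ := by
        rw [hB2]
        apply filter_false_of_mem
        intro ω _ h
        exact hf h.1
      rw [this]
      simp only [card_empty, Nat.cast_zero]
      apply pow_nonneg
      apply mul_nonneg (by positivity)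
      have : 1 / (2 : ℝ) ^ (r + 1) ≤ 1 := by
        rw [div_le_one (by positivity)]; exact one_le_pow₀ (by norm_num)
      linarith
  have c3 : ((univ.biUnion B1 ∪ univ.biUnion B2).card : ℝ) <
      (univ : Finset (Fin N → Finset (Fin m))).card := by
    have d1 : ((univ.biUnion B1).card : ℝ) ≤
        (K : ℝ) ^ m * (2 ^ m * (1 - 1 / ((m : ℝ) + 1) ^ D)) ^ N := by
      calc ((univ.biUnion B1).card : ℝ) ≤ ∑ φ, ((B1 φ).card : ℝ) := by
            exact_mod_cast card_biUnion_le
        _ ≤ ∑ _φ : Fin m → α, (2 ^ m * (1 - 1 / ((m : ℝ) + 1) ^ D)) ^ N :=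
            sum_le_sum fun φ _ => c1 φ
        _ = _ := by simp [hK]
    have d2 : ((univ.biUnion B2).card : ℝ) ≤
        (N : ℝ) ^ (r + 1) * (2 ^ N * (1 - 1 / (2 : ℝ) ^ (r + 1))) ^ m := by
      calc ((univ.biUnion B2).card : ℝ) ≤ ∑ p, ((B2 p).card : ℝ) := by
            exact_mod_cast card_biUnion_le
        _ ≤ ∑ _p : Fin N × (Fin r → Fin N), (2 ^ N * (1 - 1 / (2 : ℝ) ^ (r + 1))) ^ m :=
            sum_le_sum fun p _ => c2 p
        _ = _ := by simp [pow_succ' (N : ℝ) r]
    have d3 : ((univ.biUnion B1 ∪ univ.biUnion B2).card : ℝ) ≤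
        (univ.biUnion B1).card + (univ.biUnion B2).card := by exact_mod_cast card_union_le _ _
    have d4 : ((univ : Finset (Fin N → Finset (Fin m))).card : ℝ) = (2 ^ m) ^ N := by simp
    have d5 : ((2 : ℝ) ^ N) ^ m = (2 ^ m) ^ N := by rw [← pow_mul, ← pow_mul, mul_comm]
    rw [d4]
    rw [mul_pow] at d1 d2
    rw [d5] at d2
    have hP : (0 : ℝ) < (2 ^ m) ^ N := by positivity
    have := mul_lt_mul_of_pos_left hnum hP
    nlinarith
  have c4 : (univ.biUnion B1 ∪ univ.biUnion B2).card <
      (univ : Finset (Fin N → Finset (Fin m))).card := by exact_mod_cast c3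
  obtain ⟨ω, -, hω⟩ := exists_mem_notMem_of_card_lt_card c4
  simp only [mem_union, mem_biUnion, mem_univ, true_and, not_or, not_exists] at hω
  refine ⟨m, N, ω, hN2, fun i f hf => ?_, fun φ => ?_⟩
  · have := hω.2 (i, f)
    simp only [hB2, mem_filter, mem_univ, true_and, not_and, not_forall, not_exists] at this
    obtain ⟨x, hx, h⟩ := this hf
    exact ⟨x, hx, h⟩
  · have := hω.1 φ
    simp only [hB1, Fintype.mem_piFinset, mem_compl, not_forall, not_not, hG, mem_filter,
      mem_univ, true_and, not_exists] at this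
    exact this

end Pool.Agent.P.MP_485d6e_al
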