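import Mathlib

set_option autoImplicit false

namespace Pool.Agent.P.MP_485d6e_al

variable {M : Type} [Monoid M]

/-- The products of the initial segments of a list. -/
def Pre (l : List M) : Set M := {x | ∃ a b, l = a ++ b ∧ x = a.prod}

theorem exists_loop [Finite M] (l : List M) (hl : Nat.card (M × Set M) < l.length) :
    ∃ a τ b : List M, l = a ++ τ ++ b ∧ τ ≠ [] ∧ τ.length ≤ Nat.card (M × Set M) ∧
      (a ++ τ).prod = a.prod ∧ Pre (a ++ τ) = Pre a := by
  classical
  have := Fintype.ofFinite (M × Set M)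
  set L := Nat.card (M × Set M) with hL
  obtain ⟨i, j, hij, h⟩ := Fintype.exists_ne_map_eq_of_card_lt
    (fun i : Fin (L + 1) => (((l.take i).prod, Pre (l.take i)) : M × Set M))
    (by simp [hL, Nat.card_eq_fintype_card])
  wlog hlt : (i : ℕ) < j generalizing i j
  · exact this j i hij.symm h.symm (lt_of_le_of_ne (not_lt.mp hlt) fun h' => hij (Fin.ext h'.symm))
  have hj : (j : ℕ) ≤ L := Nat.lt_succ_iff.mp j.2
  have e : l.take j = l.take i ++ (l.take j).drop i := by
    conv_lhs => rw [← List.take_append_drop i (l.take j)]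
    rw [List.take_take, min_eq_left hlt.le]
  simp only [Prod.mk.injEq] at h
  refine ⟨l.take i, (l.take j).drop i, l.drop j, ?_, ?_, ?_, ?_, ?_⟩
  · rw [← e, List.take_append_drop]
  · intro h0
    have := congrArg List.length h0
    simp only [List.length_drop, List.length_take, List.length_nil] at this
    omega
  · simp only [List.length_drop, List.length_take]
    omega
  · rw [← e]; exact h.1.symm
  · rw [← e]; exact h.2.symm

theorem Pre_del {a τ b : List M} (h1 : (a ++ τ).prod = a.prod) (h2 : Pre (a ++ τ) = Pre a) :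
    Pre (a ++ τ ++ b) ⊆ Pre (a ++ b) := by
  rintro x ⟨c, d, hcd, rfl⟩
  rcases List.append_eq_append_iff.mp hcd with ⟨c', rfl, rfl⟩ | ⟨c', hc, rfl⟩
  · refine ⟨a ++ c', d, by simp, ?_⟩
    rw [List.prod_append, h1, List.prod_append]
  · have : c.prod ∈ Pre a := h2 ▸ ⟨c, c', hc, rfl⟩
    obtain ⟨e, f, rfl, h⟩ := this
    exact ⟨e, f ++ b, by simp, h⟩

theorem Pre_ins {c τ d : List M} (h : c.prod * τ.prod = c.prod) :
    Pre (c ++ d) ⊆ Pre (c ++ τ ++ d) := by
  rintro x ⟨e, f, hef, rfl⟩
  rcases List.append_eq_append_iff.mp hef with ⟨c', rfl, rfl⟩ | ⟨c', rfl, rfl⟩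
  · refine ⟨c ++ τ ++ c', f, by simp, ?_⟩
    simp only [List.prod_append, h]
  · exact ⟨e, c' ++ τ ++ d, by simp, rfl⟩

theorem half_aux [Finite M] [DecidableEq M] (l : List M) :
    ∃ (l' : List M) (R : Finset (List M)) (s : M → ℕ), l'.prod = l.prod ∧ Pre l ⊆ Pre l' ∧
      (∀ τ ∈ R, τ.length ≤ Nat.card (M × Set M)) ∧
      ∀ a, l.count a + s a = 2 * l'.count a + ∑ τ ∈ R, τ.count a ∧ s a ≤ l'.count a ∧
        s a ≤ Nat.card (M × Set M) := by
  induction hn : l.length using Nat.strong_induction_on generalizing l with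
  | _ n ih =>
    by_cases hl : Nat.card (M × Set M) < l.length
    · obtain ⟨a, τ, b, rfl, hτ, hlen, h1, h2⟩ := exists_loop l hl
      have hpos : 0 < τ.length := List.length_pos_iff.mpr hτ
      obtain ⟨l', R, s, e1, e2, e3, e4⟩ := ih (a ++ b).length
        (by rw [← hn]; simp only [List.length_append]; omega) (a ++ b) rfl
      have hp : (a ++ b).prod = (a ++ τ ++ b).prod := by
        rw [List.prod_append (l₁ := a ++ τ), h1, List.prod_append]
      by_cases hR : τ ∈ R
      · obtain ⟨c, d, rfl, hc⟩ : a.prod ∈ Pre l' := e2 ⟨a, b, rfl, rfl⟩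
        have hq : c.prod * τ.prod = c.prod := by
          rw [← hc, ← List.prod_append, h1]
        refine ⟨c ++ τ ++ d, R.erase τ, s, ?_, ?_, fun x hx => e3 x (Finset.mem_of_mem_erase hx),
          fun y => ?_⟩
        · rw [← hp, ← e1]
          simp only [List.prod_append, hq]
        · exact (Pre_del h1 h2).trans (e2.trans (Pre_ins hq))
        · obtain ⟨f1, f2, f3⟩ := e4 y
          have := Finset.add_sum_erase R (fun τ => τ.count y) hR
          simp only [List.count_append] at f1 f2 ⊢
          refine ⟨?_, ?_, f3⟩ <;> omega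
      · refine ⟨l', insert τ R, s, e1.trans hp, (Pre_del h1 h2).trans e2, fun x hx => ?_,
          fun y => ?_⟩
        · rcases Finset.mem_insert.mp hx with rfl | hx
          · exact hlen
          · exact e3 x hx
        · obtain ⟨f1, f2, f3⟩ := e4 y
          rw [Finset.sum_insert hR]
          simp only [List.count_append] at f1 ⊢
          refine ⟨?_, f2, f3⟩
          omega
    · refine ⟨l, ∅, fun a => l.count a, rfl, subset_rfl, by simp, fun a => ⟨by simp; ring, le_rfl, ?_⟩⟩
      exact le_trans List.count_le_length (not_lt.mp hl)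

/-- Every word over a finite monoid has the same product as a word with about half as many
occurrences of each letter. -/
theorem half (M : Type) [Monoid M] [Finite M] [DecidableEq M] :
    ∃ C : ℕ, ∀ l : List M, ∃ l' : List M, l'.prod = l.prod ∧
      ∀ a, l'.count a ≤ l.count a ∧ l.count a ≤ 2 * l'.count a + C ∧
        2 * l'.count a ≤ l.count a + C := by
  set L := Nat.card (M × Set M) with hL
  have hfin := List.finite_length_le M L
  refine ⟨L + hfin.toFinset.card * L, fun l => ?_⟩
  obtain ⟨l', R, s, e1, -, e3, e4⟩ := half_aux l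
  refine ⟨l', e1, fun a => ?_⟩
  obtain ⟨f1, f2, f3⟩ := e4 a
  have h1 : ∑ τ ∈ R, τ.count a ≤ hfin.toFinset.card * L := by
    calc ∑ τ ∈ R, τ.count a ≤ R.card • L :=
          Finset.sum_le_card_nsmul _ _ _ fun τ hτ => le_trans List.count_le_length (e3 τ hτ)
      _ ≤ hfin.toFinset.card * L := by
          rw [smul_eq_mul]
          apply Nat.mul_le_mul_right
          apply Finset.card_le_card
          intro τ hτ
          exact hfin.mem_toFinset.mpr (e3 τ hτ)
  rw [← hL] at f3
  refine ⟨?_, ?_, ?_⟩ <;> omega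

end Pool.Agent.P.MP_485d6e_al
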