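import Pool.Agent.P.MP_485d6e_al.Words
import Pool.Agent.P.MP_485d6e_al.Half
import Pool.Agent.P.MP_485d6e_al.Family

set_option autoImplicit false

namespace Pool.Agent.P.MP_485d6e_al

open Finset

section

variable {S : Type} [Semigroup S]

theorem prod_mem_Val (φ : ℕ → Set S) (ψ : ℕ → S) (u : List ℕ) (h : ∀ x ∈ u, ψ x ∈ φ x) :
    (u.map fun x => (ψ x : WithOne S)).prod ∈ Val φ u := by
  induction u with
  | nil => simp [Val]
  | cons x u ih =>
    simp only [List.map_cons, List.prod_cons, Val, Set.mem_image2]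
    exact ⟨ψ x, h x (by simp), _, ih fun y hy => h y (by simp [hy]), rfl⟩

theorem exists_point_of_nodup (φ : ℕ → Set S) (hφ : ∀ x, (φ x).Nonempty) (u : List ℕ)
    (hu : u.Nodup) : ∀ s ∈ Val φ u, ∃ ψ : ℕ → S, (∀ x, ψ x ∈ φ x) ∧
      s = (u.map fun x => (ψ x : WithOne S)).prod := by
  induction u with
  | nil =>
    intro v hv
    simp only [Val, Set.mem_singleton_iff] at hv
    exact ⟨fun x => (hφ x).some, fun x => (hφ x).some_mem, by simp [hv]⟩
  | cons x u ih =>
    rintro v ⟨a, ha, b, hb, rfl⟩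
    obtain ⟨hx, hu'⟩ := List.nodup_cons.mp hu
    obtain ⟨σ, hσ, rfl⟩ := ih hu' b hb
    refine ⟨Function.update σ x a, fun y => ?_, ?_⟩
    · by_cases h : y = x
      · subst h; simpa using ha
      · simpa [Function.update_of_ne h] using hσ y
    · simp only [List.map_cons, List.prod_cons, Function.update_self]
      congr 2
      apply List.map_congr_left
      intro y hy
      have : y ≠ x := fun h => hx (h ▸ hy)
      simp [Function.update_of_ne this]

variable (S) in
/-- Valid inequalities preserve the property of having total weight one. -/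
def Exact : Prop :=
  ∀ (w : List ℕ) (t : Set (List ℕ)), w ≠ [] → (∀ u ∈ t, u ≠ []) → Valid S w t →
    ∀ (c : ℕ → ℕ) (c0 : ℕ), (∀ u ∈ t, c0 + (u.map c).sum = 1) → c0 + (w.map c).sum = 1

theorem additive_flatMap (f : List ℕ → ℕ) (h0 : f [] = 0) (h1 : ∀ a b, f (a ++ b) = f a + f b)
    (σ : ℕ → List ℕ) (u : List ℕ) : f (u.flatMap σ) = (u.map fun x => f (σ x)).sum := by
  induction u with
  | nil => simpa using h0
  | cons x u ih => simp [List.flatMap_cons, h1, ih]

theorem nodup_of_flatMap (σ : ℕ → List ℕ) (hσ : ∀ x, σ x ≠ []) (u : List ℕ)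
    (h : (u.flatMap σ).Nodup) : u.Nodup := by
  induction u with
  | nil => exact List.nodup_nil
  | cons x u ih =>
    rw [List.flatMap_cons, List.nodup_append] at h
    refine List.nodup_cons.mpr ⟨fun hx => ?_, ih h.2.1⟩
    obtain ⟨y, hy⟩ := List.exists_mem_of_ne_nil _ (hσ x)
    exact h.2.2 y hy y (List.mem_flatMap.mpr ⟨x, hx, hy⟩) rfl

theorem closed_of_coverfree (hS : Exact S) (n N : ℕ) (G : Fin N → Finset ℕ)
    (hG : ∀ (i : Fin N) (I : Finset (Fin N)), i ∉ I → I.card ≤ 2 ^ n →
      ∃ x ∈ G i, ∀ j ∈ I, x ∉ G j) :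
    CtxClosed S n {v | v.Nodup ∧ ∃ i, v.toFinset = G i} := by
  classical
  intro w t hw ht hne _ _ htn hval τ hτ hτ' p q H
  have hinj : ∀ i j, G i = G j → i = j := by
    intro i j e
    by_contra hij
    obtain ⟨x, hx, h⟩ := hG i {j} (by simpa using hij) (by simpa using Nat.one_le_two_pow)
    exact h j (by simp) (e ▸ hx)
  have claim : ∀ σ : ℕ → List ℕ, (∀ x, σ x ∈ τ x) →
      (p ++ w.flatMap σ ++ q).Nodup ∧ ∃ i, (p ++ w.flatMap σ ++ q).toFinset = G i := by
    intro σ hσ
    have H1 : ∀ u ∈ t, (p ++ u.flatMap σ ++ q).Nodup ∧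
        ∃ i, (p ++ u.flatMap σ ++ q).toFinset = G i :=
      fun u hu => H u hu _ (flatMap_mem_Sub τ σ u fun x _ => hσ x)
    set cont : Finset ℕ → Finset ℕ := fun U =>
      p.toFinset ∪ U.biUnion (fun x => (σ x).toFinset) ∪ q.toFinset with hcont
    have hc : ∀ u : List ℕ, (p ++ u.flatMap σ ++ q).toFinset = cont u.toFinset := by
      intro u
      ext y
      simp [hcont, or_assoc]
    set I : Finset (Fin N) := univ.filter fun i => ∃ u ∈ t, (p ++ u.flatMap σ ++ q).toFinset = G i
      with hI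
    obtain ⟨u0, hu0⟩ := hne
    obtain ⟨-, i1, -⟩ := H1 u0 hu0
    have hIc : I.card ≤ 2 ^ n := by
      have : I ⊆ (range n).powerset.image
          fun U => if h : ∃ i, cont U = G i then h.choose else i1 := by
        intro i hi
        simp only [hI, mem_filter, mem_univ, true_and] at hi
        obtain ⟨u, hu, e⟩ := hi
        rw [hc] at e
        refine mem_image.mpr ⟨u.toFinset, ?_, ?_⟩
        · rw [mem_powerset]
          intro x hx
          exact mem_range.mpr (htn u hu x (List.mem_toFinset.mp hx))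
        · have h : ∃ i, cont u.toFinset = G i := ⟨i, e⟩
          rw [dif_pos h]
          exact hinj _ _ (h.choose_spec.symm.trans e)
      refine le_trans (card_le_card this) (le_trans card_image_le ?_)
      simp
    have hpriv : ∀ i, ∃ x ∈ G i, ∀ j ∈ I, j ≠ i → x ∉ G j := by
      intro i
      obtain ⟨x, hx, h⟩ := hG i (I.erase i) (by simp) (le_trans card_erase_le hIc)
      exact ⟨x, hx, fun j hj hji => h j (mem_erase.mpr ⟨hji, hj⟩)⟩
    choose g hg hg' using hpriv
    have key : ∀ f : List ℕ → ℕ, f [] = 0 → (∀ a b, f (a ++ b) = f a + f b) →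
        (∀ u ∈ t, f (p ++ u.flatMap σ ++ q) = 1) → f (p ++ w.flatMap σ ++ q) = 1 := by
      intro f h0 h1 h2
      have := hS w t hw ht hval (fun x => f (σ x)) (f p + f q) (fun u hu => by
        have := h2 u hu
        rw [h1, h1, additive_flatMap f h0 h1] at this
        omega)
      rw [h1, h1, additive_flatMap f h0 h1]
      omega
    have hcount : ∀ u ∈ t, ∃ i ∈ I, ∀ z,
        (p ++ u.flatMap σ ++ q).count z = if z ∈ G i then 1 else 0 := by
      intro u hu
      obtain ⟨h1, i, h2⟩ := H1 u hu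
      refine ⟨i, by simp only [hI, mem_filter, mem_univ, true_and]; exact ⟨u, hu, h2⟩, fun z => ?_⟩
      rw [← h2]
      by_cases hz : z ∈ p ++ u.flatMap σ ++ q
      · rw [if_pos (List.mem_toFinset.mpr hz)]
        exact List.count_eq_one_of_mem h1 hz
      · rw [if_neg (fun h => hz (List.mem_toFinset.mp h))]
        exact List.count_eq_zero_of_not_mem hz
    have hgG : ∀ i ∈ I, ∀ j ∈ I, (if g j ∈ G i then 1 else 0) = if j = i then 1 else 0 := by
      intro i hi j _
      by_cases h : j = i
      · subst h; simp [hg j]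
      · rw [if_neg h, if_neg (hg' j i hi (Ne.symm h))]
    set v := p ++ w.flatMap σ ++ q with hv
    have k0 : ∑ j ∈ I, v.count (g j) = 1 := by
      refine key (fun l => ∑ j ∈ I, l.count (g j)) (by simp)
        (fun a b => by simp [List.count_append, sum_add_distrib]) fun u hu => ?_
      obtain ⟨i, hi, h⟩ := hcount u hu
      simp only [h]
      rw [sum_congr rfl (hgG i hi)]
      simp [hi]
    have k1 : ∀ z, v.count z + ∑ j ∈ I.filter (fun j => z ∉ G j), v.count (g j) = 1 := by
      intro z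
      refine key (fun l => l.count z + ∑ j ∈ I.filter (fun j => z ∉ G j), l.count (g j)) (by simp)
        (fun a b => by simp only [List.count_append, sum_add_distrib]; ring) fun u hu => ?_
      obtain ⟨i, hi, h⟩ := hcount u hu
      simp only [h]
      rw [sum_congr rfl (fun j hj => hgG i hi j (mem_of_mem_filter _ hj))]
      by_cases hz : z ∈ G i <;> simp [hi, hz]
    obtain ⟨i0, hi0, hpos⟩ : ∃ i0 ∈ I, v.count (g i0) ≠ 0 :=
      exists_ne_zero_of_sum_ne_zero (by rw [k0]; simp)
    have k2 := add_sum_erase I (fun j => v.count (g j)) hi0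
    have k3 : v.count (g i0) = 1 := by omega
    have k4 : ∀ j ∈ I, j ≠ i0 → v.count (g j) = 0 := by
      intro j hj hji
      have : ∑ j ∈ I.erase i0, v.count (g j) = 0 := by omega
      exact sum_eq_zero_iff.mp this j (mem_erase.mpr ⟨hji, hj⟩)
    have k5 : ∀ z, v.count z = if z ∈ G i0 then 1 else 0 := by
      intro z
      have := k1 z
      by_cases hz : z ∈ G i0
      · rw [sum_eq_zero] at this
        · rw [if_pos hz]; omega
        · intro j hj
          rw [mem_filter] at hj
          exact k4 j hj.1 fun h => hj.2 (h ▸ hz)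
      · have h2 : v.count (g i0) ≤ ∑ j ∈ I.filter (fun j => z ∉ G j), v.count (g j) :=
          single_le_sum (f := fun j => v.count (g j)) (fun _ _ => Nat.zero_le _)
            (mem_filter.mpr ⟨hi0, hz⟩)
        rw [if_neg hz]; omega
    refine ⟨List.nodup_iff_count_le_one.mpr fun z => ?_, i0, ?_⟩
    · rw [k5]; split_ifs <;> omega
    · ext z
      rw [List.mem_toFinset, ← List.count_pos_iff, k5]
      split_ifs with h <;> simp [h]
  have hnd : w.Nodup := by
    have := (claim (fun x => (hτ x).some) fun x => (hτ x).some_mem).1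
    exact nodup_of_flatMap _ (fun x => hτ' x _ (hτ x).some_mem) w
      (List.nodup_append.mp (List.nodup_append.mp this).1).2.1
  intro v hv
  obtain ⟨σ, hσ, rfl⟩ := exists_sel_of_nodup τ hτ w hnd v hv
  exact claim σ hσ

theorem count_ofFn {α : Type} [DecidableEq α] (m : ℕ) (φ : Fin m → α) (a : α) :
    (List.ofFn φ).count a = (univ.filter fun x => φ x = a).card := by
  rw [List.ofFn_eq_map, List.count_eq_countP, List.countP_map, List.countP_eq_length_filter,
    ← List.toFinset_card_of_nodup ((List.nodup_finRange m).filter _)]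
  congr 1
  ext x
  simp

theorem exists_arrangement {α β : Type} [DecidableEq α] [DecidableEq β] (F : Finset β)
    (φ : β → α) (l : List α) (h : ∀ a, (F.filter fun x => φ x = a).card = l.count a) :
    ∃ y : List β, y.Nodup ∧ y.toFinset = F ∧ y.map φ = l := by
  have hp : l.Perm (F.toList.map φ) := by
    rw [List.perm_iff_count]
    intro a
    rw [← h, List.count_eq_countP, List.countP_map, List.countP_eq_length_filter,
      ← List.toFinset_card_of_nodup (F.nodup_toList.filter _)]
    congr 1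
    ext x
    simp
  have hf : List.Forall₂ (fun a b => a = φ b) (F.toList.map φ) F.toList := by
    rw [List.forall₂_map_left_iff]
    exact List.forall₂_same.mpr fun _ _ => rfl
  obtain ⟨y, h1, h2⟩ := List.perm_comp_forall₂ hp hf
  refine ⟨y, h2.nodup_iff.mpr F.nodup_toList, ?_, ?_⟩
  · ext x
    rw [List.mem_toFinset, h2.mem_iff, mem_toList]
  · symm
    rw [← List.forall₂_eq_eq_eq, List.forall₂_map_right_iff]
    exact h1

theorem exists_cover (M : Type) [Monoid M] [Fintype M] [DecidableEq M] (r : ℕ) :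
    ∃ (m N : ℕ) (F : Fin N → Finset (Fin m)), 2 ≤ N ∧
      (∀ (i : Fin N) (f : Fin r → Fin N), (∀ j, f j ≠ i) → ∃ x ∈ F i, ∀ j, x ∉ F (f j)) ∧
      ∀ φ : Fin m → M, ∃ y : List (Fin m), y.Nodup ∧ (∃ i, y.toFinset = F i) ∧
        (y.map φ).prod = (List.ofFn φ).prod := by
  obtain ⟨C, hC⟩ := half M
  choose hf hf1 hf2 using hC
  obtain ⟨m, N, F, hN, hF, hcov⟩ := exists_family (α := M) C r
    (fun m φ a => (hf (List.ofFn φ)).count a)
    (fun m φ a => by rw [← count_ofFn]; exact hf2 _ a)
  refine ⟨m, N, F, hN, hF, fun φ => ?_⟩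
  obtain ⟨i, hi⟩ := hcov φ
  obtain ⟨y, h1, h2, h3⟩ := exists_arrangement (F i) φ _ hi
  exact ⟨y, h1, ⟨i, h2⟩, by rw [h3, hf1]⟩

theorem not_fb_of_exact [Finite S] [Nonempty S] (hS : Exact S) :
    ¬ FinitelyBased (Pow.add (S := S)) Pow.mul := by
  classical
  have : Finite (WithOne S) := inferInstanceAs (Finite (Option S))
  have := Fintype.ofFinite (WithOne S)
  apply not_fb_of
  intro n
  obtain ⟨m, N, F, hN, hF, harr⟩ := exists_cover (WithOne S) (2 ^ n)
  set G : Fin N → Finset ℕ := fun i => (F i).map Fin.valEmbedding with hGdef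
  have hG : ∀ (i : Fin N) (I : Finset (Fin N)), i ∉ I → I.card ≤ 2 ^ n →
      ∃ x ∈ G i, ∀ j ∈ I, x ∉ G j := by
    intro i I hi hI
    have : Nontrivial (Fin N) := Fin.nontrivial_iff_two_le.mpr hN
    obtain ⟨j0, hj0⟩ := exists_ne i
    obtain ⟨x, hx, h⟩ := hF i (fun k => I.toList.getD k j0) (fun k => by
      rw [List.getD_eq_getElem?_getD]
      rcases h : I.toList[(k : ℕ)]? with _ | j
      · simpa using hj0
      · have := List.mem_of_getElem? h
        simp only [Option.getD_some]
        rintro rfl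
        exact hi (mem_toList.mp this))
    refine ⟨x, mem_map.mpr ⟨x, hx, rfl⟩, fun j hj hxj => ?_⟩
    obtain ⟨k, hk, e⟩ := List.getElem_of_mem (mem_toList.mpr hj)
    obtain ⟨x', hx', e'⟩ := mem_map.mp hxj
    have e'' : x' = x := Fin.ext e'
    subst e''
    refine h ⟨k, lt_of_lt_of_le hk (by simpa using hI)⟩ ?_
    simp only [List.getD_eq_getElem _ _ hk, e]
    exact hx'
  refine ⟨_, closed_of_coverfree hS n N G hG, ?_⟩
  choose y hy1 hy2 hy3 using harr
  have hne : ∀ i, (F i).Nonempty := by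
    intro i
    obtain ⟨x, hx, -⟩ := hG i ∅ (by simp) (by simp)
    obtain ⟨x', hx', -⟩ := mem_map.mp hx
    exact ⟨x', hx'⟩
  have hm : 0 < m := by
    obtain ⟨x, -⟩ := hne ⟨0, by omega⟩
    exact lt_of_le_of_lt (Nat.zero_le _) x.2
  refine ⟨List.range m, Set.range fun φ => (y φ).map Fin.val, ?_, ?_, Set.range_nonempty _,
    Set.finite_range _, ?_, ?_, ?_⟩
  · simpa using hm.ne'
  · rintro _ ⟨φ, rfl⟩ h
    obtain ⟨i, hi⟩ := hy2 φ
    have h' : y φ = [] := by simpa using h
    rw [h'] at hi
    exact (hne i).ne_empty (by simpa using hi.symm)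
  · intro φ hφ s hs
    obtain ⟨ψ, hψ, rfl⟩ := exists_point_of_nodup φ hφ _ List.nodup_range s hs
    refine ⟨_, ⟨fun i : Fin m => (ψ i : WithOne S), rfl⟩, ?_⟩
    have e1 : ((List.range m).map fun x => (ψ x : WithOne S)) =
        List.ofFn fun i : Fin m => (ψ i : WithOne S) := by
      apply List.ext_getElem <;> simp
    rw [e1, ← hy3]
    have := prod_mem_Val φ ψ ((y fun i : Fin m => (ψ i : WithOne S)).map Fin.val)
      fun x _ => hψ x
    rw [List.map_map] at this
    exact this
  · rintro _ ⟨φ, rfl⟩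
    obtain ⟨i, hi⟩ := hy2 φ
    refine ⟨(hy1 φ).map Fin.val_injective, i, ?_⟩
    ext x
    simp only [hGdef, ← hi, List.mem_toFinset, List.mem_map, mem_map, Fin.valEmbedding_apply]
  · rintro ⟨-, i, hi⟩
    have : Nontrivial (Fin N) := Fin.nontrivial_iff_two_le.mpr hN
    obtain ⟨j, hj⟩ := exists_ne i
    obtain ⟨x, hx, h⟩ := hG j {i} (by simpa using hj) (by simpa using Nat.one_le_two_pow)
    apply h i (by simp)
    rw [← hi]
    obtain ⟨x', -, rfl⟩ := mem_map.mp hx
    simp

end

end Pool.Agent.P.MP_485d6e_al
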