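import Pool.Agent.P.MP_485d6e_al.Exact

set_option autoImplicit false

namespace Pool.Agent.P.MP_485d6e_al

open Pointwise

section

variable {S : Type} [Semigroup S]

/-- Powers of `X` starting from `E`. -/
def pw (E X : Set S) : ℕ → Set S
  | 0 => E
  | j + 1 => pw E X j * X

theorem pw_add {E X : Set S} (hE : E * E = E) (h1 : E * X = X) (h2 : X * E = X) (a b : ℕ) :
    pw E X a * pw E X b = pw E X (a + b) := by
  induction b with
  | zero =>
    cases a with
    | zero => exact hE
    | succ a => simp only [pw, mul_assoc, h2]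
  | succ b ih => rw [← add_assoc]; simp only [pw, ← mul_assoc, ih]

theorem pw_nonempty {E X : Set S} (hE : E.Nonempty) (hX : X.Nonempty) (j : ℕ) :
    (pw E X j).Nonempty := by
  induction j with
  | zero => exact hE
  | succ j ih => exact ih.mul hX

theorem Val_pw {E X : Set S} (hE : E * E = E) (h1 : E * X = X) (h2 : X * E = X) (c : ℕ → ℕ)
    (u : List ℕ) (hu : u ≠ []) (s : S) :
    (s : WithOne S) ∈ Val (fun x => pw E X (c x)) u ↔ s ∈ pw E X (u.map c).sum := by
  induction u generalizing s with
  | nil => exact absurd rfl hu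
  | cons x u ih =>
    by_cases h : u = []
    · subst h
      simp [Val]
    · rw [List.map_cons, List.sum_cons, ← pw_add hE h1 h2]
      simp only [Val, Set.mem_image2]
      constructor
      · rintro ⟨a, ha, b, hb, e⟩
        obtain ⟨b, rfl⟩ := exists_coe_of_mem_Val _ u h b hb
        exact ⟨a, ha, b, (ih h b).mp hb, WithOne.coe_inj.mp (by simpa using e)⟩
      · rintro ⟨a, ha, b, hb, rfl⟩
        exact ⟨a, ha, b, (ih h b).mpr hb, by simp⟩

theorem exact_of_sets
    (h : ∀ k, k ≠ 1 → ∃ E X : Set S, E.Nonempty ∧ X.Nonempty ∧ E * E = E ∧ E * X = X ∧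
      X * E = X ∧ ¬ pw E X k ⊆ X) : Exact S := by
  intro w t hw ht hv c c0 hc
  by_contra hk
  obtain ⟨E, X, e0, x0, hE, h1, h2, h3⟩ := h _ hk
  apply h3
  rw [← pw_add hE h1 h2]
  rintro _ ⟨a, ha, b, hb, rfl⟩
  obtain ⟨u, hu, h4⟩ := hv _ (fun x => pw_nonempty e0 x0 (c x)) _
    ((Val_pw hE h1 h2 c w hw b).mpr hb)
  rw [Val_pw hE h1 h2 c u (ht u hu)] at h4
  have : a * b ∈ pw E X (c0 + (u.map c).sum) := by
    rw [← pw_add hE h1 h2]
    exact Set.mul_mem_mul ha h4
  rw [hc u hu] at this
  simpa only [pw, h1] using this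

/-- A local monoid with a product of two elements that is neither of them nor the identity. -/
theorem exact_of_local (e a b : S) (he : e * e = e) (ha : e * a = a) (ha' : a * e = a)
    (hb : e * b = b) (hb' : b * e = b) (h1 : a * b ≠ a) (h2 : a * b ≠ b) (h3 : a * b ≠ e) :
    Exact S := by
  apply exact_of_sets
  intro k hk
  have hae : a ≠ e := by rintro rfl; exact h2 hb
  rcases k with _ | _ | k
  · refine ⟨{e}, {a}, by simp, by simp, by simp [he], by simp [ha], by simp [ha'], ?_⟩
    simpa [pw] using hae.symm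
  · exact absurd rfl hk
  · have hE : ({e} : Set S) * {e} = {e} := by simp [he]
    have hX1 : ({e} : Set S) * {a, b, e} = {a, b, e} := by
      simp [Set.singleton_mul, Set.image_insert_eq, ha, hb, he]
    have hX2 : ({a, b, e} : Set S) * {e} = {a, b, e} := by
      simp [Set.mul_singleton, Set.image_insert_eq, ha', hb', he]
    refine ⟨{e}, {a, b, e}, by simp, by simp, hE, hX1, hX2, fun h => ?_⟩
    have k0 : ∀ j, e ∈ pw ({e} : Set S) {a, b, e} j := by
      intro j
      induction j with
      | zero => rfl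
      | succ j ih =>
        have : e * e ∈ pw ({e} : Set S) {a, b, e} (j + 1) := Set.mul_mem_mul ih (by simp)
        rwa [he] at this
    have k1 : e * a * b ∈ pw ({e} : Set S) {a, b, e} (k + 1 + 1) :=
      Set.mul_mem_mul (Set.mul_mem_mul (k0 k) (by simp)) (by simp)
    rw [ha] at k1
    rcases h k1 with h | h | h
    · exact h1 h
    · exact h2 h
    · exact h3 h

end

end Pool.Agent.P.MP_485d6e_al
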