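import Pool.Agent.P.MP_485d6e_al.Words

set_option autoImplicit false

namespace Pool.Agent.P.MP_485d6e_al

theorem finite_lists {α : Type} (A : Set α) (hA : A.Finite) (n : ℕ) :
    {l : List α | l.length ≤ n ∧ ∀ x ∈ l, x ∈ A}.Finite := by
  have := hA.to_subtype
  refine ((List.finite_length_le A n).image (List.map Subtype.val)).subset ?_
  rintro l ⟨h1, h2⟩
  refine ⟨l.pmap Subtype.mk h2, by simpa using h1, ?_⟩
  rw [List.map_pmap]
  simp

/-- The six defining laws of ai-semirings. -/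
def aiLaws : Set (Term × Term) :=
  {(.add (.add (.var 0) (.var 1)) (.var 2), .add (.var 0) (.add (.var 1) (.var 2))),
   (.add (.var 0) (.var 1), .add (.var 1) (.var 0)),
   (.add (.var 0) (.var 0), .var 0),
   (.mul (.mul (.var 0) (.var 1)) (.var 2), .mul (.var 0) (.mul (.var 1) (.var 2))),
   (.mul (.var 0) (.add (.var 1) (.var 2)),
     .add (.mul (.var 0) (.var 1)) (.mul (.var 0) (.var 2))),
   (.mul (.add (.var 0) (.var 1)) (.var 2),
     .add (.mul (.var 0) (.var 2)) (.mul (.var 1) (.var 2)))}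

section Der

variable {E : Set (Term × Term)}

/-- Substitution of three terms. -/
def sg (a b c : Term) : ℕ → Term
  | 0 => a
  | 1 => b
  | _ => c

theorem D_add_assoc (hE : aiLaws ⊆ E) (a b c : Term) :
    Derives E (.add (.add a b) c) (.add a (.add b c)) :=
  Derives.ax _ _ (hE (Or.inl rfl)) (sg a b c)

theorem D_add_comm (hE : aiLaws ⊆ E) (a b : Term) : Derives E (.add a b) (.add b a) :=
  Derives.ax _ _ (hE (Or.inr (Or.inl rfl))) (sg a b a)

theorem D_add_self (hE : aiLaws ⊆ E) (a : Term) : Derives E (.add a a) a :=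
  Derives.ax _ _ (hE (Or.inr (Or.inr (Or.inl rfl)))) (sg a a a)

theorem D_mul_assoc (hE : aiLaws ⊆ E) (a b c : Term) :
    Derives E (.mul (.mul a b) c) (.mul a (.mul b c)) :=
  Derives.ax _ _ (hE (Or.inr (Or.inr (Or.inr (Or.inl rfl))))) (sg a b c)

theorem D_mul_add (hE : aiLaws ⊆ E) (a b c : Term) :
    Derives E (.mul a (.add b c)) (.add (.mul a b) (.mul a c)) :=
  Derives.ax _ _ (hE (Or.inr (Or.inr (Or.inr (Or.inr (Or.inl rfl)))))) (sg a b c)

theorem D_add_mul (hE : aiLaws ⊆ E) (a b c : Term) :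
    Derives E (.mul (.add a b) c) (.add (.mul a c) (.mul b c)) :=
  Derives.ax _ _ (hE (Or.inr (Or.inr (Or.inr (Or.inr (Or.inr rfl)))))) (sg a b c)

/-- The derivable order. -/
def DLe (E : Set (Term × Term)) (s t : Term) : Prop := Derives E (.add s t) t

theorem DLe.of_der (hE : aiLaws ⊆ E) {s t : Term} (h : Derives E s t) : DLe E s t :=
  (Derives.add h (Derives.refl t)).trans (D_add_self hE t)

theorem DLe.trans (hE : aiLaws ⊆ E) {s t u : Term} (h1 : DLe E s t) (h2 : DLe E t u) :
    DLe E s u :=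
  (Derives.add (Derives.refl s) h2.symm).trans
    ((D_add_assoc hE s t u).symm.trans ((Derives.add h1 (Derives.refl u)).trans h2))

theorem DLe.add (hE : aiLaws ⊆ E) {s t u : Term} (h1 : DLe E s u) (h2 : DLe E t u) :
    DLe E (.add s t) u :=
  (D_add_assoc hE s t u).trans ((Derives.add (Derives.refl s) h2).trans h1)

theorem DLe.left (hE : aiLaws ⊆ E) (s t : Term) : DLe E s (.add s t) :=
  (D_add_assoc hE s s t).symm.trans (Derives.add (D_add_self hE s) (Derives.refl t))

theorem DLe.right (hE : aiLaws ⊆ E) (s t : Term) : DLe E t (.add s t) :=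
  DLe.trans hE (DLe.left hE t s) (DLe.of_der hE (D_add_comm hE t s))

theorem DLe.antisymm (hE : aiLaws ⊆ E) {s t : Term} (h1 : DLe E s t) (h2 : DLe E t s) :
    Derives E s t :=
  h2.symm.trans ((D_add_comm hE t s).trans h1)

theorem DLe.mul (hE : aiLaws ⊆ E) {s t s' t' : Term} (h1 : DLe E s s') (h2 : DLe E t t') :
    DLe E (.mul s t) (.mul s' t') := by
  have a1 : DLe E (.mul s t) (.mul s' t) :=
    (D_add_mul hE s s' t).symm.trans (Derives.mul h1 (Derives.refl t))
  have a2 : DLe E (.mul s' t) (.mul s' t') :=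
    (D_mul_add hE s' t t').symm.trans (Derives.mul (Derives.refl s') h2)
  exact DLe.trans hE a1 a2

theorem D_wterm_append (hE : aiLaws ⊆ E) (a b : List ℕ) (ha : a ≠ []) (hb : b ≠ []) :
    Derives E (wterm (a ++ b)) (.mul (wterm a) (wterm b)) := by
  obtain ⟨y, b, rfl⟩ := List.exists_cons_of_ne_nil hb
  obtain ⟨x, a, rfl⟩ := List.exists_cons_of_ne_nil ha
  induction a generalizing x with
  | nil => exact Derives.refl _
  | cons z a ih =>
    have h := ih z (by simp)
    exact (Derives.mul (Derives.refl (.var x)) h).trans (D_mul_assoc hE _ _ _).symm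

theorem DLe.word (hE : aiLaws ⊆ E) (t : Term) : ∀ v ∈ t.W, DLe E (wterm v) t := by
  induction t with
  | var n =>
    intro v hv
    simp only [Term.W, Set.mem_singleton_iff] at hv
    subst hv
    exact DLe.of_der hE (Derives.refl _)
  | add s t ihs iht =>
    intro v hv
    rcases hv with hv | hv
    · exact DLe.trans hE (ihs v hv) (DLe.left hE s t)
    · exact DLe.trans hE (iht v hv) (DLe.right hE s t)
  | mul s t ihs iht =>
    rintro v ⟨a, ha, b, hb, rfl⟩
    exact DLe.trans hE (DLe.of_der hE (D_wterm_append hE a b (s.W_ne_nil a ha) (t.W_ne_nil b hb)))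
      (DLe.mul hE (ihs a ha) (iht b hb))

theorem DLe.ctx (hE : aiLaws ⊆ E) (s : Term) : ∀ (c : Term → Term),
    (∀ x y, Derives E x y → Derives E (c x) (c y)) →
    (∀ x y, Derives E (c (.add x y)) (.add (c x) (c y))) →
    ∀ t, (∀ v ∈ s.W, DLe E (c (wterm v)) t) → DLe E (c s) t := by
  induction s with
  | var n => intro c _ _ t h; exact h [n] rfl
  | add s s' ihs ihs' =>
    intro c h1 h2 t h
    exact DLe.trans hE (DLe.of_der hE (h2 s s'))
      (DLe.add hE (ihs c h1 h2 t fun v hv => h v (Or.inl hv))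
        (ihs' c h1 h2 t fun v hv => h v (Or.inr hv)))
  | mul s s' ihs ihs' =>
    intro c h1 h2 t h
    refine ihs (fun x => c (.mul x s')) (fun x y hxy => h1 _ _ (hxy.mul (Derives.refl _)))
      (fun x y => (h1 _ _ (D_add_mul hE x y s')).trans (h2 _ _)) t fun a ha => ?_
    refine ihs' (fun y => c (.mul (wterm a) y))
      (fun x y hxy => h1 _ _ ((Derives.refl _).mul hxy))
      (fun x y => (h1 _ _ (D_mul_add hE _ x y)).trans (h2 _ _)) t fun b hb => ?_
    exact DLe.trans hE (DLe.of_der hE (h1 _ _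
      (D_wterm_append hE a b (s.W_ne_nil a ha) (s'.W_ne_nil b hb)).symm))
      (h _ ⟨a, ha, b, hb, rfl⟩)

theorem DLe.of_words (hE : aiLaws ⊆ E) (s t : Term) (h : ∀ v ∈ s.W, DLe E (wterm v) t) :
    DLe E s t :=
  DLe.ctx hE s (fun x => x) (fun _ _ h => h) (fun _ _ => Derives.refl _) t h

end Der

theorem Sub_singleton (σ : ℕ → List ℕ) (u : List ℕ) :
    Sub (fun x => {σ x}) u = {u.flatMap σ} := by
  induction u with
  | nil => simp [Sub]
  | cons x u ih => simp [Sub, ih]

variable (S : Type) [Semigroup S]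

/-- Size bound for an inequality. -/
def Small (n : ℕ) (w : List ℕ) (L : List (List ℕ)) : Prop :=
  (w.length ≤ n ∧ ∀ x ∈ w, x < n) ∧ L.length ≤ n ∧ ∀ u ∈ L, u.length ≤ n ∧ ∀ x ∈ u, x < n

instance (n : ℕ) (w : List ℕ) (L : List (List ℕ)) : Decidable (Small n w L) := by
  unfold Small; infer_instance

/-- `T` is closed under word substitution instances of the small valid inequalities. -/
def Closed (n : ℕ) (T : Set (List ℕ)) : Prop :=
  ∀ (w : List ℕ) (L : List (List ℕ)), w ≠ [] → (∀ u ∈ L, u ≠ []) → L ≠ [] → Small n w L →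
    Valid S w {u | u ∈ L} → ∀ σ : ℕ → List ℕ, (∀ x, σ x ≠ []) →
      (∀ u ∈ L, u.flatMap σ ∈ T) → w.flatMap σ ∈ T

theorem aiLaws_hold : ∀ e ∈ aiLaws, Holds (Pow.add (S := S)) Pow.mul e.1 e.2 := by
  intro e he φ
  apply Pow.ext'
  rcases he with rfl | rfl | rfl | rfl | rfl | rfl <;>
    simp only [Term.eval, Pow.add, Pow.mul]
  · exact Set.union_assoc _ _ _
  · exact Set.union_comm _ _
  · exact Set.union_self _
  · exact Set.image2_assoc fun a b c => mul_assoc a b c
  · exact Set.image2_union_right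
  · exact Set.image2_union_left

theorem fb_of (n : ℕ)
    (h : ∀ (w : List ℕ) (t : Set (List ℕ)), w ≠ [] → (∀ u ∈ t, u ≠ []) → t.Finite →
      t.Nonempty → Valid S w t → ∀ T : Set (List ℕ), Closed S n T → [] ∉ T → t ⊆ T → w ∈ T) :
    FinitelyBased (Pow.add (S := S)) Pow.mul := by
  set A : Set (List ℕ) := {l | l.length ≤ n ∧ ∀ x ∈ l, x ∈ Set.Iio n} with hA
  have hAf : A.Finite := finite_lists _ (Set.finite_Iio n) n
  set B : Set (List ℕ × List ℕ × List (List ℕ)) :=
    {p | p.1 ≠ [] ∧ (∀ u ∈ p.2.1 :: p.2.2, u ≠ []) ∧ Small n p.1 (p.2.1 :: p.2.2) ∧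
      Valid S p.1 {u | u ∈ p.2.1 :: p.2.2}} with hB
  have hBf : B.Finite := by
    refine (hAf.prod (hAf.prod (finite_lists A hAf n))).subset ?_
    rintro ⟨w, u, L⟩ ⟨-, -, ⟨h1, h2, h3⟩, -⟩
    refine ⟨h1, h3 u (by simp), ?_, fun v hv => h3 v (by simp [hv])⟩
    simp only [List.length_cons] at h2
    show L.length ≤ n
    omega
  set E : Set (Term × Term) := aiLaws ∪
    (fun p : List ℕ × List ℕ × List (List ℕ) =>
      (Term.add (sumT p.2.1 p.2.2) (wterm p.1), sumT p.2.1 p.2.2)) '' B with hE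
  have hE1 : aiLaws ⊆ E := Set.subset_union_left
  refine ⟨E, Set.Finite.union (by unfold aiLaws; exact Set.toFinite _) (hBf.image _), ?_, ?_⟩
  · rintro e (he | ⟨⟨w, u, L⟩, ⟨h1, h2, -, h4⟩, rfl⟩)
    · exact aiLaws_hold S e he
    · rw [holds_iff]
      refine ⟨fun v hv => ?_, fun v hv => Valid.of_mem (Or.inl hv)⟩
      rcases hv with hv | hv
      · exact Valid.of_mem hv
      · rw [wterm_W w h1] at hv
        rw [hv, sumT_W u L h2]
        exact h4
  · have key : ∀ s t : Term, (∀ w ∈ s.W, Valid S w t.W) → DLe E s t := by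
      intro s t hv
      refine DLe.of_words hE1 s t fun w hw => ?_
      refine (h w t.W (s.W_ne_nil w hw) t.W_ne_nil t.W_finite t.W_nonempty (hv w hw)
        {v | v ≠ [] ∧ DLe E (wterm v) t} ?_ (by simp)
        fun v hv => ⟨t.W_ne_nil v hv, DLe.word hE1 t v hv⟩).2
      intro w L h1 h2 h3 h4 h5 σ hσ h6
      obtain ⟨u, L, rfl⟩ := List.exists_cons_of_ne_nil h3
      have hW : (fun x => (wterm (σ x)).W) = fun x => {σ x} :=
        funext fun x => wterm_W _ (hσ x)
      have hax : Derives E ((Term.add (sumT u L) (wterm w)).subst fun x => wterm (σ x))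
          ((sumT u L).subst fun x => wterm (σ x)) :=
        Derives.ax _ _ (Or.inr ⟨(w, u, L), ⟨h1, h2, h4, h5⟩, rfl⟩) _
      refine ⟨?_, ?_⟩
      · obtain ⟨x, w, rfl⟩ := List.exists_cons_of_ne_nil h1
        simp [hσ x]
      · refine DLe.trans hE1 (DLe.word hE1 ((Term.add (sumT u L) (wterm w)).subst
          fun x => wterm (σ x)) _ ?_) (DLe.trans hE1 (DLe.of_der hE1 hax)
            (DLe.of_words hE1 _ _ fun v hv => ?_))
        · rw [mem_W_subst, hW]
          exact ⟨w, Or.inr (by rw [wterm_W w h1]; rfl), by rw [Sub_singleton]; rfl⟩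
        · rw [mem_W_subst, hW, sumT_W u L h2] at hv
          obtain ⟨u', hu', hv⟩ := hv
          rw [Sub_singleton] at hv
          rw [hv]
          exact (h6 u' hu').2
    intro s t hst
    rw [holds_iff] at hst
    exact DLe.antisymm hE1 (key s t hst.1) (key t s hst.2)

variable {S}

/-- Instances in which some variables are replaced by the empty word. -/
theorem Closed.del {n : ℕ} {T : Set (List ℕ)} (hT : Closed S n T) (h0 : [] ∉ T)
    (w : List ℕ) (L : List (List ℕ)) (hL : L ≠ []) (hs : Small n w L) (σ : ℕ → List ℕ)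
    (hv : Valid S (w.filter fun x => σ x ≠ [])
      {u | u ∈ L.map (List.filter fun x => σ x ≠ [])})
    (hw : w.flatMap σ ≠ []) (h : ∀ u ∈ L, u.flatMap σ ∈ T) : w.flatMap σ ∈ T := by
  have e : ∀ u : List ℕ, (u.filter fun x => σ x ≠ []).flatMap
      (fun x => if σ x = [] then [0] else σ x) = u.flatMap σ := by
    intro u
    induction u with
    | nil => rfl
    | cons x u ih =>
      by_cases hx : σ x = []
      · simpa [List.filter_cons, hx] using ih
      · simpa [List.filter_cons, hx] using ih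
  have e2 : ∀ u : List ℕ, u.flatMap σ ≠ [] → (u.filter fun x => σ x ≠ []) ≠ [] := by
    intro u hu h1
    rw [← e, h1] at hu
    exact hu rfl
  rw [← e]
  refine hT _ (L.map (List.filter fun x => σ x ≠ [])) (e2 w hw) ?_ (by simpa using hL) ?_ hv _
    (fun x => ?_) ?_
  · intro u hu
    obtain ⟨u', hu', rfl⟩ := List.mem_map.mp hu
    exact e2 u' fun h1 => h0 (h1 ▸ h u' hu')
  · obtain ⟨⟨a1, a2⟩, a3, a4⟩ := hs
    refine ⟨⟨le_trans (List.length_filter_le _ _) a1, fun x hx => a2 x (List.mem_of_mem_filter hx)⟩,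
      by simpa using a3, fun u hu => ?_⟩
    obtain ⟨u', hu', rfl⟩ := List.mem_map.mp hu
    exact ⟨le_trans (List.length_filter_le _ _) (a4 u' hu').1,
      fun x hx => (a4 u' hu').2 x (List.mem_of_mem_filter hx)⟩
  · split_ifs with h1
    · simp
    · exact h1
  · intro u hu
    obtain ⟨u', hu', rfl⟩ := List.mem_map.mp hu
    rw [e]
    exact h u' hu'

end Pool.Agent.P.MP_485d6e_al
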