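import Pool.Agent.P.MP_485d6e_al.Mid

set_option autoImplicit false

namespace Pool.Agent.P.MP_485d6e_al

variable {M : Type} [Monoid M] {T : Set (List ℕ)}

theorem FL1.t1 (h : FL1 M) : FT1 M := by
  obtain ⟨s, _, z, h1, _, h2⟩ := h; exact ⟨s, z, h1, h2⟩
theorem FR1.t1 (h : FR1 M) : FT1 M := by
  obtain ⟨s, _, z, h1, _, h2⟩ := h; exact ⟨s, z, h1, h2⟩
theorem FL1.l0 (h : FL1 M) : FL0 M := by
  obtain ⟨s, a, _, h1, h2, _⟩ := h; exact ⟨s, a, h1, h2⟩
theorem FR1.r0 (h : FR1 M) : FR0 M := by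
  obtain ⟨s, a, _, h1, h2, _⟩ := h; exact ⟨s, a, h1, h2⟩
theorem FL0.t0 (h : FL0 M) : FT0 M := by
  obtain ⟨s, _, h1, _⟩ := h; exact ⟨s, h1⟩
theorem FR0.t0 (h : FR0 M) : FT0 M := by
  obtain ⟨s, _, h1, _⟩ := h; exact ⟨s, h1⟩
theorem FT1.t0 (h : FT1 M) : FT0 M := by
  obtain ⟨s, _, h1, _⟩ := h; exact ⟨s, h1⟩

theorem Good.not_l0_r0 (hM : Good M) (h : ¬ FT1 M) (hl : FL0 M) (hr : FR0 M) : False := by
  obtain ⟨s, a, hs, ha⟩ := hl
  obtain ⟨s', b, hs', hb⟩ := hr
  by_cases e : s' = s
  · subst e; exact hM.not_lm_rm hs ha hb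
  rcases hM.left_cases hs s' with h1 | h1 <;> rcases hM.right_cases hs s' with h2 | h2
  · exact hM.not_lm_rm hs' ⟨h2, h1, Ne.symm e⟩ hb
  · exact h ⟨s, s', hs, h1, h2, e⟩
  · exact h ⟨s', s, hs', h2, h1, Ne.symm e⟩
  · exact hM.not_lm_rm hs ha ⟨h1, h2, e⟩

/-- A law that holds in every good monoid. -/
theorem Good.all (hM : Good M) (w : List ℕ) (L : List (List ℕ))
    (h : (dCU true w L && dCT true w L && dCP true w L && dCL true w L && dCR true w L) = true) :
    MValid M w {u | u ∈ L} := by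
  simp only [Bool.and_eq_true] at h
  obtain ⟨⟨⟨⟨h1, h2⟩, h3⟩, h4⟩, h5⟩ := h
  exact hM.check w L true true true true (fun _ => rfl) (fun _ => rfl) (fun _ => rfl)
    (fun _ => rfl) h1 (fun _ => ⟨h2, h3⟩) (fun _ => h2) (fun _ => h4) fun _ => h5

theorem Good.tri_valid (hM : Good M) : MValid M [0, 1, 2] {u | u ∈ [[0], [1], [2]]} := by
  have t1 : ∀ c : Prop, c → true = true := fun _ _ => rfl
  refine hM.sound _ _ (cu_of (t1 _) (by decide)) (fun _ => ⟨ct_of (t1 _) (by decide), ?_⟩)
    (fun _ => ct_of (t1 _) (by decide)) (fun _ => ct_of (t1 _) (by decide))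
    (fun _ => cl_of (t1 _) (by decide)) (fun _ => cl_of (t1 _) (by decide))
    (fun _ => cr_of (t1 _) (by decide)) fun _ => cr_of (t1 _) (by decide)
  intro ψ
  have h : ∀ a b c : ZMod 2, a = a + (b + c) ∨ b = a + (b + c) ∨ c = a + (b + c) := by decide
  rcases h (ψ 0) (ψ 1) (ψ 2) with h | h | h
  · exact ⟨[0], by simp, fun _ => by simp, by simpa using h⟩
  · exact ⟨[1], by simp, fun _ => by simp, by simpa using h⟩
  · exact ⟨[2], by simp, fun _ => by simp, by simpa using h⟩

section Laws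

variable (hM : Good M) (hT : Closed M 16 T) (h0 : [] ∉ T)
include hM hT h0

omit hM hT in
theorem ne_nil_of_mem {x : List ℕ} (hx : x ∈ T) : x ≠ [] := fun e => h0 (e ▸ hx)

theorem law_tri {x y z : List ℕ} (hx : x ∈ T) (hy : y ∈ T) (hz : z ∈ T) : x ++ y ++ z ∈ T := by
  have := hT.law h0 [0, 1, 2] [[0], [1], [2]] (by simp) (by decide) hM.tri_valid [x, y, z]
    (by simp [ne_nil_of_mem h0 hx]) (by simp [hx, hy, hz])
  simpa using this

theorem law_cube {x : List ℕ} (hx : x ++ x ++ x ∈ T) : x ∈ T := by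
  have hn : x ≠ [] := by rintro rfl; exact h0 hx
  have := hT.law h0 [0] [[0, 0, 0]] (by simp) (by decide) (hM.all _ _ (by decide)) [x]
    (by simp [hn]) (by simpa using hx)
  simpa using this

theorem law_mid : Mid T := by
  constructor
  · intro p z h r hp hr
    obtain ⟨p1, p2, rfl⟩ := List.append_of_mem hp
    obtain ⟨r1, r2, rfl⟩ := List.append_of_mem hr
    constructor
    · intro h1
      have := hT.law h0 [0, 1, 2, 3, 1, 4, 1, 5] [[0, 1, 2, 1, 3, 4, 1, 5]] (by simp) (by decide)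
        (hM.all _ _ (by decide)) [p1, [z], p2, h, r1, r2] (by simp) (by simpa using h1)
      simpa using this
    · intro h1
      have := hT.law h0 [0, 1, 2, 1, 3, 4, 1, 5] [[0, 1, 2, 3, 1, 4, 1, 5]] (by simp) (by decide)
        (hM.all _ _ (by decide)) [p1, [z], p2, h, r1, r2] (by simp) (by simpa using h1)
      simpa using this
  · intro p z r hp hr
    obtain ⟨p1, p2, rfl⟩ := List.append_of_mem hp
    obtain ⟨r1, r2, rfl⟩ := List.append_of_mem hr
    constructor
    · intro h1
      have := hT.law h0 [0, 1, 2, 1, 1, 3, 1, 4] [[0, 1, 2, 3, 1, 4]] (by simp) (by decide)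
        (hM.all _ _ (by decide)) [p1, [z], p2, r1, r2] (by simp) (by simpa using h1)
      simpa using this
    · intro h1
      have := hT.law h0 [0, 1, 2, 3, 1, 4] [[0, 1, 2, 1, 1, 3, 1, 4]] (by simp) (by decide)
        (hM.all _ _ (by decide)) [p1, [z], p2, r1, r2] (by simp) (by simpa using h1)
      simpa using this

theorem law_single (hG : ¬ FG M) (p : List ℕ) (z : ℕ) (r : List ℕ) (hp : z ∈ p) (hr : z ∈ r) :
    p ++ r ∈ T ↔ p ++ z :: r ∈ T := by
  obtain ⟨p1, p2, rfl⟩ := List.append_of_mem hp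
  obtain ⟨r1, r2, rfl⟩ := List.append_of_mem hr
  constructor
  · intro h1
    have := hT.law h0 [0, 1, 2, 1, 3, 1, 4] [[0, 1, 2, 3, 1, 4]] (by simp) (by decide)
      (hM.check _ _ true true true true (fun _ => rfl) (fun _ => rfl) (fun _ => rfl)
        (fun _ => rfl) (by decide) (fun h => absurd h hG) (fun _ => by decide)
        (fun _ => by decide) fun _ => by decide)
      [p1, [z], p2, r1, r2] (by simp) (by simpa using h1)
    simpa using this
  · intro h1
    have := hT.law h0 [0, 1, 2, 3, 1, 4] [[0, 1, 2, 1, 3, 1, 4]] (by simp) (by decide)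
      (hM.check _ _ true true true true (fun _ => rfl) (fun _ => rfl) (fun _ => rfl)
        (fun _ => rfl) (by decide) (fun h => absurd h hG) (fun _ => by decide)
        (fun _ => by decide) fun _ => by decide)
      [p1, [z], p2, r1, r2] (by simp) (by simpa using h1)
    simpa using this

theorem law_A (hL : ¬ FL0 M) (p : List ℕ) (y : ℕ) (R : List ℕ) (hy : y ∈ R) (h : p ++ R ∈ T) :
    p ++ y :: y :: R ∈ T := by
  obtain ⟨r, s, rfl⟩ := List.append_of_mem hy
  have := hT.law h0 [0, 1, 1, 2, 1, 3] [[0, 2, 1, 3]] (by simp) (by decide)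
    (hM.check _ _ true true true true (fun _ => rfl) (fun _ => rfl) (fun _ => rfl)
      (fun _ => rfl) (by decide) (fun _ => by decide) (fun _ => by decide)
      (fun h => absurd h hL) fun _ => by decide)
    [p, [y], r, s] (by simp) (by simpa using h)
  simpa using this

theorem law_B (hL : ¬ FL1 M) (p a : List ℕ) (y : ℕ) (b R : List ℕ) (hy : y ∈ R)
    (h : p ++ a ++ R ∈ T) (hu : a ++ y :: b ∈ T) : p ++ a ++ y :: y :: R ∈ T := by
  obtain ⟨r, s, rfl⟩ := List.append_of_mem hy
  have := hT.law h0 [0, 1, 2, 2, 3, 2, 4] [[0, 1, 3, 2, 4], [1, 2, 5]] (by simp) (by decide)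
    (hM.check _ _ true true false true (fun _ => rfl) (fun _ => rfl) (fun h => absurd h hL)
      (fun _ => rfl) (by decide) (fun _ => by decide) (fun _ => by decide)
      (fun _ => by decide) fun _ => by decide)
    [p, a, [y], r, s, b] (by simp) (by simpa using ⟨by simpa using h, hu⟩)
  simpa using this

theorem law_C (p a : List ℕ) (y : ℕ) (b r s : List ℕ)
    (h : p ++ a ++ (r ++ (a ++ y :: b) ++ s) ∈ T) (hu : a ++ y :: b ∈ T) :
    p ++ a ++ y :: y :: (r ++ (a ++ y :: b) ++ s) ∈ T := by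
  have := hT.law h0 [0, 1, 2, 2, 3, 1, 2, 5, 4] [[0, 1, 3, 1, 2, 5, 4], [1, 2, 5]] (by simp)
    (by decide) (hM.all _ _ (by decide))
    [p, a, [y], r, s, b] (by simp) (by simpa using ⟨by simpa using h, hu⟩)
  simpa using this

theorem law_A' (hL : ¬ FR0 M) (p : List ℕ) (y : ℕ) (R : List ℕ) (hy : y ∈ R) (h : R ++ p ∈ T) :
    R ++ y :: y :: p ∈ T := by
  obtain ⟨s, r, rfl⟩ := List.append_of_mem hy
  have := hT.law h0 [3, 1, 2, 1, 1, 0] [[3, 1, 2, 0]] (by simp) (by decide)
    (hM.check _ _ true true true true (fun _ => rfl) (fun _ => rfl) (fun _ => rfl)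
      (fun _ => rfl) (by decide) (fun _ => by decide) (fun _ => by decide)
      (fun _ => by decide) fun h => absurd h hL)
    [p, [y], r, s] (by simp) (by simpa using h)
  simpa using this

theorem law_B' (hL : ¬ FR1 M) (p a : List ℕ) (y : ℕ) (b R : List ℕ) (hy : y ∈ R)
    (h : R ++ b ++ p ∈ T) (hu : a ++ y :: b ∈ T) : R ++ y :: y :: (b ++ p) ∈ T := by
  obtain ⟨s, r, rfl⟩ := List.append_of_mem hy
  have := hT.law h0 [4, 2, 3, 2, 2, 1, 0] [[4, 2, 3, 1, 0], [5, 2, 1]] (by simp) (by decide)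
    (hM.check _ _ true true true false (fun _ => rfl) (fun _ => rfl) (fun _ => rfl)
      (fun h => absurd h hL) (by decide) (fun _ => by decide) (fun _ => by decide)
      (fun _ => by decide) fun _ => by decide)
    [p, b, [y], r, s, a] (by simp) (by simpa using ⟨by simpa using h, hu⟩)
  simpa using this

theorem law_C' (p a : List ℕ) (y : ℕ) (b r s : List ℕ)
    (h : (s ++ (a ++ y :: b) ++ r) ++ b ++ p ∈ T) (hu : a ++ y :: b ∈ T) :
    (s ++ (a ++ y :: b) ++ r) ++ y :: y :: (b ++ p) ∈ T := by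
  have := hT.law h0 [4, 5, 2, 1, 3, 2, 2, 1, 0] [[4, 5, 2, 1, 3, 1, 0], [5, 2, 1]] (by simp)
    (by decide) (hM.all _ _ (by decide))
    [p, b, [y], r, s, a] (by simp) (by simpa using ⟨by simpa using h, hu⟩)
  simpa using this

theorem law_D (h1 : ¬ FT1 M) (hG : ¬ FG M) (hR : ¬ FR0 M) (r a : List ℕ) (y : ℕ) (b : List ℕ)
    (h : r ∈ T) (hu : a ++ y :: b ∈ T) : r ++ a ++ [y] ∈ T := by
  have := hT.law h0 [0, 1, 2] [[0], [1, 2, 3]] (by simp) (by decide)
    (hM.check _ _ true false false true (fun _ => rfl) (fun h => absurd h h1)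
      (fun h => absurd h.t1 h1) (fun _ => rfl) (by decide) (fun h => absurd h hG)
      (fun _ => by decide) (fun _ => by decide) fun h => absurd h hR)
    [r, a, [y], b] (by simp) (by simpa using ⟨h, hu⟩)
  simpa using this

theorem law_D' (h1 : ¬ FT1 M) (hG : ¬ FG M) (hL : ¬ FL0 M) (r a : List ℕ) (y : ℕ) (b : List ℕ)
    (h : r ∈ T) (hu : a ++ y :: b ∈ T) : y :: b ++ r ∈ T := by
  have := hT.law h0 [2, 3, 0] [[0], [1, 2, 3]] (by simp) (by decide)
    (hM.check _ _ true false true false (fun _ => rfl) (fun h => absurd h h1)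
      (fun _ => rfl) (fun h => absurd h.t1 h1) (by decide) (fun h => absurd h hG)
      (fun _ => by decide) (fun h => absurd h hL) fun _ => by decide)
    [r, a, [y], b] (by simp) (by simpa using ⟨h, hu⟩)
  simpa using this

theorem law_E (h1 : ¬ FT1 M) (hG : ¬ FG M) (hL : ¬ FL0 M) (hR : ¬ FR0 M) (r a : List ℕ) (y : ℕ)
    (b : List ℕ) (h : r ∈ T) (hu : a ++ y :: b ∈ T) : r ++ [y] ∈ T := by
  have := hT.law h0 [0, 2] [[0], [1, 2, 3]] (by simp) (by decide)
    (hM.check _ _ true false true true (fun _ => rfl) (fun h => absurd h h1)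
      (fun _ => rfl) (fun _ => rfl) (by decide) (fun h => absurd h hG)
      (fun _ => by decide) (fun h => absurd h hL) fun h => absurd h hR)
    [r, a, [y], b] (by simp) (by simpa using ⟨h, hu⟩)
  simpa using this

omit hT h0 in
theorem Good.grp (h1 : ¬ FT0 M) (w : List ℕ) (L : List (List ℕ))
    (h : (dCU false w L && dCT false w L && dCP false w L) = true) : MValid M w {u | u ∈ L} := by
  simp only [Bool.and_eq_true] at h
  exact hM.check _ _ false true true true (fun h => absurd h h1) (fun _ => rfl) (fun _ => rfl)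
    (fun _ => rfl) h.1.1 (fun _ => ⟨h.1.2, h.2⟩) (fun h => absurd h h1)
    (fun h => absurd h.t0 h1) fun h => absurd h.t0 h1

theorem grp_perm (h1 : ¬ FT0 M) {m m' : List ℕ} (h : m.Perm m') :
    ∀ p : List ℕ, p ++ m ∈ T → p ++ m' ∈ T := by
  induction h with
  | nil => intro p h; exact h
  | cons x _ ih =>
    intro p h
    simpa using ih (p ++ [x]) (by simpa using h)
  | swap x y l =>
    intro p h
    have := hT.law h0 [0, 2, 1, 3] [[0, 1, 2, 3]] (by simp) (by decide)
      (hM.grp h1 _ _ (by decide)) [p, [y], [x], l] (by simp) (by simpa using h)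
    simpa using this
  | trans _ _ ih1 ih2 => intro p h; exact ih2 p (ih1 p h)

theorem grp_del (h1 : ¬ FT0 M) (p : List ℕ) (hp : p ≠ []) (e : List ℕ) (he : Ev e)
    (h : p ++ e ∈ T) : p ∈ T := by
  induction hn : e.length using Nat.strong_induction_on generalizing e with
  | _ n ih =>
    cases e with
    | nil => simpa using h
    | cons z e =>
      obtain ⟨e', hp', he', hl⟩ := he.perm_cons
      refine ih e'.length (hn ▸ hl) e' he' ?_ rfl
      have h2 := grp_perm hM hT h0 h1 hp' p h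
      have := hT.law h0 [0, 2] [[0, 1, 1, 2]] (by simp) (by decide)
        (hM.grp h1 _ _ (by decide)) [p, [z], e'] (by simp [hp]) (by simpa using h2)
      simpa using this

theorem grp_ins (h1 : ¬ FT0 M) (w : List ℕ) : ∀ p : List ℕ, (∀ x ∈ w, x ∈ p) → p ∈ T →
    p ++ (w ++ w) ∈ T := by
  induction w with
  | nil => intro p _ h; simpa using h
  | cons z w ih =>
    intro p h2 h
    obtain ⟨p1, p2, rfl⟩ := List.append_of_mem (h2 z (by simp))
    have a1 := hT.law h0 [0, 1, 2, 1, 1] [[0, 1, 2]] (by simp) (by decide)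
      (hM.grp h1 _ _ (by decide)) [p1, [z], p2] (by simp) (by simpa using h)
    have a2 := ih ((p1 ++ z :: p2) ++ [z, z])
      (fun x hx => List.mem_append_left _ (h2 x (by simp [hx]))) (by simpa using a1)
    refine grp_perm hM hT h0 h1 (m := z :: z :: (w ++ w)) ?_ _ (by simpa using a2)
    exact (List.perm_middle.symm).cons z

theorem prod_sq (x : List ℕ) (hx : x ∈ T) (L : List (List ℕ)) (hL : ∀ u ∈ L, u ∈ T) :
    x ++ L.flatMap (fun u => u ++ u) ∈ T := by
  induction L generalizing x with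
  | nil => simpa using hx
  | cons u L ih =>
    have := ih (x ++ u ++ u) (law_tri hM hT h0 hx (hL u (by simp)) (hL u (by simp)))
      fun v hv => hL v (by simp [hv])
    simpa using this

end Laws

theorem ev_flatMap_sq (L : List (List ℕ)) : Ev (L.flatMap fun u => u ++ u) := by
  intro z
  induction L with
  | nil => simp
  | cons u L ih =>
    simp only [List.flatMap_cons, List.count_append]
    omega

theorem factor_flatMap_sq (L : List (List ℕ)) (u : List ℕ) (hu : u ∈ L) :
    ∃ r s, L.flatMap (fun u => u ++ u) = r ++ u ++ s := by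
  obtain ⟨L1, L2, rfl⟩ := List.append_of_mem hu
  exact ⟨L1.flatMap fun u => u ++ u, u ++ L2.flatMap fun u => u ++ u, by simp⟩

section Main

variable (hM : Good M) (hT : Closed M 16 T) (h0 : [] ∉ T)
include hM hT h0

theorem left_build (w τ : List ℕ) (hτ : τ ∈ T) (hw : ∀ x ∈ w, x ∈ τ)
    (hL0 : FL0 M → CL False w T)
    (hL1 : FL1 M → ∀ w1 x w2, w = w1 ++ x :: w2 → ∃ a b r s, a ++ x :: b ∈ T ∧
      (∀ y ∈ a, y ∈ w1) ∧ τ = r ++ (a ++ x :: b) ++ s) :
    ∃ m, (∀ x ∈ m, x ∈ w) ∧ Ev (w ++ m) ∧ w ++ m ++ τ ∈ T := by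
  have hm := law_mid hM hT h0
  suffices H : ∀ P Q, w = P ++ Q → ∃ m, (∀ x ∈ m, x ∈ w) ∧ Ev (P ++ m) ∧ P ++ m ++ τ ∈ T from
    H w [] (by simp)
  intro P
  induction P using List.reverseRecOn with
  | nil => intro Q _; exact ⟨[], by simp, fun z => by simp, by simpa using hτ⟩
  | append_singleton P y ih =>
    intro Q e
    have e' : w = P ++ y :: Q := by simpa using e
    obtain ⟨m, h1, h2, h3⟩ := ih (y :: Q) e'
    have hy : y ∈ w := by simp [e']
    have fin : ∀ a : List ℕ, (∀ x ∈ a, x ∈ P) → P ++ a ++ y :: y :: (a ++ (m ++ τ)) ∈ T →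
        ∃ m, (∀ x ∈ m, x ∈ w) ∧ Ev (P ++ [y] ++ m) ∧ P ++ [y] ++ m ++ τ ∈ T := by
      intro a ha h4
      have h5 := (hm.moveW a P [y] (y :: (a ++ (m ++ τ))) ha (by simp +contextual)).mp
        (by simpa using h4)
      refine ⟨a ++ y :: (a ++ m), ?_, fun z => ?_, by simpa using h5⟩
      · intro x hx
        simp only [List.mem_append, List.mem_cons] at hx
        rcases hx with hx | rfl | hx | hx
        · simp [e', ha x hx]
        · exact hy
        · simp [e', ha x hx]
        · exact h1 x hx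
      · have := h2 z
        simp only [List.count_append, List.count_cons, List.count_nil] at this ⊢
        omega
    have ins : ∀ a : List ℕ, (∀ x ∈ a, x ∈ P) → P ++ a ++ (a ++ (m ++ τ)) ∈ T := by
      intro a ha
      have := (hm.even (a ++ a) (Ev.double a) P (m ++ τ) (by simpa +contextual using ha)
        (fun x hx => by
          have : x ∈ w := by
            rcases List.mem_append.mp hx with hx | hx <;> simp [e', ha x hx]
          simp [hw x this])).mpr (by simpa using h3)
      simpa using this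
    by_cases c1 : FL1 M
    · obtain ⟨a, b, r, s, d1, d2, d3⟩ := hL1 c1 P y Q e'
      refine fin a d2 ?_
      have := law_C hM hT h0 P a y b (a ++ m ++ r) s (by simpa [d3] using ins a d2) d1
      simpa [d3] using this
    · by_cases c0 : FL0 M
      · obtain ⟨a, b, d1, -, d2⟩ := hL0 c0 P y Q e'
        exact fin a d2 (law_B hM hT h0 c1 P a y b _ (by simp [hw y hy]) (ins a d2) d1)
      · refine fin [] (by simp) ?_
        simpa using law_A hM hT h0 c0 P y (m ++ τ) (by simp [hw y hy]) (by simpa using h3)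

theorem right_build (w τ : List ℕ) (hτ : τ ∈ T) (hw : ∀ x ∈ w, x ∈ τ)
    (hR0 : FR0 M → CR False w T)
    (hR1 : FR1 M → ∀ w1 x w2, w = w1 ++ x :: w2 → ∃ a b r s, a ++ x :: b ∈ T ∧
      (∀ y ∈ b, y ∈ w2) ∧ τ = r ++ (a ++ x :: b) ++ s) :
    ∃ m, (∀ x ∈ m, x ∈ w) ∧ Ev (m ++ w) ∧ τ ++ m ++ w ∈ T := by
  have hm := law_mid hM hT h0
  suffices H : ∀ Q P, w = P ++ Q → ∃ m, (∀ x ∈ m, x ∈ w) ∧ Ev (m ++ Q) ∧ τ ++ m ++ Q ∈ T from
    H w [] (by simp)
  intro Q
  induction Q with
  | nil => intro P _; exact ⟨[], by simp, fun z => by simp, by simpa using hτ⟩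
  | cons y Q ih =>
    intro P e'
    obtain ⟨m, h1, h2, h3⟩ := ih (P ++ [y]) (by simpa using e')
    have hy : y ∈ w := by simp [e']
    have fin : ∀ b : List ℕ, (∀ x ∈ b, x ∈ Q) → τ ++ m ++ b ++ y :: y :: (b ++ Q) ∈ T →
        ∃ m, (∀ x ∈ m, x ∈ w) ∧ Ev (m ++ y :: Q) ∧ τ ++ m ++ y :: Q ∈ T := by
      intro b hb h4
      have h5 := (hm.moveW b (τ ++ m ++ b ++ [y]) [y] Q (by simp +contextual) hb).mpr
        (by simpa using h4)
      refine ⟨m ++ b ++ y :: b, ?_, fun z => ?_, by simpa using h5⟩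
      · intro x hx
        simp only [List.mem_append, List.mem_cons] at hx
        rcases hx with (hx | hx) | rfl | hx
        · exact h1 x hx
        · simp [e', hb x hx]
        · exact hy
        · simp [e', hb x hx]
      · have := h2 z
        simp only [List.count_append, List.count_cons] at this ⊢
        omega
    have ins : ∀ b : List ℕ, (∀ x ∈ b, x ∈ Q) → τ ++ m ++ b ++ b ++ Q ∈ T := by
      intro b hb
      have := (hm.even (b ++ b) (Ev.double b) (τ ++ m) Q
        (fun x hx => by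
          have : x ∈ w := by
            rcases List.mem_append.mp hx with hx | hx <;> simp [e', hb x hx]
          simp [hw x this]) (by simpa +contextual using hb)).mpr h3
      simpa using this
    by_cases c1 : FR1 M
    · obtain ⟨a, b, r, s, d1, d2, d3⟩ := hR1 c1 P y Q e'
      refine fin b d2 ?_
      have := law_C' hM hT h0 Q a y b (s ++ m ++ b) r (by simpa [d3] using ins b d2) d1
      simpa [d3] using this
    · by_cases c0 : FR0 M
      · obtain ⟨a, b, d1, -, d2⟩ := hR0 c0 P y Q e'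
        exact fin b d2 (law_B' hM hT h0 c1 Q a y b _ (by simp [hw y hy]) (ins b d2) d1)
      · refine fin [] (by simp) ?_
        simpa using law_A' hM hT h0 c0 Q y (τ ++ m) (by simp [hw y hy]) h3

theorem finish (w τ : List ℕ) (hτ : τ ∈ T) (hw : ∀ x ∈ w, x ∈ τ) (hw' : ∀ x ∈ τ, x ∈ w)
    (hp : FG M → ∀ x, τ.count x % 2 = w.count x % 2)
    (hL0 : FL0 M → CL False w T)
    (hL1 : FL1 M → ∀ w1 x w2, w = w1 ++ x :: w2 → ∃ a b r s, a ++ x :: b ∈ T ∧
      (∀ y ∈ a, y ∈ w1) ∧ τ = r ++ (a ++ x :: b) ++ s)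
    (hR0 : FR0 M → CR False w T)
    (hR1 : FR1 M → ∀ w1 x w2, w = w1 ++ x :: w2 → ∃ a b r s, a ++ x :: b ∈ T ∧
      (∀ y ∈ b, y ∈ w2) ∧ τ = r ++ (a ++ x :: b) ++ s) : w ∈ T := by
  obtain ⟨m, a1, a2, a3⟩ := left_build hM hT h0 w τ hτ hw hL0 hL1
  obtain ⟨m', b1, b2, b3⟩ := right_build hM hT h0 w (w ++ m ++ τ) a3 (by simp +contextual) hR0
    (fun h w1 x w2 e => by
      obtain ⟨a, b, r, s, d1, d2, d3⟩ := hR1 h w1 x w2 e
      exact ⟨a, b, w ++ m ++ r, s, d1, d2, by simp [d3]⟩)
  have hs : ∀ x ∈ m ++ τ ++ m', x ∈ w := by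
    intro x hx
    simp only [List.mem_append] at hx
    rcases hx with (hx | hx) | hx
    exacts [a1 x hx, hw' x hx, b1 x hx]
  apply law_cube hM hT h0
  by_cases hG : FG M
  · refine (law_mid hM hT h0).par (m ++ τ ++ m') w w w (fun z => ?_) hs hs (fun _ h => h)
      (fun _ h => h) (by simpa using b3)
    have c1 := a2 z
    have c2 := b2 z
    have c3 := hp hG z
    simp only [List.count_append] at c1 c2 ⊢
    omega
  · exact (any_del (law_single hM hT h0 hG) w w w (fun _ h => h) fun _ h => h).mpr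
      ((any_del (law_single hM hT h0 hG) _ w w hs hs).mp (by simpa using b3))

theorem base_word (w : List ℕ) (t : Set (List ℕ)) (hv : MValid M w t) (ht : t ⊆ T) :
    ∃ u ∈ T, Lev (FT0 M) w u ∧ (FG M → ∀ x, u.count x % 2 = w.count x % 2) := by
  by_cases hG : FG M
  · obtain ⟨u, hu, h⟩ := exists_parity {u | u ∈ T ∧ Lev (FT0 M) w u} w
      (fun x hx y hy z hz => ⟨x ++ y ++ z, ⟨law_tri hM hT h0 hx.1 hy.1 hz.1, fun h v hv => by
        simp only [List.mem_append] at hv
        rcases hv with (hv | hv) | hv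
        exacts [hx.2 h v hv, hy.2 h v hv, hz.2 h v hv]⟩, by simp [vec_append, add_assoc]⟩)
      (fun ψ => by
        obtain ⟨u, hu, h1, h2⟩ := hM.cp hv hG ψ
        exact ⟨u, ⟨ht hu, h1⟩, h2⟩)
    exact ⟨u, hu.1, hu.2, fun _ => h⟩
  · obtain ⟨u, hu, h⟩ := hM.cu hv
    exact ⟨u, ht hu, h, fun h => absurd h hG⟩

theorem main_mon (w : List ℕ) (t : Set (List ℕ)) (hw : w ≠ []) (hf : t.Finite)
    (hv : MValid M w t) (ht : t ⊆ T) : w ∈ T := by
  classical
  obtain ⟨u0, hu0, l0, p0⟩ := base_word hM hT h0 w t hv ht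
  have hL0 : FL0 M → CL False w T := by
    rintro ⟨s, a, hs, ha⟩ w1 x w2 e
    obtain ⟨u1, u2, c1, c2, c3⟩ := hM.cl_aux hv False hs ha (Or.inr rfl) False.elim w1 x w2 e
    exact ⟨u1, u2, ht c1, c2, c3⟩
  have hR0 : FR0 M → CR False w T := by
    rintro ⟨s, a, hs, ha⟩ w1 x w2 e
    obtain ⟨u1, u2, c1, c2, c3⟩ := hM.cr_aux hv False hs ha (Or.inr rfl) False.elim w1 x w2 e
    exact ⟨u1, u2, ht c1, c2, c3⟩
  set L : List (List ℕ) := (hf.toFinset.filter fun u => Lev (FT0 M) w u).toList with hLdef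
  have hL : ∀ u, u ∈ L ↔ u ∈ t ∧ Lev (FT0 M) w u := by simp [hLdef]
  set τ := u0 ++ L.flatMap (fun u => u ++ u) with hτdef
  have hτ : τ ∈ T := prod_sq hM hT h0 u0 hu0 L fun u hu => ht ((hL u).mp hu).1
  have hp : FG M → ∀ x, τ.count x % 2 = w.count x % 2 := by
    intro h x
    have c1 := p0 h x
    have c2 := ev_flatMap_sq L x
    rw [hτdef, List.count_append]
    omega
  have hcov : CT (FT0 M) w t → ∀ x ∈ w, x ∈ τ := by
    intro h x hx
    obtain ⟨u, c1, c2, c3⟩ := h x hx
    exact List.mem_append_right _ (List.mem_flatMap.mpr ⟨u, (hL u).mpr ⟨c1, c2⟩, by simp [c3]⟩)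
  by_cases c0 : FT0 M
  · have hsub : ∀ x ∈ τ, x ∈ w := by
      intro x hx
      rcases List.mem_append.mp hx with hx | hx
      · exact l0 c0 x hx
      · obtain ⟨u, c1, c2⟩ := List.mem_flatMap.mp hx
        exact ((hL u).mp c1).2 c0 x (by simpa using c2)
    by_cases c1 : FT1 M ∨ FG M
    · refine finish hM hT h0 w τ hτ (hcov ?_) hsub hp hL0 ?_ hR0 ?_
      · rcases c1 with c1 | c1
        · intro x hx
          obtain ⟨u, d1, d2, d3⟩ := hM.ct1 hv c1 x hx
          exact ⟨u, d1, fun _ => d2 trivial, d3⟩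
        · exact hM.ctg hv c1
      · rintro ⟨s, a, z, hs, ha, hz⟩ w1 x w2 e
        obtain ⟨u1, u2, d1, d2, d3⟩ := hM.cl_aux hv True hs ha (Or.inl hz) (fun _ => hz) w1 x w2 e
        obtain ⟨r, s, d4⟩ := factor_flatMap_sq L _ ((hL _).mpr ⟨d1, fun _ => d2 trivial⟩)
        exact ⟨u1, u2, u0 ++ r, s, ht d1, d3, by simp [hτdef, d4]⟩
      · rintro ⟨s, a, z, hs, ha, hz⟩ w1 x w2 e
        obtain ⟨u1, u2, d1, d2, d3⟩ := hM.cr_aux hv True hs ha (Or.inl hz) (fun _ => hz) w1 x w2 e
        obtain ⟨r, s, d4⟩ := factor_flatMap_sq L _ ((hL _).mpr ⟨d1, fun _ => d2 trivial⟩)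
        exact ⟨u1, u2, u0 ++ r, s, ht d1, d3, by simp [hτdef, d4]⟩
    · rw [not_or] at c1
      obtain ⟨c1, c2⟩ := c1
      have hex : ∀ l : List ℕ, (∀ x ∈ l, x ∈ w) →
          ∃ τ' ∈ T, (∀ x ∈ l, x ∈ τ') ∧ ∀ x ∈ τ', x ∈ w := by
        intro l
        induction l with
        | nil => intro _; exact ⟨τ, hτ, by simp, hsub⟩
        | cons y l ih =>
          intro hl
          obtain ⟨τ', d1, d2, d3⟩ := ih fun x hx => hl x (by simp [hx])
          have hy := hl y (by simp)
          obtain ⟨w1, w2, e⟩ := List.append_of_mem hy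
          by_cases e1 : FL0 M
          · obtain ⟨a, b, f1, -, f2⟩ := hL0 e1 w1 y w2 e
            refine ⟨_, law_D hM hT h0 c1 c2 (fun h => hM.not_l0_r0 c1 e1 h) τ' a y b d1 f1,
              ?_, ?_⟩
            · simp +contextual [d2]
            · intro x hx
              simp only [List.mem_append, List.mem_singleton] at hx
              rcases hx with (hx | hx) | rfl
              · exact d3 x hx
              · simp [e, f2 x hx]
              · exact hy
          · by_cases e2 : FR0 M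
            · obtain ⟨a, b, f1, -, f2⟩ := hR0 e2 w1 y w2 e
              refine ⟨_, law_D' hM hT h0 c1 c2 e1 τ' a y b d1 f1, ?_, ?_⟩
              · simp +contextual [d2]
              · intro x hx
                simp only [List.mem_append, List.mem_cons] at hx
                rcases hx with (rfl | hx) | hx
                · exact hy
                · simp [e, f2 x hx]
                · exact d3 x hx
            · obtain ⟨u, f1, -, f2⟩ := Good.ct0 hv c0 y hy
              obtain ⟨a, b, rfl⟩ := List.append_of_mem f2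
              refine ⟨_, law_E hM hT h0 c1 c2 e1 e2 τ' a y b d1 (ht f1), ?_, ?_⟩
              · simp +contextual [d2]
              · intro x hx
                simp only [List.mem_append, List.mem_singleton] at hx
                rcases hx with hx | rfl
                · exact d3 x hx
                · exact hy
      obtain ⟨τ', d1, d2, d3⟩ := hex w fun _ h => h
      exact finish hM hT h0 w τ' d1 d2 d3 (fun h => absurd h c2) hL0
        (fun h => absurd h.t1 c1) hR0 fun h => absurd h.t1 c1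
  · by_cases hG : FG M
    · have a1 := grp_ins hM hT h0 c0 w τ (hcov (hM.ctg hv hG)) hτ
      have a2 : [] ++ (w ++ (τ ++ w)) ∈ T := by
        refine grp_perm hM hT h0 c0 (m := τ ++ (w ++ w)) ?_ [] a1
        rw [← List.append_assoc, ← List.append_assoc]
        exact List.Perm.append_right _ List.perm_append_comm
      refine grp_del hM hT h0 c0 w hw (τ ++ w) (fun z => ?_) a2
      have := hp hG z
      rw [List.count_append]
      omega
    · have := hT.law h0 [0] [[1]] (by simp) (by decide)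
        (hM.check _ _ false true true true (fun h => absurd h c0) (fun _ => rfl) (fun _ => rfl)
          (fun _ => rfl) (by decide) (fun h => absurd h hG) (fun h => absurd h c0)
          (fun h => absurd h.t0 c0) fun h => absurd h.t0 c0) [w, u0] (by simp [hw])
        (by simpa using hu0)
      simpa using this

end Main

theorem fb_of_good (hM : Good M) : FinitelyBased (Pow.add (S := M)) Pow.mul :=
  fb_of M 16 fun w t hw ht hf _ hv _ hT h0 hs =>
    main_mon hM hT h0 w t hw hf ((valid_iff_mvalid w t hw ht).mp hv) hs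

end Pool.Agent.P.MP_485d6e_al
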