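import Pool.Agent.P.MP_485d6e_al.InvFB
import Pool.Agent.P.MP_485d6e_al.MonFB
import Pool.Agent.P.MP_485d6e_al.ExactSets

set_option autoImplicit false

namespace Pool.Agent.P.MP_485d6e_al

open Pointwise

theorem CGood.fb' {S : Type} [CommSemigroup S] [Finite S] [Nonempty S] (h : CGood S) :
    FinitelyBased (Pow.add (S := S)) Pow.mul := by
  classical
  by_cases hI : IC S False
  · exact h.fb hI
  have hc : ∀ e f : S, e * e = e → f * f = f → e * f = e ∨ e * f = f := by
    intro e f he hf
    by_contra hn
    rw [not_or] at hn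
    exact hI ⟨e, f, e, he, hf, hn.1, hn.2, False.elim⟩
  have key : ∀ l : List S, ∃ e : S, e * e = e ∧ ∀ a ∈ l, e * a = a := by
    intro l
    induction l with
    | nil =>
      obtain ⟨a⟩ := ‹Nonempty S›
      exact ⟨a * a, h.sq_idem a, by simp⟩
    | cons a l ih =>
      obtain ⟨e, he, h1⟩ := ih
      rcases hc e _ he (h.sq_idem a) with k | k
      · refine ⟨a * a, h.sq_idem a, ?_⟩
        simp only [List.mem_cons, forall_eq_or_imp]
        refine ⟨h.cube a, fun b hb => ?_⟩
        rw [← h1 b hb, ← mul_assoc, mul_comm _ e, k]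
      · refine ⟨e, he, ?_⟩
        simp only [List.mem_cons, forall_eq_or_imp]
        exact ⟨by rw [← h.cube a, ← mul_assoc, k], h1⟩
  have := Fintype.ofFinite S
  obtain ⟨e, he, h1⟩ := key Finset.univ.toList
  have h2 : ∀ a, e * a = a := fun a => h1 a (by simp)
  let inst : Monoid S :=
    { (inferInstance : Semigroup S) with
      one := e
      one_mul := h2
      mul_one := fun a => (mul_comm a e).trans (h2 a) }
  exact @fb_of_good S inst fun a b => h.good e a b he (h2 a) (h2 b)

variable {S : Type} [Semigroup S]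

theorem inv_comm (hc : ∀ e f : S, e * e = e → f * f = f → e * f = f * e)
    (h3 : ∀ a : S, a * a * a = a) (a b : S) : a * b = b * a := by
  have sq : ∀ a : S, a * a * (a * a) = a * a := fun a => by rw [← mul_assoc, h3]
  have k : ∀ a b : S, a * b * (b * a) * (a * b) = a * b := by
    intro a b
    calc a * b * (b * a) * (a * b) = a * (b * b * (a * a)) * b := by simp only [mul_assoc]
      _ = a * (a * a * (b * b)) * b := by rw [hc _ _ (sq b) (sq a)]
      _ = a * a * a * (b * b * b) := by simp only [mul_assoc]
      _ = a * b := by rw [h3, h3]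
  have uniq : ∀ s x y : S, s * x * s = s → x * s * x = x → s * y * s = s → y * s * y = y →
      x = y := by
    intro s x y h1 h2 h4 h5
    have i1 : ∀ x : S, s * x * s = s → x * s * (x * s) = x * s := fun x h => by
      rw [mul_assoc, ← mul_assoc s, h]
    have i2 : ∀ x : S, s * x * s = s → s * x * (s * x) = s * x := fun x h => by
      rw [← mul_assoc, h]
    calc x = x * (s * y * s) * x := by rw [h4, h2]
      _ = x * s * (y * s) * x := by simp only [mul_assoc]
      _ = y * s * (x * s) * x := by rw [hc _ _ (i1 x h1) (i1 y h4)]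
      _ = y * s * (x * s * x) := by simp only [mul_assoc]
      _ = y * s * y * s * x := by rw [h2, h5]
      _ = y * (s * y * (s * x)) := by simp only [mul_assoc]
      _ = y * (s * x * (s * y)) := by rw [hc _ _ (i2 y h4) (i2 x h1)]
      _ = y * (s * x * s) * y := by simp only [mul_assoc]
      _ = y := by rw [h1, h5]
  exact uniq (a * b) _ _ (h3 _) (h3 _) (k a b) (k b a)

theorem exact_of_brandt {a b : S} (h1 : a * b * a = a) (h2 : b * a * b = b)
    (hc : a * b * (b * a) = b * a * (a * b)) (n1 : a * b * (b * a) ≠ a * b) : Exact S := by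
  obtain ⟨e, he⟩ : ∃ e, e = a * b := ⟨_, rfl⟩
  obtain ⟨f, hf⟩ : ∃ f, f = b * a := ⟨_, rfl⟩
  rw [← he, ← hf] at hc n1
  have ee : e * e = e := by rw [he, ← mul_assoc, h1]
  have ff : f * f = f := by rw [hf, ← mul_assoc, h2]
  have ea : e * a = a := by rw [he, h1]
  have af : a * f = a := by rw [hf, ← mul_assoc, h1]
  have fb : f * b = b := by rw [hf, h2]
  have be : b * e = b := by rw [he, ← mul_assoc, h2]
  have k1 : e * (e * f) = e * f := by rw [← mul_assoc, ee]
  have k2 : f * (e * f) = e * f := by rw [← mul_assoc, ← hc, mul_assoc, ff]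
  have k5 : e * f * e = e * f := by rw [mul_assoc, ← hc, k1]
  have k6 : e * f * f = e * f := by rw [mul_assoc, ff]
  have k3 : e * f * (e * f) = e * f := by rw [← mul_assoc, k5, k6]
  apply exact_of_sets
  intro k hk
  rcases k with _ | _ | k
  · refine ⟨{e}, {e * f}, by simp, by simp, by simp [ee], by simp [k1], by simp [k5], ?_⟩
    simpa [pw] using n1.symm
  · exact absurd rfl hk
  have hE : ({e, f, e * f} : Set S) * {e, f, e * f} = {e, f, e * f} := by
    apply Set.Subset.antisymm
    · rintro _ ⟨x, hx, y, hy, rfl⟩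
      rcases hx with hx | hx | hx <;> rcases hy with hy | hy | hy <;> rw [hx, hy] <;>
        simp only [ee, ff, k1, k2, k3, ← hc, k5, k6, Set.mem_insert_iff, Set.mem_singleton_iff,
          true_or, or_true]
    · intro x hx
      refine ⟨x, hx, x, hx, ?_⟩
      rcases hx with hx | hx | hx <;> rw [hx]
      exacts [ee, ff, k3]
  set E : Set S := {e, f, e * f} with hEd
  have me : e ∈ E := by simp [hEd]
  have mf : f ∈ E := by simp [hEd]
  have m : ∀ x ∈ E, ∀ y ∈ ({a, f, b} : Set S), ∀ z ∈ E, x * y * z ∈ E * {a, f, b} * E :=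
    fun x hx y hy z hz => Set.mul_mem_mul (Set.mul_mem_mul hx hy) hz
  have ma : a ∈ E * {a, f, b} * E := by
    have := m e me a (by simp) f mf
    rwa [ea, af] at this
  have mb : b ∈ E * {a, f, b} * E := by
    have := m f mf b (by simp) e me
    rwa [fb, be] at this
  have mf' : f ∈ E * {a, f, b} * E := by
    have := m f mf f (by simp) f mf
    rwa [ff, ff] at this
  refine ⟨E, E * {a, f, b} * E, ⟨e, me⟩, ⟨a, ma⟩, hE, by rw [← mul_assoc, ← mul_assoc, hE],
    by rw [mul_assoc, hE], fun hsub => ?_⟩
  have p1 : ∀ j, a ∈ pw E (E * {a, f, b} * E) (j + 1) := by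
    intro j
    induction j with
    | zero =>
      have : e * a ∈ pw E (E * {a, f, b} * E) (0 + 1) := Set.mul_mem_mul me ma
      rwa [ea] at this
    | succ j ih =>
      have : a * f ∈ pw E (E * {a, f, b} * E) (j + 1 + 1) := Set.mul_mem_mul ih mf'
      rwa [af] at this
  have p2 : a * b ∈ pw E (E * {a, f, b} * E) (k + 1 + 1) := Set.mul_mem_mul (p1 k) mb
  rw [← he] at p2
  obtain ⟨_, ⟨x, hx, y, hy, rfl⟩, z, hz, e1⟩ := hsub p2
  have e1 : x * y * z = e := e1
  have hx' : x = e := by
    rcases hx with hx | hx | hx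
    · exact hx
    · exfalso; apply n1
      rw [hc, ← e1, hx, ← mul_assoc, ← mul_assoc, ff]
    · exfalso; apply n1
      rw [hc, ← e1, ← mul_assoc, ← mul_assoc, hx, k2]
  have hz' : z = e := by
    rcases hz with hz | hz | hz
    · exact hz
    · exfalso; apply n1
      rw [← e1, hz, mul_assoc, ff]
    · exfalso; apply n1
      have : e * f = x * y * z * f := by rw [e1]
      rw [this, mul_assoc, hz, k6, ← hz, e1]
  rw [hx', hz'] at e1
  apply n1
  rcases hy with hy | hy | hy <;> rw [hy] at e1
  · rw [ea] at e1
    have b1 : b = e * f := by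
      rw [hc, hf, mul_assoc, e1, be]
    calc e * f = a * e * f := by rw [e1]
      _ = e := by rw [mul_assoc, ← b1, he]
  · rwa [k5] at e1
  · rw [mul_assoc, be] at e1
    have a1 : a = e * f := by rw [hf, ← mul_assoc, e1, ea]
    calc e * f = f * (e * b) := by rw [e1, hc]
      _ = a * b := by rw [← mul_assoc, ← hc, ← a1]
      _ = e := he.symm

theorem inv_iff [Finite S] [Nonempty S] (hr : ∀ a : S, ∃ b, a * b * a = a)
    (hc : ∀ e f : S, e * e = e → f * f = f → e * f = f * e) :
    FinitelyBased (Pow.add (S := S)) Pow.mul ↔ (∀ a : S, a * a * a = a) ∧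
      ∀ e a b : S, e * e = e → e * a = a → a * e = a → e * b = b → b * e = b →
        a * b = a ∨ a * b = b ∨ a * b = e := by
  constructor
  · intro h
    have hg : ∀ e a b : S, e * e = e → e * a = a → a * e = a → e * b = b → b * e = b →
        a * b = a ∨ a * b = b ∨ a * b = e := by
      intro e a b he a1 a2 a3 a4
      by_contra hn
      push Not at hn
      exact not_fb_of_exact (exact_of_local e a b he a1 a2 a3 a4 hn.1 hn.2.1 hn.2.2) h
    refine ⟨fun a => ?_, hg⟩
    by_contra hn
    obtain ⟨c, h1⟩ := hr a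
    have h1' : a * (c * a * c) * a = a := by
      rw [← mul_assoc, ← mul_assoc, h1, h1]
    have h2 : c * a * c * a * (c * a * c) = c * a * c := by
      calc c * a * c * a * (c * a * c) = c * (a * c * a) * c * a * c := by simp only [mul_assoc]
        _ = c * a * c * a * c := by rw [h1]
        _ = c * (a * c * a) * c := by simp only [mul_assoc]
        _ = c * a * c := by rw [h1]
    generalize c * a * c = b at h1' h2
    have ee : a * b * (a * b) = a * b := by rw [← mul_assoc, h1']
    have ff : b * a * (b * a) = b * a := by rw [← mul_assoc, h2]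
    refine not_fb_of_exact (exact_of_brandt h1' h2 (hc _ _ ee ff) fun k => hn ?_) h
    have fa : b * a * a = a := by
      calc b * a * a = b * a * (a * b * a) := by rw [h1']
        _ = b * a * (a * b) * a := by simp only [mul_assoc]
        _ = a := by rw [← hc _ _ ee ff, k, h1']
    have af : a * (b * a) = a := by rw [← mul_assoc, h1']
    rcases hg _ a a ff fa af fa af with k | k | k
    · rw [k, k]
    · rw [k, k]
    · rw [k, fa]
  · rintro ⟨h3, hg⟩
    let inst : CommSemigroup S :=
      { (inferInstance : Semigroup S) with mul_comm := inv_comm hc h3 }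
    exact @CGood.fb' S inst _ _ (@CGood.mk S inst h3 fun e a b he ha hb =>
      hg e a b he ha ((inv_comm hc h3 a e).trans ha) hb ((inv_comm hc h3 b e).trans hb))

end Pool.Agent.P.MP_485d6e_al
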