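import Pool.Agent.P.MP_485d6e_al.InvSem

set_option autoImplicit false

namespace Pool.Agent.P.MP_485d6e_al

section Flags

variable (S : Type) [CommSemigroup S]

/-- There is a non-idempotent. -/
def IG : Prop := ∃ g : S, g * g ≠ g
/-- There is an idempotent that is neither maximal nor minimal. -/
def IT : Prop := ∃ s s' d : S, s * s = s ∧ s' * s' = s' ∧ s' * s = s ∧ s ≠ s' ∧ d * d * s ≠ s
/-- There are incomparable idempotents, whose product is not minimal if `b` holds. -/
def IC (b : Prop) : Prop :=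
  ∃ e f d : S, e * e = e ∧ f * f = f ∧ e * f ≠ e ∧ e * f ≠ f ∧ (b → d * d * (e * f) ≠ e * f)

end Flags

/-- Connectedness of the letters of `w`. -/
def CC (b : Prop) (w : List ℕ) (t : Set (List ℕ)) : Prop :=
  (∀ R : Set ℕ, (∀ u ∈ t, Lev b w u → 2 ≤ u.length → (∃ x ∈ u, x ∈ R) → ∀ y ∈ u, y ∈ R) →
    (∃ x ∈ w, x ∈ R) → ∀ y ∈ w, y ∈ R) ∧
  (2 ≤ w.length → ∃ u ∈ t, Lev b w u ∧ 2 ≤ u.length ∧ ∃ x ∈ w, x ∈ u)

variable {S : Type} [CommSemigroup S]

theorem idem_mem_Val (φ : ℕ → Set S) {e : S} (he : e * e = e) (u : List ℕ) (hu : u ≠ [])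
    (h : ∀ x ∈ u, e ∈ φ x) : (e : WithOne S) ∈ Val φ u := by
  induction u with
  | nil => exact absurd rfl hu
  | cons x u ih =>
    by_cases e1 : u = []
    · subst e1
      exact (mem_Val_one _ _ _).mpr (h x (by simp))
    · exact (mem_Val_cons _ _ _ e1 _).mpr
        ⟨e, h x (by simp), e, ih e1 fun y hy => h y (by simp [hy]), he.symm⟩

namespace CGood

variable (h : CGood S) {w : List ℕ} {t : Set (List ℕ)} (hw : w ≠ []) (ht : ∀ u ∈ t, u ≠ [])
  (hv : Valid S w t)
include h

theorem lev_of_dead {b : Prop} [Decidable b] {d s : S} (hd : b → d * d * s ≠ s) (ψ : ℕ → Set S)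
    {w u : List ℕ}
    (hs : (s : WithOne S) ∈ Val (fun x => if b ∧ x ∉ w then {d} else ψ x) u) :
    Lev b w u ∧ (s : WithOne S) ∈ Val ψ u := by
  have h1 : Lev b w u := by
    intro hb x hx
    by_contra hx'
    obtain ⟨a, ha, e⟩ := h.fix_of_dvd _ u x hx s hs
    simp only [hb, hx', not_false_eq_true, and_self, if_true, Set.mem_singleton_iff] at ha
    exact hd hb (ha ▸ e)
  refine ⟨h1, Val_mono u (fun x hx => ?_) hs⟩
  rw [if_neg fun h2 => h2.2 (h1 h2.1 x hx)]

include hv

theorem use {b : Prop} {d s : S} (hd : b → d * d * s ≠ s) (ψ : ℕ → Set S)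
    (hψ : ∀ x, (ψ x).Nonempty) (hs : (s : WithOne S) ∈ Val ψ w) :
    ∃ u ∈ t, Lev b w u ∧ (s : WithOne S) ∈ Val ψ u := by
  classical
  obtain ⟨u, hu, h1⟩ := hv (fun x => if b ∧ x ∉ w then {d} else ψ x) (fun x => by
    split_ifs
    · simp
    · exact hψ x) s (Val_mono w (fun x hx => by simp [hx]) hs)
  exact ⟨u, hu, h.lev_of_dead hd ψ h1⟩

include hw

theorem cu (hI : IC S False) : CU True w t := by
  obtain ⟨e, f, -, he, hf, h1, -, -⟩ := hI
  obtain ⟨u, hu, h2, -⟩ := h.use hv (b := True) (d := f) (s := e)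
    (fun _ => by rw [hf, mul_comm]; exact h1) (fun _ => {e}) (fun _ => by simp)
    (idem_mem_Val _ he w hw fun _ _ => rfl)
  exact ⟨u, hu, h2⟩

include ht

theorem ct_aux {s s' d : S} (hs' : s' * s' = s') (h1 : s' * s = s) (h2 : s ≠ s')
    (hd : d * d * s ≠ s) : CT True w t := by
  classical
  intro x hx
  obtain ⟨u, hu, h3, h4⟩ := h.use hv (b := True) (d := d) (s := s) (fun _ => hd)
    (fun y => if y = x then {s, s'} else {s'}) (fun y => by split_ifs <;> simp) (by
      rw [Val_perm _ (List.perm_cons_erase hx)]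
      by_cases e : w.erase x = []
      · rw [e, mem_Val_one]; simp
      · refine (mem_Val_cons _ _ _ e _).mpr ⟨s, by simp, s', idem_mem_Val _ hs' _ e
          fun y _ => by split_ifs <;> simp, by rw [mul_comm, h1]⟩)
  refine ⟨u, hu, h3, ?_⟩
  by_contra hxu
  refine h2 (Val_forall _ (fun a => a = s') (by rintro _ _ rfl rfl; exact hs') u (ht u hu)
    (fun y hy a ha => ?_) s h4)
  have : y ≠ x := fun e => hxu (e ▸ hy)
  simpa [this] using ha

theorem ctT (hT : IT S) : CT True w t := by
  obtain ⟨s, s', d, -, a2, a3, a4, a5⟩ := hT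
  exact h.ct_aux hw ht hv a2 a3 a4 a5

omit hw ht hv in
theorem dead_of_G (hI : IC S False) {g : S} (hg : g * g ≠ g) : ∃ d : S, d * d * g ≠ g ∧
    d * d * (g * g) ≠ g * g := by
  obtain ⟨e, f, -, he, hf, h1, h2, -⟩ := hI
  have key : ∀ e : S, e * e = e → e * (g * g) = g * g → e = g * g := by
    intro e he h3
    by_contra hn
    exact hg (h.idem_of_lt he (by rw [← h.cube g, ← mul_assoc, h3]) (Ne.symm hn))
  have k2 : ∀ d : S, d * d * g = g → d * d * (g * g) = g * g := fun d e => by
    rw [← mul_assoc, e]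
  by_cases c : e * (g * g) = g * g
  · have : f * f * (g * g) ≠ g * g := by
      rw [hf]
      intro c'
      rw [key e he c, key f hf c'] at h1
      exact h1 (h.sq_idem g)
    exact ⟨f, fun e => this (k2 f e), this⟩
  · have : e * e * (g * g) ≠ g * g := by rwa [he]
    exact ⟨e, fun e' => this (k2 e e'), this⟩

theorem ctG (hI : IC S False) (hG : IG S) : CT True w t := by
  obtain ⟨g, hg⟩ := hG
  obtain ⟨d, hd, -⟩ := h.dead_of_G hI hg
  exact h.ct_aux hw ht hv (h.sq_idem g) (h.cube g) (Ne.symm hg) hd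

theorem cp (hI : IC S False) (hG : IG S) : CP True w t := by
  classical
  obtain ⟨g, hg⟩ := hG
  obtain ⟨d, hd, hd'⟩ := h.dead_of_G hI hg
  intro ψ
  set γ : ZMod 2 → S := fun a => if a = 0 then g * g else g with hγ
  have hz : ∀ c : ZMod 2, c = 0 ∨ c = 1 := by decide
  have h11 : (1 : ZMod 2) + 1 = 0 := by decide
  have hadd : ∀ a b, γ a * γ b = γ (a + b) := by
    intro a b
    rcases hz a with rfl | rfl <;> rcases hz b with rfl | rfl <;> simp [hγ, h11]
    · exact h.sq_idem g
    · exact h.cube g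
    · rw [mul_comm]; exact h.cube g
  have hval : ∀ u : List ℕ, u ≠ [] → ∀ s : S,
      (s : WithOne S) ∈ Val (fun x => {γ (ψ x)}) u ↔ s = γ (u.map ψ).sum := by
    intro u hu
    induction u with
    | nil => exact absurd rfl hu
    | cons x u ih =>
      intro s
      by_cases e : u = []
      · subst e
        simp [mem_Val_one]
      · rw [mem_Val_cons _ _ _ e]
        simp [ih e, hadd]
  obtain ⟨u, hu, h3, h4⟩ := h.use hv (b := True) (d := d) (s := γ (w.map ψ).sum) (fun _ => by
    simp only [hγ]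
    split_ifs
    exacts [hd', hd]) _ (fun _ => by simp) ((hval w hw _).mpr rfl)
  refine ⟨u, hu, h3, ?_⟩
  rw [hval u (ht u hu)] at h4
  rcases hz (w.map ψ).sum with e | e <;> rcases hz (u.map ψ).sum with e' | e' <;>
    simp only [e, e', hγ] at h4 ⊢
  · exact absurd (by simpa using h4) hg
  · exact absurd (by simpa using h4.symm) hg

theorem cc {b : Prop} (hI : IC S b) : CC b w t := by
  classical
  obtain ⟨e, f, d, he, hf, h1, h2, hd⟩ := hI
  constructor
  · rintro R hR ⟨x, hx, hxR⟩ y hy
    by_contra hyR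
    set ψ : ℕ → Set S := fun z => {if z ∈ R then e else f} with hψ
    obtain ⟨s, hs⟩ := Val_nonempty ψ (fun _ => by simp [hψ]) w
    obtain ⟨s, rfl⟩ := exists_coe_of_mem_Val _ w hw s hs
    have s1 : s = e ∨ s = f ∨ s = e * f := by
      refine Val_forall ψ (fun s => s = e ∨ s = f ∨ s = e * f) ?_ w hw ?_ s hs
      · have k1 : e * (e * f) = e * f := by rw [← mul_assoc, he]
        have k2 : f * (e * f) = e * f := by rw [mul_left_comm, hf]
        have k3 : e * f * (e * f) = e * f := by rw [h.sq_mul, he, hf]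
        have k4 : f * e = e * f := mul_comm _ _
        have k5 : e * f * e = e * f := by rw [mul_comm, k1]
        have k6 : e * f * f = e * f := by rw [mul_comm, k2]
        intro a c ha hc
        rcases ha with ha | ha | ha <;> rcases hc with hc | hc | hc <;> rw [ha, hc] <;>
          simp only [he, hf, k1, k2, k3, k4, k5, k6, true_or, or_true]
      · intro z _ a ha
        simp only [hψ, Set.mem_singleton_iff] at ha
        split_ifs at ha <;> simp [ha]
    obtain ⟨a, ha, s2⟩ := h.fix_of_dvd ψ w x hx s hs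
    obtain ⟨a', ha', s3⟩ := h.fix_of_dvd ψ w y hy s hs
    simp only [hψ, hxR, hyR, if_true, if_false, Set.mem_singleton_iff] at ha ha'
    rw [ha, he] at s2
    rw [ha', hf] at s3
    obtain rfl : s = e * f := by
      rcases s1 with rfl | rfl | rfl
      · exact absurd (by rw [mul_comm]; exact s3) h1
      · exact absurd s2 h2
      · rfl
    obtain ⟨u, hu, h3, h4⟩ := h.use hv hd ψ (fun _ => by simp [hψ]) hs
    have n1 : ∃ z ∈ u, z ∈ R := by
      by_contra hc
      push Not at hc
      exact h2 (Val_forall ψ (fun a => a = f) (by rintro _ _ rfl rfl; exact hf) u (ht u hu)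
        (fun z hz a ha => by simpa [hψ, hc z hz] using ha) _ h4)
    have n2 : ¬ ∀ z ∈ u, z ∈ R := fun hc =>
      h1 (Val_forall ψ (fun a => a = e) (by rintro _ _ rfl rfl; exact he) u (ht u hu)
        (fun z hz a ha => by simpa [hψ, hc z hz] using ha) _ h4)
    refine n2 (hR u hu h3 ?_ n1)
    match u, ht u hu with
    | [z], _ => exact absurd (by simpa using n1) n2
    | _ :: _ :: _, _ => simp
  · intro hl
    match w, hl with
    | x1 :: x :: w, _ =>
      set ψ : ℕ → Set S := fun z => if z = x then {e, f} else {e} with hψ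
      have m1 : ∀ z, e ∈ ψ z := fun z => by simp only [hψ]; split_ifs <;> simp
      obtain ⟨u, hu, h3, h4⟩ := h.use hv hd ψ (fun z => ⟨e, m1 z⟩) (by
        rw [Val_perm _ (List.Perm.swap x x1 w)]
        exact (mem_Val_cons _ _ _ (by simp) _).mpr ⟨f, by simp [hψ], e,
          idem_mem_Val _ he _ (by simp) fun z _ => m1 z, mul_comm _ _⟩)
      refine ⟨u, hu, h3, ?_, x, by simp, ?_⟩
      · match u, ht u hu with
        | [z], _ =>
          rw [mem_Val_one] at h4
          simp only [hψ] at h4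
          split_ifs at h4
          · rcases h4 with h4 | h4
            exacts [absurd h4 h1, absurd h4 h2]
          · exact absurd h4 h1
        | _ :: _ :: _, _ => simp
      · by_contra hxu
        refine h1 (Val_forall ψ (fun a => a = e) (by rintro _ _ rfl rfl; exact he) u (ht u hu)
          (fun z hz a ha => ?_) _ h4)
        have : z ≠ x := fun e => hxu (e ▸ hz)
        simpa [hψ, this] using ha

end CGood

end Pool.Agent.P.MP_485d6e_al
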