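import Pool.Agent.P.MP_485d6e_al.InvCond

set_option autoImplicit false

namespace Pool.Agent.P.MP_485d6e_al

section

variable {S : Type} [Semigroup S]

theorem mem_Val_cc (φ : ℕ → Set S) (x y : ℕ) (u : List ℕ) (s : S) :
    (s : WithOne S) ∈ Val φ (x :: y :: u) ↔
      ∃ a ∈ φ x, ∃ b : S, (b : WithOne S) ∈ Val φ (y :: u) ∧ s = a * b :=
  mem_Val_cons φ x _ (by simp) s

theorem Closed.app {n : ℕ} {T : Set (List ℕ)} (hT : Closed S n T) (w : List ℕ)
    (L : List (List ℕ)) (hs : w ≠ [] ∧ (∀ u ∈ L, u ≠ []) ∧ L ≠ [] ∧ Small n w L)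
    (hv : ∀ φ : ℕ → Set S, (∀ x, (φ x).Nonempty) → ∀ s : S, (s : WithOne S) ∈ Val φ w →
      ∃ u ∈ L, (s : WithOne S) ∈ Val φ u)
    (P : List (List ℕ)) (hP : ∀ p ∈ P, p ≠ [])
    (h : ∀ u ∈ L, (u.flatMap fun i => P.getD i [0]) ∈ T) :
    (w.flatMap fun i => P.getD i [0]) ∈ T := by
  refine hT w L hs.1 hs.2.1 hs.2.2.1 hs.2.2.2 (valid_of hs.1 hv) _ (fun i => ?_) h
  rw [List.getD_eq_getElem?_getD]
  rcases e : P[i]? with _ | p
  · simp
  · exact hP p (List.mem_of_getElem? e)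

end

variable {S : Type} [CommSemigroup S] {T : Set (List ℕ)}

theorem cperm (hT : Closed S 8 T) (h0 : [] ∉ T) {m m' : List ℕ} (h : m.Perm m') :
    ∀ p : List ℕ, p ++ m ∈ T → p ++ m' ∈ T := by
  induction h with
  | nil => intro p h; exact h
  | cons x _ ih =>
    intro p h
    simpa using ih (p ++ [x]) (by simpa using h)
  | swap x y l =>
    intro p h
    have := hT.del h0 [0, 2, 1, 3] [[0, 1, 2, 3]] (by simp) (by decide)
      (fun i => [p, [y], [x], l].getD i []) (by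
        intro φ _ s hs
        refine ⟨_, List.mem_map.mpr ⟨_, List.mem_singleton_self _, rfl⟩, ?_⟩
        rwa [Val_perm φ (List.Perm.filter _ (by decide : [0, 1, 2, 3].Perm [0, 2, 1, 3]))])
      (by simp) (by simpa using h)
    simpa using this
  | trans _ _ ih1 ih2 => intro p h; exact ih2 p (ih1 p h)

namespace CGood

variable (h : CGood S) (hT : Closed S 8 T) (h0 : [] ∉ T)
include h

theorem zero_of (hC : ¬ IC S True) {e f : S} (he : e * e = e) (hf : f * f = f) (h1 : e * f ≠ e)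
    (h2 : e * f ≠ f) (c : S) : c * (e * f) = e * f := by
  have k : e * f * (e * f) = e * f := by rw [h.sq_mul, he, hf]
  refine h.eq_of_sq he (by rw [← mul_assoc, he]) (by rwa [k]) ?_
  rw [h.sq_mul, k]
  by_contra hn
  exact hC ⟨e, f, c, he, hf, h1, h2, fun _ => hn⟩

theorem zero_or (hC : ¬ IC S True) (a b : S) : (∀ c, c * (a * b) = a * b) ∨
    a * a * b = b ∨ b * b * a = a := by
  by_cases h1 : a * a * (b * b) = a * a
  · refine Or.inr (Or.inr ?_)
    calc b * b * a = a * a * (b * b) * a := by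
          rw [mul_right_comm (a * a), h.cube, mul_comm]
      _ = a := by rw [h1, h.cube]
  by_cases h2 : a * a * (b * b) = b * b
  · refine Or.inr (Or.inl ?_)
    rw [← h.cube b, ← mul_assoc, h2, h.cube]
  left
  intro c
  have k := h.zero_of hC (h.sq_idem a) (h.sq_idem b) h1 h2
  rw [← h.sq_mul] at k
  have e : a * b = a * b * (a * b) := by
    have := k (a * b)
    rw [← mul_assoc, h.cube] at this
    exact this
  rw [e, k]

include hT h0

theorem perm {u v : List ℕ} (hp : u.Perm v) (hu : u ∈ T) : v ∈ T := cperm hT h0 hp [] hu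

theorem ins1 {u : List ℕ} {z : ℕ} (hl : 2 ≤ u.length) (hz : z ∈ u) :
    z :: z :: u ∈ T ↔ u ∈ T := by
  classical
  have hp := List.perm_cons_erase hz
  have hne : u.erase z ≠ [] := by
    intro e
    have := hp.length_eq
    rw [e] at this
    simp at this
    omega
  constructor
  · intro hu
    have := hT.app [0, 1] [[0, 0, 0, 1]] (by decide) (by
      intro φ _ s hs
      simp only [mem_Val_cc, mem_Val_one] at hs
      obtain ⟨a, ha, b, hb, rfl⟩ := hs
      refine ⟨_, List.mem_singleton_self _, ?_⟩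
      simp only [mem_Val_cc, mem_Val_one]
      exact ⟨a, ha, _, ⟨a, ha, _, ⟨a, ha, b, hb, rfl⟩, rfl⟩, by
        rw [← mul_assoc, ← mul_assoc, h.cube]⟩) [[z], u.erase z] (by simp [hne])
      (by simpa using h.perm hT h0 ((hp.cons z).cons z) hu)
    exact h.perm hT h0 hp.symm (by simpa using this)
  · intro hu
    have := hT.app [0, 0, 0, 1] [[0, 1]] (by decide) (by
      intro φ _ s hs
      simp only [mem_Val_cc, mem_Val_one] at hs
      obtain ⟨a, ha, _, ⟨b, hb, _, ⟨c, hc, d, hd, rfl⟩, rfl⟩, rfl⟩ := hs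
      refine ⟨_, List.mem_singleton_self _, ?_⟩
      simp only [mem_Val_cc, mem_Val_one]
      rw [← mul_assoc, ← mul_assoc]
      rcases h.tri' a b c d with e | e | e
      exacts [⟨a, ha, d, hd, e⟩, ⟨b, hb, d, hd, e⟩, ⟨c, hc, d, hd, e⟩])
      [[z], u.erase z] (by simp [hne]) (by simpa using h.perm hT h0 hp hu)
    exact h.perm hT h0 ((hp.cons z).cons z).symm (by simpa using this)

theorem ins0 (hG : ¬ IG S) {u : List ℕ} {z : ℕ} (hl : 2 ≤ u.length) (hz : z ∈ u)
    (hu : u ∈ T) : z :: u ∈ T := by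
  classical
  have hi : ∀ a : S, a * a = a := fun a => by
    by_contra hn
    exact hG ⟨a, hn⟩
  have hp := List.perm_cons_erase hz
  have hne : u.erase z ≠ [] := by
    intro e
    have := hp.length_eq
    rw [e] at this
    simp at this
    omega
  have := hT.app [0, 0, 1] [[0, 1]] (by decide) (by
    intro φ _ s hs
    simp only [mem_Val_cc, mem_Val_one] at hs
    obtain ⟨a, ha, _, ⟨b, hb, d, hd, rfl⟩, rfl⟩ := hs
    refine ⟨_, List.mem_singleton_self _, ?_⟩
    simp only [mem_Val_cc, mem_Val_one]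
    rw [← mul_assoc]
    have k : a * b * d * d = a * b * d := by rw [mul_assoc, hi]
    rcases h.tri' a b d d with e | e | e <;> rw [k] at e
    · exact ⟨a, ha, d, hd, e⟩
    · exact ⟨b, hb, d, hd, e⟩
    · refine ⟨a, ha, d, hd, ?_⟩
      rw [hi] at e
      calc a * b * d = a * (a * b * d) := by rw [← mul_assoc, ← mul_assoc, hi]
        _ = a * d := by rw [e]) [[z], u.erase z] (by simp [hne])
    (by simpa using h.perm hT h0 hp hu)
  exact h.perm hT h0 (hp.cons z).symm (by simpa using this)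

theorem ins_ev (u : List ℕ) (hl : 2 ≤ u.length) (e : List ℕ) (he : Ev e) (hs : ∀ x ∈ e, x ∈ u) :
    e ++ u ∈ T ↔ u ∈ T := by
  induction hn : e.length using Nat.strong_induction_on generalizing e with
  | _ n ih =>
    cases e with
    | nil => simp
    | cons z e =>
      obtain ⟨e', hp', he', hl'⟩ := he.perm_cons
      rw [← ih e'.length (hn ▸ hl') e' he'
        (fun x hx => hs x (hp'.mem_iff.mpr (by simp [hx]))) rfl,
        ← h.ins1 hT h0 (u := e' ++ u) (z := z) (by simp; omega) (by simp [hs z (by simp)])]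
      exact ⟨h.perm hT h0 (hp'.append_right u), h.perm hT h0 (hp'.append_right u).symm⟩

theorem norm {u v : List ℕ} (hl : 2 ≤ u.length) (hl' : 2 ≤ v.length) (h1 : ∀ x ∈ u, x ∈ v)
    (h2 : ∀ x ∈ v, x ∈ u) (hp : IG S → ∀ x, u.count x % 2 = v.count x % 2) (hu : u ∈ T) :
    v ∈ T := by
  by_cases hG : IG S
  · have a1 := (h.ins_ev hT h0 u hl (v ++ v) (fun z => by rw [List.count_append]; omega)
      (by simpa using h2)).mpr hu
    refine (h.ins_ev hT h0 v hl' (v ++ u) (fun z => ?_) (by simpa [or_imp, forall_and] using h1)).mp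
      (h.perm hT h0 ?_ a1)
    · have := hp hG z
      rw [List.count_append]
      omega
    · rw [List.append_assoc, List.append_assoc]
      exact List.Perm.append_left _ List.perm_append_comm
  · have key : ∀ l : List ℕ, (∀ x ∈ l, x ∈ u) → l ++ u ∈ T := by
      intro l
      induction l with
      | nil => intro _; simpa using hu
      | cons z l ih =>
        intro hl2
        exact h.ins0 hT h0 hG (u := l ++ u) (by simp; omega) (by simp [hl2 z (by simp)])
          (ih fun x hx => hl2 x (by simp [hx]))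
    refine (h.ins_ev hT h0 v hl' (u ++ u) (fun z => by rw [List.count_append]; omega)
      (by simpa using h1)).mp (h.perm hT h0 ?_ (key (u ++ v) (by simpa [or_imp, forall_and] using h2)))
    rw [List.append_assoc, List.append_assoc]
    exact List.Perm.append_left _ List.perm_append_comm

theorem merge {u v : List ℕ} {z : ℕ} (hu : u ∈ T) (hv : v ∈ T) (hl : 2 ≤ v.length)
    (h1 : z ∈ u) (h2 : z ∈ v) : u ++ (v ++ v) ∈ T := by
  classical
  have hp := List.perm_cons_erase h1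
  have hp' := List.perm_cons_erase h2
  have hne : v.erase z ≠ [] := by
    intro e
    have := hp'.length_eq
    rw [e] at this
    simp at this
    omega
  have three : ∀ (φ : ℕ → Set S) (a b c : S), a ∈ φ 0 → b ∈ φ 0 → c ∈ φ 0 → ∀ d, ∃ y ∈ φ 0,
      a * b * c * d = y * d := by
    intro φ a b c ha hb hc d
    rcases h.tri' a b c d with e | e | e
    exacts [⟨a, ha, e⟩, ⟨b, hb, e⟩, ⟨c, hc, e⟩]
  refine h.perm hT h0 (hp.append (hp'.append hp')).symm ?_
  by_cases e : u.erase z = []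
  · rw [e] at hp ⊢
    have := hT.app [0, 0, 2, 0, 2] [[0], [0, 2]] (by decide) (by
      intro φ _ s hs
      simp only [mem_Val_cc, mem_Val_one] at hs
      obtain ⟨a, ha, _, ⟨b, hb, _, ⟨c, hc, _, ⟨a', ha', c', hc', rfl⟩, rfl⟩, rfl⟩, rfl⟩ := hs
      obtain ⟨y, hy, e⟩ := three φ a b a' ha hb ha' (c * c')
      have e' : a * (b * (c * (a' * c'))) = c * c' * (y * y) * y := by
        rw [mul_assoc (c * c'), h.cube, mul_comm (c * c'), ← e]
        simp only [mul_assoc, mul_comm, mul_left_comm]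
      simp only [List.mem_cons, List.not_mem_nil, or_false, exists_eq_or_imp, exists_eq_left,
        mem_Val_cc, mem_Val_one]
      rw [e']
      rcases h.tri' c c' (y * y) y with k | k | k <;> rw [k]
      · exact Or.inr ⟨y, hy, c, hc, mul_comm _ _⟩
      · exact Or.inr ⟨y, hy, c', hc', mul_comm _ _⟩
      · rw [h.cube]; exact Or.inl hy) [[z], [z], v.erase z] (by simp [hne])
      (by simpa using ⟨h.perm hT h0 hp hu, h.perm hT h0 hp' hv⟩)
    simpa using this
  · have := hT.app [0, 1, 0, 2, 0, 2] [[0, 1], [0, 2]] (by decide) (by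
      intro φ _ s hs
      simp only [mem_Val_cc, mem_Val_one] at hs
      obtain ⟨a, ha, _, ⟨d, hd, _, ⟨b, hb, _, ⟨c, hc, _, ⟨a', ha', c', hc', rfl⟩, rfl⟩, rfl⟩,
        rfl⟩, rfl⟩ := hs
      obtain ⟨y, hy, e⟩ := three φ a b a' ha hb ha' (d * c * c')
      have e' : a * (d * (b * (c * (a' * c')))) = d * c * c' * y := by
        rw [mul_comm _ y, ← e]
        simp only [mul_assoc, mul_comm, mul_left_comm]
      simp only [List.mem_cons, List.not_mem_nil, or_false, exists_eq_or_imp, exists_eq_left,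
        mem_Val_cc, mem_Val_one]
      rw [e']
      rcases h.tri' d c c' y with k | k | k <;> rw [k]
      · exact Or.inl ⟨y, hy, d, hd, mul_comm _ _⟩
      · exact Or.inr ⟨y, hy, c, hc, mul_comm _ _⟩
      · exact Or.inr ⟨y, hy, c', hc', mul_comm _ _⟩) [[z], u.erase z, v.erase z]
      (by simp [hne, e]) (by simpa using ⟨h.perm hT h0 hp hu, h.perm hT h0 hp' hv⟩)
    simpa using this

omit h0 in
theorem law_tri {a b c d : List ℕ} (ha : a ≠ []) (hb : b ≠ []) (hc : c ≠ []) (hd : d ≠ [])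
    (h1 : a ++ d ∈ T) (h2 : b ++ d ∈ T) (h3 : c ++ d ∈ T) : a ++ (b ++ (c ++ d)) ∈ T := by
  have := hT.app [0, 1, 2, 3] [[0, 3], [1, 3], [2, 3]] (by decide) (by
    intro φ _ s hs
    simp only [mem_Val_cc, mem_Val_one] at hs
    obtain ⟨a, ha, _, ⟨b, hb, _, ⟨c, hc, d, hd, rfl⟩, rfl⟩, rfl⟩ := hs
    simp only [List.mem_cons, List.not_mem_nil, or_false, exists_eq_or_imp, exists_eq_left,
      mem_Val_cc, mem_Val_one]
    rw [← mul_assoc, ← mul_assoc]
    rcases h.tri' a b c d with k | k | k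
    exacts [Or.inl ⟨a, ha, d, hd, k⟩, Or.inr (Or.inl ⟨b, hb, d, hd, k⟩),
      Or.inr (Or.inr ⟨c, hc, d, hd, k⟩)]) [a, b, c, d] (by simp [ha, hb, hc, hd])
    (by simpa using ⟨h1, h2, h3⟩)
  simpa using this

theorem law_A (hC : ¬ IC S True) {a b c : List ℕ} (hc : c ≠ []) (h1 : a ∈ T) (h2 : b ∈ T)
    (h3 : a ++ (b ++ (b ++ c)) ∈ T) : a ++ (b ++ b) ∈ T := by
  have ha : a ≠ [] := fun e => h0 (e ▸ h1)
  have hb : b ≠ [] := fun e => h0 (e ▸ h2)
  have := hT.app [0, 1, 1] [[0], [1], [0, 1, 1, 2]] (by decide) (by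
    intro φ hφ s hs
    simp only [mem_Val_cc, mem_Val_one] at hs
    obtain ⟨a, ha, _, ⟨b, hb, c, hc, rfl⟩, rfl⟩ := hs
    simp only [List.mem_cons, List.not_mem_nil, or_false, exists_eq_or_imp, exists_eq_left,
      mem_Val_cc, mem_Val_one]
    obtain ⟨d, hd⟩ := hφ 2
    have z : (∀ y, y * (a * (b * c)) = a * (b * c)) → ∃ a_1 ∈ φ 0, ∃ b_1,
        (∃ a ∈ φ 1, ∃ b, (∃ a ∈ φ 1, ∃ b_2 ∈ φ 2, b = a * b_2) ∧ b_1 = a * b) ∧
        a * (b * c) = a_1 * b_1 := fun k =>
      ⟨a, ha, _, ⟨b, hb, _, ⟨c, hc, d, hd, rfl⟩, rfl⟩, by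
        rw [← k d]; simp only [mul_assoc, mul_comm, mul_left_comm]⟩
    have fin : ∀ e : S, e * e = e → e * a = a → e * b = b → e * c = c →
        a * (b * c) ∈ φ 0 ∨ a * (b * c) ∈ φ 1 := by
      intro e he k1 k2 k3
      rw [← mul_assoc]
      rcases h.tri he k1 k2 k3 with k | k | k <;> rw [k] <;> simp [ha, hb, hc]
    have tr : ∀ x y v : S, x * x * y = y → y * y * v = v → x * x * v = v := by
      intro x y v k1 k2
      rw [← k2, ← mul_assoc, ← mul_assoc, k1]
    suffices H : (∀ y, y * (a * (b * c)) = a * (b * c)) ∨ a * (b * c) ∈ φ 0 ∨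
        a * (b * c) ∈ φ 1 by
      rcases H with H | H | H
      exacts [Or.inr (Or.inr (z H)), Or.inl H, Or.inr (Or.inl H)]
    rcases h.zero_or hC a b with k1 | k1
    · left; intro y
      rw [← mul_assoc a b c, mul_comm _ c, k1, k1]
    rcases h.zero_or hC b c with k2 | k2
    · left; intro y
      rw [k2, k2]
    rcases h.zero_or hC a c with k3 | k3
    · left; intro y
      rw [mul_left_comm a b c, k3, k3]
    right
    rcases k1 with k1 | k1 <;> rcases k2 with k2 | k2 <;> rcases k3 with k3 | k3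
    · exact fin _ (h.sq_idem a) (h.cube a) k1 k3
    · exact fin _ (h.sq_idem a) (h.cube a) k1 (tr _ _ _ k1 k2)
    · exact fin _ (h.sq_idem a) (h.cube a) k1 k3
    · exact fin _ (h.sq_idem c) k3 k2 (h.cube c)
    · exact fin _ (h.sq_idem b) k1 (h.cube b) k2
    · exact fin _ (h.sq_idem b) k1 (h.cube b) k2
    · exact fin _ (h.sq_idem c) (tr _ _ _ k2 k1) k2 (h.cube c)
    · exact fin _ (h.sq_idem c) k3 k2 (h.cube c)) [a, b, c] (by simp [ha, hb, hc])
    (by simpa using ⟨h1, h2, h3⟩)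
  simpa using this

theorem law_B (hC : ¬ IC S True) (h1T : ¬ IT S) (hG : ¬ IG S) {a b c : List ℕ} (hb : b ≠ [])
    (hc : c ≠ []) (h1 : a ∈ T) (h3 : a ++ (b ++ c) ∈ T) : a ++ b ∈ T := by
  have ha : a ≠ [] := fun e => h0 (e ▸ h1)
  have hi : ∀ a : S, a * a = a := fun a => by
    by_contra hn
    exact hG ⟨a, hn⟩
  have := hT.app [0, 1] [[0], [0, 1, 2]] (by decide) (by
    intro φ hφ s hs
    simp only [mem_Val_cc, mem_Val_one] at hs
    obtain ⟨a, ha, b, hb, rfl⟩ := hs
    simp only [List.mem_cons, List.not_mem_nil, or_false, exists_eq_or_imp, exists_eq_left,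
      mem_Val_cc, mem_Val_one]
    obtain ⟨d, hd⟩ := hφ 2
    by_cases k : a * b = a
    · rw [k]; exact Or.inl ha
    refine Or.inr ⟨a, ha, _, ⟨b, hb, d, hd, rfl⟩, ?_⟩
    rw [← mul_assoc, mul_comm _ d]
    rcases h.zero_or hC a b with k1 | k1 | k1
    · exact (k1 d).symm
    · rw [hi] at k1
      by_contra hn
      refine h1T ⟨b, a, d, hi b, hi a, k1, fun e => k (by rw [e, hi]), ?_⟩
      rw [hi]
      rw [k1] at hn
      exact Ne.symm hn
    · rw [hi, mul_comm] at k1
      exact absurd k1 k) [a, b, c] (by simp [ha, hb, hc]) (by simpa using ⟨h1, h3⟩)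
  simpa using this

theorem big {b : Prop} {w : List ℕ} {t : Set (List ℕ)} (hl : 2 ≤ w.length) (hs : t ⊆ T)
    (hc : CC b w t) (u : List ℕ) (hu : u ∈ T) (hu' : ∀ x ∈ u, x ∈ w) :
    ∃ τ ∈ T, Lev b w τ ∧ 2 ≤ τ.length ∧ (∀ x, τ.count x % 2 = u.count x % 2) ∧
      ∀ x ∈ w, x ∈ τ := by
  obtain ⟨z, hz⟩ := List.exists_mem_of_ne_nil u fun e => h0 (e ▸ hu)
  set F : Set (List ℕ) := {τ | τ ∈ T ∧ Lev b w τ ∧ 2 ≤ τ.length ∧
    (∀ x, τ.count x % 2 = u.count x % 2) ∧ z ∈ τ} with hF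
  have mg : ∀ τ ∈ T, Lev b w τ → (∀ x, τ.count x % 2 = u.count x % 2) → z ∈ τ →
      ∀ v ∈ T, Lev b w v → 2 ≤ v.length → ∀ y ∈ τ, y ∈ v → τ ++ (v ++ v) ∈ F := by
    intro τ a1 a2 a3 a4 v b1 b2 b3 y c1 c2
    refine ⟨h.merge hT h0 a1 b1 b3 c1 c2, fun hb x hx => ?_, by simp; omega, fun x => ?_,
      by simp [a4]⟩
    · simp only [List.mem_append, or_self] at hx
      exact hx.elim (a2 hb x) (b2 hb x)
    · have := a3 x
      simp only [List.count_append]
      omega
  obtain ⟨v, hv, v1, v2, v3⟩ : ∃ v ∈ t, Lev b w v ∧ 2 ≤ v.length ∧ z ∈ v := by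
    obtain ⟨v, hv, v1, v2, x, hx, v3⟩ := hc.2 hl
    exact hc.1 {y | ∃ v ∈ t, Lev b w v ∧ 2 ≤ v.length ∧ y ∈ v}
      (fun v hv v1 v2 _ y hy => ⟨v, hv, v1, v2, hy⟩) ⟨x, hx, v, hv, v1, v2, v3⟩ z (hu' z hz)
  have s0 := mg u hu (fun _ => hu') (fun _ => rfl) hz v (hs hv) v1 v2 z hz v3
  have hall := hc.1 {y | ∃ τ ∈ F, y ∈ τ} (by
    rintro v hv v1 v2 ⟨x, hx, τ, hτ, hxτ⟩ y hy
    exact ⟨_, mg τ hτ.1 hτ.2.1 hτ.2.2.2.1 hτ.2.2.2.2 v (hs hv) v1 v2 x hxτ hx, by simp [hy]⟩)
    ⟨z, hu' z hz, _, s0, s0.2.2.2.2⟩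
  have key : ∀ l : List ℕ, (∀ x ∈ l, x ∈ w) → ∃ τ ∈ F, ∀ x ∈ l, x ∈ τ := by
    intro l
    induction l with
    | nil => intro _; exact ⟨_, s0, by simp⟩
    | cons y l ih =>
      intro hl
      obtain ⟨τ, hτ, a1⟩ := ih fun x hx => hl x (by simp [hx])
      obtain ⟨τ', hτ', a2⟩ := hall y (hl y (by simp))
      refine ⟨_, mg τ hτ.1 hτ.2.1 hτ.2.2.2.1 hτ.2.2.2.2 τ' hτ'.1 hτ'.2.1 hτ'.2.2.1 z
        hτ.2.2.2.2 hτ'.2.2.2.2, ?_⟩
      simp +contextual [a1, a2]
  obtain ⟨τ, hτ, a1⟩ := key w fun _ h => h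
  exact ⟨τ, hτ.1, hτ.2.1, hτ.2.2.1, hτ.2.2.2.1, a1⟩

theorem main2 {w : List ℕ} {t : Set (List ℕ)} (hl : 2 ≤ w.length) (hs : t ⊆ T)
    (cu : CU True w t) (c0 : CC False w t) (c1 : IC S True → CC True w t)
    (ct : IT S ∨ IG S → CT True w t) (cp : IG S → CP True w t) : w ∈ T := by
  have hw : w ≠ [] := by rintro rfl; simp at hl
  have full : ∀ u ∈ T, (∀ x ∈ u, x ∈ w) → ∃ τ ∈ T, (∀ x ∈ τ, x ∈ w) ∧ 2 ≤ τ.length ∧
      (IG S → ∀ x, τ.count x % 2 = u.count x % 2) ∧ ∀ x ∈ w, x ∈ τ := by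
    intro u hu hu'
    by_cases hC : IC S True
    · obtain ⟨τ, a1, a2, a3, a4, a5⟩ := h.big hT h0 hl hs (c1 hC) u hu hu'
      exact ⟨τ, a1, a2 trivial, a3, fun _ => a4, a5⟩
    obtain ⟨V, a1, -, a3, -, a5⟩ := h.big hT h0 hl hs c0 u hu hu'
    have hV : V ≠ [] := fun e => h0 (e ▸ a1)
    have ext : ∀ τ ∈ T, (∀ x ∈ τ, x ∈ w) → ∀ v : List ℕ, (∀ x ∈ v, x ∈ w) →
        τ ++ (v ++ (v ++ (V ++ V))) ∈ T := by
      intro τ b1 b2 v b3
      obtain ⟨z, hz⟩ := List.exists_mem_of_ne_nil τ fun e => h0 (e ▸ b1)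
      refine h.norm hT h0 (by simp; omega) (by simp; omega) (by simp +contextual [or_imp])
        ?_ (fun _ x => by simp only [List.count_append]; omega)
        (h.merge hT h0 b1 a1 a3 hz (a5 z (b2 z hz)))
      intro x hx
      simp only [List.mem_append] at hx ⊢
      have := b3 x
      have := a5 x
      tauto
    by_cases hq : IT S ∨ IG S
    · have key : ∀ l : List ℕ, l ≠ [] → (∀ x ∈ l, x ∈ w) → ∃ τ ∈ T, (∀ x ∈ τ, x ∈ w) ∧
          2 ≤ τ.length ∧ (∀ x, τ.count x % 2 = u.count x % 2) ∧ ∀ x ∈ l, x ∈ τ := by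
        have step : ∀ τ ∈ T, (∀ x ∈ τ, x ∈ w) → (∀ x, τ.count x % 2 = u.count x % 2) →
            ∀ y ∈ w, ∃ τ' ∈ T, (∀ x ∈ τ', x ∈ w) ∧ 2 ≤ τ'.length ∧
              (∀ x, τ'.count x % 2 = u.count x % 2) ∧ y ∈ τ' ∧ ∀ x ∈ τ, x ∈ τ' := by
          intro τ b1 b2 b3 y hy
          obtain ⟨v, hv, v1, v2⟩ := ct hq y hy
          refine ⟨_, h.law_A hT h0 hC (by simp [hV]) b1 (hs hv) (ext τ b1 b2 v (v1 trivial)),
            fun x hx => ?_, ?_, fun x => ?_, by simp [v2], by simp +contextual⟩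
          · simp only [List.mem_append, or_self] at hx
            exact hx.elim (b2 x) (v1 trivial x)
          · have := List.length_pos_of_mem v2
            simp only [List.length_append]
            omega
          · have := b3 x
            simp only [List.count_append]
            omega
        intro l
        induction l with
        | nil => intro h; exact absurd rfl h
        | cons y l ih =>
          intro _ hl
          by_cases e : l = []
          · subst e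
            obtain ⟨τ, b1, b2, b3, b4, b5, -⟩ := step u hu hu' (fun _ => rfl) y (hl y (by simp))
            exact ⟨τ, b1, b2, b3, b4, by simpa using b5⟩
          · obtain ⟨τ, b1, b2, -, b4, b5⟩ := ih e fun x hx => hl x (by simp [hx])
            obtain ⟨τ', d1, d2, d3, d4, d5, d6⟩ := step τ b1 b2 b4 y (hl y (by simp))
            exact ⟨τ', d1, d2, d3, d4, by simp +contextual [d5, d6, b5]⟩
      obtain ⟨τ, b1, b2, b3, b4, b5⟩ := key w hw fun _ h => h
      exact ⟨τ, b1, b2, b3, fun _ => b4, b5⟩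
    · rw [not_or] at hq
      refine ⟨u ++ w, h.law_B hT h0 hC hq.1 hq.2 hw (c := w ++ (V ++ V)) (by simp [hw]) hu
        (ext u hu hu' w fun _ h => h), ?_, by simp; omega, fun hG => absurd hG hq.2,
        by simp +contextual⟩
      intro x hx
      exact (List.mem_append.mp hx).elim (hu' x) id
  by_cases hG : IG S
  · obtain ⟨τ, ⟨a1, a2, a3, a4⟩, a5⟩ := exists_parity
      {τ | τ ∈ T ∧ (∀ x ∈ τ, x ∈ w) ∧ 2 ≤ τ.length ∧ ∀ x ∈ w, x ∈ τ} w (by
        have e : ∀ τ ∈ T, (∀ x ∈ τ, x ∈ w) → 2 ≤ τ.length → (∀ x ∈ w, x ∈ τ) →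
            τ ++ (w ++ w) ∈ T := by
          intro τ a1 a2 a3 a4
          refine h.norm hT h0 a3 (by simp; omega) (by simp +contextual) ?_
            (fun _ x => by simp only [List.count_append]; omega) a1
          intro x hx
          simp only [List.mem_append, or_self] at hx
          exact hx.elim id (a4 x)
        rintro x ⟨x1, x2, x3, x4⟩ y ⟨y1, y2, y3, y4⟩ z ⟨z1, z2, z3, z4⟩
        refine ⟨_, ⟨h.law_tri hT (fun e => h0 (e ▸ x1)) (fun e => h0 (e ▸ y1))
          (fun e => h0 (e ▸ z1)) (by simp [hw]) (e x x1 x2 x3 x4) (e y y1 y2 y3 y4)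
          (e z z1 z2 z3 z4), fun v hv => ?_, by simp; omega, by simp +contextual⟩, ?_⟩
        · simp only [List.mem_append, or_self] at hv
          rcases hv with hv | hv | hv | hv
          exacts [x2 v hv, y2 v hv, z2 v hv, hv]
        · have : vec w + vec w = 0 := by
            rw [← two_smul (ZMod 2) (vec w), show (2 : ZMod 2) = 0 from rfl, zero_smul]
          simp [vec_append, add_assoc, this])
      (fun ψ => by
        obtain ⟨u, hu, b1, b2⟩ := cp hG ψ
        obtain ⟨τ, a1, a2, a3, a4, a5⟩ := full u (hs hu) (b1 trivial)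
        exact ⟨τ, ⟨a1, a2, a3, a5⟩, (sum_map_congr ψ τ u (a4 hG)).trans b2⟩)
    exact h.norm hT h0 a3 hl a2 a4 (fun _ => a5) a1
  · obtain ⟨u, hu, b1⟩ := cu
    obtain ⟨τ, a1, a2, a3, -, a5⟩ := full u (hs hu) (b1 trivial)
    exact h.norm hT h0 a3 hl a2 a5 (fun h => absurd h hG) a1

end CGood

theorem CGood.fb (h : CGood S) (hI : IC S False) :
    FinitelyBased (Pow.add (S := S)) Pow.mul := by
  refine fb_of S 8 fun w t hw ht _ _ hv T hT h0 hs => ?_
  match w, hw with
  | [x], hw =>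
    by_cases hx : [x] ∈ t
    · exact hs hx
    have hl : ∀ u ∈ t, Lev True [x] u → 2 ≤ u.length ∧ x ∈ u ∧ Lev True [x, x, x] u := by
      intro u hu h1
      match u, ht u hu with
      | [y], _ =>
        have : y = x := by simpa using h1 trivial y (by simp)
        exact absurd (this ▸ hu) hx
      | y :: y' :: u, _ =>
        have : y = x := by simpa using h1 trivial y (by simp)
        exact ⟨by simp, by simp [this], fun _ z hz => by simpa using h1 trivial z hz⟩
    obtain ⟨u, hu, h1⟩ := h.cu hw hv hI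
    obtain ⟨a1, a2, a3⟩ := hl u hu h1
    have cc : ∀ b : Prop, CC b [x, x, x] t := fun b =>
      ⟨fun R _ h y hy => by
        obtain ⟨z, hz, h⟩ := h
        simp only [List.mem_cons, List.not_mem_nil, or_false, or_self] at hz hy
        rwa [hy, ← hz], fun _ => ⟨u, hu, fun _ => a3 trivial, a1, x, by simp, a2⟩⟩
    have := h.main2 hT h0 (w := [x, x, x]) (by simp) hs ⟨u, hu, a3⟩ (cc _) (fun _ => cc _)
      (fun _ y hy => ⟨u, hu, a3, by
        simp only [List.mem_cons, List.not_mem_nil, or_false, or_self] at hy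
        rwa [hy]⟩)
      (fun hG ψ => by
        obtain ⟨v, hv', b1, b2⟩ := h.cp hw ht hv hI hG ψ
        refine ⟨v, hv', (hl v hv' b1).2.2, ?_⟩
        have : ∀ c : ZMod 2, c = c + (c + c) := by decide
        rw [b2]
        simpa using this (ψ x))
    have k := hT.app [0] [[0, 0, 0]] (by decide) (by
      intro φ _ s hs
      refine ⟨_, List.mem_singleton_self _, ?_⟩
      simp only [mem_Val_cc, mem_Val_one] at hs ⊢
      exact ⟨s, hs, _, ⟨s, hs, s, hs, rfl⟩, by rw [← mul_assoc, h.cube]⟩) [[x]] (by simp)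
      (by simpa using this)
    simpa using k
  | x :: y :: w, hw =>
    exact h.main2 hT h0 (by simp) hs (h.cu hw hv hI) (h.cc hw ht hv hI)
      (fun hC => h.cc hw ht hv hC) (fun hq => hq.elim (h.ctT hw ht hv) (h.ctG hw ht hv hI))
      (h.cp hw ht hv hI)

end Pool.Agent.P.MP_485d6e_al
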