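import Pool.Agent.P.MP_485d6e_al.MonCond

set_option autoImplicit false

namespace Pool.Agent.P.MP_485d6e_al

/-- The parity vector of a word. -/
noncomputable def vec (u : List ℕ) : ℕ →₀ ZMod 2 := (u.map fun x => Finsupp.single x 1).sum

theorem vec_append (u v : List ℕ) : vec (u ++ v) = vec u + vec v := by simp [vec]

theorem vec_apply (u : List ℕ) (x : ℕ) : vec u x = (u.count x : ZMod 2) := by
  induction u with
  | nil => simp [vec]
  | cons y u ih =>
    have : vec (y :: u) = Finsupp.single y 1 + vec u := by simp [vec]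
    rw [this, Finsupp.add_apply, ih, List.count_cons, Finsupp.single_apply]
    by_cases h : y = x <;> simp [h, add_comm]

theorem dual_vec (f : Module.Dual (ZMod 2) (ℕ →₀ ZMod 2)) (u : List ℕ) :
    f (vec u) = (u.map fun x => f (Finsupp.single x 1)).sum := by
  induction u with
  | nil => simp [vec]
  | cons y u ih =>
    have : vec (y :: u) = Finsupp.single y 1 + vec u := by simp [vec]
    rw [this, map_add, ih]
    simp

/-- A set of words closed under a ternary operation that adds parities and meets every parity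
functional at the value of `w` contains a word with the parity vector of `w`. -/
theorem exists_parity (A : Set (List ℕ)) (w : List ℕ)
    (hA : ∀ x ∈ A, ∀ y ∈ A, ∀ z ∈ A, ∃ v ∈ A, vec v = vec x + vec y + vec z)
    (h : ∀ ψ : ℕ → ZMod 2, ∃ u ∈ A, (u.map ψ).sum = (w.map ψ).sum) :
    ∃ u ∈ A, ∀ x, u.count x % 2 = w.count x % 2 := by
  obtain ⟨u0, hu0, -⟩ := h 0
  have h2 : ∀ v : ℕ →₀ ZMod 2, v + v = 0 := fun v => by
    rw [← two_smul (ZMod 2) v, show (2 : ZMod 2) = 0 from rfl, zero_smul]
  let V : Submodule (ZMod 2) (ℕ →₀ ZMod 2) :=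
    { carrier := {v | ∃ u ∈ A, vec u = vec u0 + v}
      add_mem' := by
        rintro a b ⟨x, hx, e1⟩ ⟨y, hy, e2⟩
        obtain ⟨v, hv, e⟩ := hA x hx y hy u0 hu0
        refine ⟨v, hv, ?_⟩
        rw [e, e1, e2]
        calc vec u0 + a + (vec u0 + b) + vec u0 = vec u0 + (a + b) + (vec u0 + vec u0) := by abel
          _ = _ := by rw [h2, add_zero]
      zero_mem' := ⟨u0, hu0, by simp⟩
      smul_mem' := by
        intro c a ha
        have hc : ∀ c : ZMod 2, c = 0 ∨ c = 1 := by decide
        rcases hc c with rfl | rfl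
        · exact ⟨u0, hu0, by simp⟩
        · simpa using ha }
  have hw : vec u0 + vec w ∈ V := by
    by_contra hn
    obtain ⟨f, hf1, hf2⟩ := Submodule.exists_dual_map_eq_bot_of_notMem hn inferInstance
    obtain ⟨u, hu, e⟩ := h fun x => f (Finsupp.single x 1)
    rw [← dual_vec, ← dual_vec] at e
    have hm : vec u0 + vec u ∈ V := ⟨u, hu, by rw [← add_assoc, h2, zero_add]⟩
    have : f (vec u0 + vec u) = 0 := by
      have := Submodule.mem_map_of_mem (f := f) hm
      rw [hf2] at this
      exact this
    apply hf1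
    rw [map_add, ← e, ← map_add, this]
  obtain ⟨u, hu, e⟩ := hw
  rw [← add_assoc, h2, zero_add] at e
  refine ⟨u, hu, fun x => ?_⟩
  have := congrArg (fun v => v x) e
  simp only [vec_apply] at this
  exact (ZMod.natCast_eq_natCast_iff' _ _ 2).mp this

/-- All letters occur an even number of times. -/
def Ev (e : List ℕ) : Prop := ∀ z, e.count z % 2 = 0

theorem Ev.perm_cons {z : ℕ} {e : List ℕ} (h : Ev (z :: e)) :
    ∃ e', (z :: e).Perm (z :: z :: e') ∧ Ev e' ∧ e'.length < (z :: e).length := by
  have hz : z ∈ e := by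
    have := h z
    rw [List.count_cons_self] at this
    exact List.count_pos_iff.mp (by omega)
  have hp := List.perm_cons_erase hz
  refine ⟨e.erase z, hp.cons z, fun y => ?_, ?_⟩
  · have := h y
    rw [(hp.cons z).count_eq, List.count_cons, List.count_cons] at this
    omega
  · have := hp.length_eq
    simp only [List.length_cons] at this ⊢
    omega

end Pool.Agent.P.MP_485d6e_al
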