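import Pool.Agent.P.MP_485d6e_al.Nil
import Pool.Agent.P.MP_485d6e_al.Parity

set_option autoImplicit false

namespace Pool.Agent.P.MP_485d6e_al

/-- Commutative semigroups with `a³ = a` and good local monoids. -/
structure CGood (S : Type) [CommSemigroup S] : Prop where
  cube : ∀ a : S, a * a * a = a
  good : ∀ e a b : S, e * e = e → e * a = a → e * b = b → a * b = a ∨ a * b = b ∨ a * b = e

section Val

variable {S : Type} [Semigroup S]

theorem mem_Val_cons (φ : ℕ → Set S) (x : ℕ) (u : List ℕ) (hu : u ≠ []) (s : S) :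
    (s : WithOne S) ∈ Val φ (x :: u) ↔
      ∃ a ∈ φ x, ∃ b : S, (b : WithOne S) ∈ Val φ u ∧ s = a * b := by
  constructor
  · rintro ⟨a, ha, b, hb, e⟩
    obtain ⟨b, rfl⟩ := exists_coe_of_mem_Val _ u hu b hb
    exact ⟨a, ha, b, hb, WithOne.coe_inj.mp (by simpa using e.symm)⟩
  · rintro ⟨a, ha, b, hb, rfl⟩
    exact ⟨a, ha, b, hb, by simp⟩

theorem valid_of {w : List ℕ} {L : List (List ℕ)} (hw : w ≠ [])
    (h : ∀ φ : ℕ → Set S, (∀ x, (φ x).Nonempty) → ∀ s : S, (s : WithOne S) ∈ Val φ w →
      ∃ u ∈ L, (s : WithOne S) ∈ Val φ u) : Valid S w {u | u ∈ L} := by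
  intro φ hφ s hs
  obtain ⟨s, rfl⟩ := exists_coe_of_mem_Val _ w hw s hs
  exact h φ hφ s hs

theorem Val_forall (φ : ℕ → Set S) (P : S → Prop) (hm : ∀ a b, P a → P b → P (a * b))
    (u : List ℕ) (hu : u ≠ []) (h : ∀ x ∈ u, ∀ a ∈ φ x, P a) (s : S)
    (hs : (s : WithOne S) ∈ Val φ u) : P s := by
  induction u generalizing s with
  | nil => exact absurd rfl hu
  | cons x u ih =>
    by_cases e : u = []
    · subst e
      exact h x (by simp) s ((mem_Val_one _ _ _).mp hs)
    · obtain ⟨a, ha, b, hb, rfl⟩ := (mem_Val_cons _ _ _ e _).mp hs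
      exact hm _ _ (h x (by simp) a ha) (ih e (fun y hy => h y (by simp [hy])) b hb)

theorem Val_mono {φ ψ : ℕ → Set S} (u : List ℕ) (h : ∀ x ∈ u, φ x ⊆ ψ x) :
    Val φ u ⊆ Val ψ u := by
  induction u with
  | nil => exact fun _ h => h
  | cons x u ih =>
    exact Set.image2_subset (h x (by simp)) (ih fun y hy => h y (by simp [hy]))

end Val

variable {S : Type} [CommSemigroup S]

theorem Val_perm (φ : ℕ → Set S) {u v : List ℕ} (h : u.Perm v) : Val φ u = Val φ v := by
  induction h with
  | nil => rfl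
  | cons x _ ih => simp only [Val, ih]
  | swap x y l =>
    simp only [Val]
    exact Set.image2_left_comm fun a b c => by
      rw [← mul_assoc, ← mul_assoc, ← WithOne.coe_mul, ← WithOne.coe_mul, mul_comm a b]
  | trans _ _ ih1 ih2 => exact ih1.trans ih2

/-- An element of a product divides it. -/
theorem Val_dvd (φ : ℕ → Set S) (u : List ℕ) (x : ℕ) (hx : x ∈ u) (s : S)
    (hs : (s : WithOne S) ∈ Val φ u) : ∃ a ∈ φ x, s = a ∨ ∃ b, s = a * b := by
  classical
  rw [Val_perm φ (List.perm_cons_erase hx)] at hs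
  by_cases e : u.erase x = []
  · rw [e] at hs
    exact ⟨s, (mem_Val_one _ _ _).mp hs, Or.inl rfl⟩
  · obtain ⟨a, ha, b, -, rfl⟩ := (mem_Val_cons _ _ _ e _).mp hs
    exact ⟨a, ha, Or.inr ⟨b, rfl⟩⟩

namespace CGood

variable (h : CGood S)
include h

theorem sq_idem (a : S) : a * a * (a * a) = a * a := by rw [← mul_assoc, h.cube]

theorem fix_of_dvd (φ : ℕ → Set S) (u : List ℕ) (x : ℕ) (hx : x ∈ u) (s : S)
    (hs : (s : WithOne S) ∈ Val φ u) : ∃ a ∈ φ x, a * a * s = s := by
  obtain ⟨a, ha, rfl | ⟨b, rfl⟩⟩ := Val_dvd φ u x hx s hs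
  · exact ⟨s, ha, h.cube s⟩
  · exact ⟨a, ha, by rw [← mul_assoc, h.cube]⟩

theorem tri {e a b c : S} (he : e * e = e) (ha : e * a = a) (hb : e * b = b) (hc : e * c = c) :
    a * b * c = a ∨ a * b * c = b ∨ a * b * c = c := by
  have key : ∀ a b : S, e * a = a → e * b = b → a * b = a →
      a * b * c = a ∨ a * b * c = b ∨ a * b * c = c := by
    intro a b ha hb h1
    rw [h1]
    rcases h.good e a c he ha hc with h2 | h2 | h2
    · exact Or.inl h2
    · exact Or.inr (Or.inr h2)
    · refine Or.inr (Or.inl ?_)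
      rw [← hb, ← h2, mul_right_comm, h1]
  rcases h.good e a b he ha hb with h1 | h1 | h1
  · exact key a b ha hb h1
  · have := key b a hb ha (by rw [mul_comm, h1])
    rw [mul_comm b a] at this
    tauto
  · rw [h1, hc]; tauto

/-- Relative form of `tri`. -/
theorem tri' (a b c d : S) : a * b * c * d = a * d ∨ a * b * c * d = b * d ∨
    a * b * c * d = c * d := by
  have he := h.sq_idem d
  have k : ∀ a : S, d * d * (d * d * a) = d * d * a := fun a => by rw [← mul_assoc, he]
  have k2 : ∀ a : S, d * d * a * d = a * d := fun a => by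
    rw [mul_comm (d * d) a, mul_assoc, h.cube]
  have e : d * d * a * (d * d * b) * (d * d * c) * d = a * b * c * d := by
    have : d * d * a * (d * d * b) * (d * d * c) = d * d * (d * d * (d * d * (a * b * c))) := by
      simp only [mul_assoc, mul_comm, mul_left_comm]
    rw [this, k, k, k2]
  rcases h.tri he (k a) (k b) (k c) with h1 | h1 | h1 <;> rw [h1, k2] at e <;> tauto

theorem idem_of_lt {e s : S} (he : e * e = e) (hs : e * s = s) (hne : s * s ≠ e) :
    s * s = s := by
  rcases h.good e s s he hs hs with h1 | h1 | h1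
  exacts [h1, h1, absurd h1 hne]

theorem chain {a f g : S} (hf : f * f = f) (hg : g * g = g) (h1 : a * a * f = f)
    (h2 : a * a * g = g) : f * g = f ∨ f * g = g := by
  rcases h.good _ f g (h.sq_idem a) h1 h2 with h3 | h3 | h3
  · exact Or.inl h3
  · exact Or.inr h3
  · left
    rw [h3, ← h1, ← h3, mul_right_comm, hf]

/-- Elements with the same square below a different idempotent are equal. -/
theorem eq_of_sq {e p q : S} (he : e * e = e) (h1 : e * p = p) (hne : p * p ≠ e)
    (h2 : q * q = p * p) : q = p := by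
  have hp := h.idem_of_lt he h1 hne
  have hq : e * q = q := by
    rw [← h.cube q, h2, ← mul_assoc, ← mul_assoc, h1]
  rw [← h.idem_of_lt he hq (h2 ▸ hne), h2, hp]

theorem sq_mul (a b : S) : a * b * (a * b) = a * a * (b * b) := by
  simp only [mul_assoc, mul_comm, mul_left_comm]

end CGood

end Pool.Agent.P.MP_485d6e_al
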