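import Pool.Agent.P.MP_485d6e_al.Parity

set_option autoImplicit false

namespace Pool.Agent.P.MP_485d6e_al

/-- Letters that occur both earlier and later may be moved, and inserted or deleted in pairs. -/
structure Mid (T : Set (List ℕ)) : Prop where
  move : ∀ (p : List ℕ) (z : ℕ) (h r : List ℕ), z ∈ p → z ∈ r →
    (p ++ (z :: h) ++ r ∈ T ↔ p ++ h ++ z :: r ∈ T)
  sq : ∀ (p : List ℕ) (z : ℕ) (r : List ℕ), z ∈ p → z ∈ r → (p ++ r ∈ T ↔ p ++ z :: z :: r ∈ T)

variable {T : Set (List ℕ)}

theorem Mid.perm (hT : Mid T) {m m' : List ℕ} (h : m.Perm m') : ∀ p r : List ℕ,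
    (∀ x ∈ m, x ∈ p) → (∀ x ∈ m, x ∈ r) → p ++ m ++ r ∈ T → p ++ m' ++ r ∈ T := by
  induction h with
  | nil => intro p r _ _ h; exact h
  | cons x _ ih =>
    intro p r h1 h2 h
    have := ih (p ++ [x]) r (fun y hy => by simp [h1 y (by simp [hy])])
      (fun y hy => h2 y (by simp [hy])) (by simpa using h)
    simpa using this
  | swap x y l =>
    intro p r h1 h2 h
    have := (hT.move p y [x] (l ++ r) (h1 y (by simp)) (by simp [h2 y (by simp)])).mp
      (by simpa using h)
    simpa using this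
  | trans p1 _ ih1 ih2 =>
    intro p r h1 h2 h
    exact ih2 p r (fun y hy => h1 y (p1.mem_iff.mpr hy)) (fun y hy => h2 y (p1.mem_iff.mpr hy))
      (ih1 p r h1 h2 h)

theorem Mid.even (hT : Mid T) (e : List ℕ) (he : Ev e) (p r : List ℕ) (h1 : ∀ x ∈ e, x ∈ p)
    (h2 : ∀ x ∈ e, x ∈ r) : p ++ e ++ r ∈ T ↔ p ++ r ∈ T := by
  induction hn : e.length using Nat.strong_induction_on generalizing e with
  | _ n ih =>
    cases e with
    | nil => simp
    | cons z e =>
      obtain ⟨e', hp, he', hl⟩ := he.perm_cons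
      have s1 : ∀ x ∈ e', x ∈ p := fun x hx => h1 x (hp.mem_iff.mpr (by simp [hx]))
      have s2 : ∀ x ∈ e', x ∈ r := fun x hx => h2 x (hp.mem_iff.mpr (by simp [hx]))
      rw [← ih e'.length (hn ▸ hl) e' he' s1 s2 rfl]
      have h3 := hT.sq p z (e' ++ r) (h1 z (by simp)) (by simp [h2 z (by simp)])
      constructor
      · intro h
        have := hT.perm hp p r h1 h2 h
        simpa using h3.mpr (by simpa using this)
      · intro h
        refine hT.perm hp.symm p r (fun x hx => h1 x (hp.mem_iff.mpr hx))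
          (fun x hx => h2 x (hp.mem_iff.mpr hx)) ?_
        simpa using h3.mp (by simpa using h)

theorem Ev.double (m : List ℕ) : Ev (m ++ m) := fun z => by
  rw [List.count_append]; omega

theorem Mid.par (hT : Mid T) (m m' p r : List ℕ) (h : ∀ z, m.count z % 2 = m'.count z % 2)
    (h1 : ∀ x ∈ m, x ∈ p) (h2 : ∀ x ∈ m, x ∈ r) (h3 : ∀ x ∈ m', x ∈ p) (h4 : ∀ x ∈ m', x ∈ r)
    (hm : p ++ m ++ r ∈ T) : p ++ m' ++ r ∈ T := by
  have a1 : (p ++ m) ++ (m' ++ m') ++ r ∈ T :=
    (hT.even _ (Ev.double m') (p ++ m) r (by simp +contextual [h3]) (by simp +contextual [h4])).mpr hm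
  have a2 : p ++ (m' ++ (m ++ m')) ++ r ∈ T := by
    refine hT.perm (m := m ++ (m' ++ m')) ?_ p r ?_ ?_ (by simpa using a1)
    · rw [← List.append_assoc, ← List.append_assoc]
      exact List.Perm.append_right _ List.perm_append_comm
    · intro x hx
      simp only [List.mem_append] at hx
      rcases hx with hx | hx | hx
      exacts [h1 x hx, h3 x hx, h3 x hx]
    · intro x hx
      simp only [List.mem_append] at hx
      rcases hx with hx | hx | hx
      exacts [h2 x hx, h4 x hx, h4 x hx]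
  refine (hT.even (m ++ m') (fun z => ?_) (p ++ m') r ?_ ?_).mp (by simpa using a2)
  · rw [List.count_append]
    have := h z
    omega
  · intro x hx
    simp only [List.mem_append] at hx ⊢
    rcases hx with hx | hx
    exacts [Or.inl (h1 x hx), Or.inr hx]
  · intro x hx
    simp only [List.mem_append] at hx
    rcases hx with hx | hx
    exacts [h2 x hx, h4 x hx]

theorem Mid.moveW (hT : Mid T) (a : List ℕ) : ∀ p h r : List ℕ, (∀ x ∈ a, x ∈ p) →
    (∀ x ∈ a, x ∈ r) → (p ++ a ++ h ++ r ∈ T ↔ p ++ h ++ a ++ r ∈ T) := by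
  induction a with
  | nil => intro p h r _ _; simp
  | cons z a ih =>
    intro p h r h1 h2
    have e1 := ih (p ++ [z]) h r (fun x hx => by simp [h1 x (by simp [hx])])
      (fun x hx => h2 x (by simp [hx]))
    have e2 := hT.move p z h (a ++ r) (h1 z (by simp)) (by simp [h2 z (by simp)])
    simp only [List.append_assoc, List.cons_append, List.nil_append] at e1 e2 ⊢
    exact e1.trans e2

/-- Single letters may be deleted. -/
theorem any_del (hs : ∀ (p : List ℕ) (z : ℕ) (r : List ℕ), z ∈ p → z ∈ r →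
    (p ++ r ∈ T ↔ p ++ z :: r ∈ T)) (e : List ℕ) (p r : List ℕ) (h1 : ∀ x ∈ e, x ∈ p)
    (h2 : ∀ x ∈ e, x ∈ r) : p ++ e ++ r ∈ T ↔ p ++ r ∈ T := by
  induction e with
  | nil => simp
  | cons z e ih =>
    rw [← ih (fun x hx => h1 x (by simp [hx])) (fun x hx => h2 x (by simp [hx]))]
    have := hs p z (e ++ r) (h1 z (by simp)) (by simp [h2 z (by simp)])
    simp only [List.append_assoc, List.cons_append] at this ⊢
    exact this.symm

end Pool.Agent.P.MP_485d6e_al
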