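import Pool.Agent.P.MP_485d6e_al.MonSem

set_option autoImplicit false

namespace Pool.Agent.P.MP_485d6e_al

/-- If `b` holds then all letters of `u` occur in `w`. -/
def Lev (b : Prop) (w u : List ℕ) : Prop := b → ∀ x ∈ u, x ∈ w

/-- Some word is available. -/
def CU (b : Prop) (w : List ℕ) (t : Set (List ℕ)) : Prop := ∃ u ∈ t, Lev b w u

/-- Every letter is covered. -/
def CT (b : Prop) (w : List ℕ) (t : Set (List ℕ)) : Prop :=
  ∀ x ∈ w, ∃ u ∈ t, Lev b w u ∧ x ∈ u

/-- Every letter is covered from the left. -/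
def CL (b : Prop) (w : List ℕ) (t : Set (List ℕ)) : Prop :=
  ∀ w1 x w2, w = w1 ++ x :: w2 →
    ∃ u1 u2, u1 ++ x :: u2 ∈ t ∧ Lev b w (u1 ++ x :: u2) ∧ ∀ y ∈ u1, y ∈ w1

/-- Every letter is covered from the right. -/
def CR (b : Prop) (w : List ℕ) (t : Set (List ℕ)) : Prop :=
  ∀ w1 x w2, w = w1 ++ x :: w2 →
    ∃ u1 u2, u1 ++ x :: u2 ∈ t ∧ Lev b w (u1 ++ x :: u2) ∧ ∀ y ∈ u2, y ∈ w2

/-- The parity condition. -/
def CP (b : Prop) (w : List ℕ) (t : Set (List ℕ)) : Prop :=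
  ∀ ψ : ℕ → ZMod 2, ∃ u ∈ t, Lev b w u ∧ (u.map ψ).sum = (w.map ψ).sum

section Flags

variable (M : Type) [Monoid M]

/-- There is a non-unit. -/
def FT0 : Prop := ∃ s : M, s * s ≠ 1
/-- There is a non-unit with an element below it. -/
def FT1 : Prop := ∃ s z : M, s * s ≠ 1 ∧ Bl s z
/-- There is a non-unit with a left mate. -/
def FL0 : Prop := ∃ s a : M, s * s ≠ 1 ∧ LM s a
/-- There is a non-unit with a left mate and an element below it. -/
def FL1 : Prop := ∃ s a z : M, s * s ≠ 1 ∧ LM s a ∧ Bl s z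
/-- There is a non-unit with a right mate. -/
def FR0 : Prop := ∃ s a : M, s * s ≠ 1 ∧ RM s a
/-- There is a non-unit with a right mate and an element below it. -/
def FR1 : Prop := ∃ s a z : M, s * s ≠ 1 ∧ RM s a ∧ Bl s z
/-- There is a unit other than the identity. -/
def FG : Prop := ∃ g : M, g ≠ 1 ∧ g * g = 1

end Flags

section

variable {M : Type} [Monoid M]

open Classical in
/-- The power of an involution with exponent in `ZMod 2`. -/
noncomputable def gam (g : M) (a : ZMod 2) : M := if a = 0 then 1 else g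

theorem gam_add {g : M} (hg : g * g = 1) (a b : ZMod 2) :
    gam g (a + b) = gam g a * gam g b := by
  have h : ∀ c : ZMod 2, c = 0 ∨ c = 1 := by decide
  have h11 : (1 : ZMod 2) + 1 = 0 := by decide
  rcases h a with rfl | rfl <;> rcases h b with rfl | rfl <;> simp [gam, h11, hg]

theorem gam_inj {g : M} (hg : g ≠ 1) {a b : ZMod 2} (e : gam g a = gam g b) : a = b := by
  have h : ∀ c : ZMod 2, c = 0 ∨ c = 1 := by decide
  rcases h a with rfl | rfl <;> rcases h b with rfl | rfl <;> simp_all [gam, eq_comm]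

theorem gam_sq {g : M} (hg : g * g = 1) (a : ZMod 2) : gam g a * gam g a = 1 := by
  unfold gam
  split_ifs
  · simp
  · exact hg

theorem gam_mem_MVal {g : M} (hg : g * g = 1) (φ : ℕ → Set M) (ψ : ℕ → ZMod 2) (u : List ℕ)
    (h : ∀ x ∈ u, gam g (ψ x) ∈ φ x) : gam g (u.map ψ).sum ∈ MVal φ u := by
  induction u with
  | nil => simp [gam, MVal]
  | cons x u ih =>
    rw [List.map_cons, List.sum_cons, gam_add hg]
    exact ⟨_, h x (by simp), _, ih fun y hy => h y (by simp [hy]), rfl⟩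

theorem Good.eq_gam (hM : Good M) {g : M} (hg : g * g = 1) (φ : ℕ → Set M) (ψ : ℕ → ZMod 2)
    (u : List ℕ) (h : ∀ x ∈ u, ∀ a ∈ φ x, a * a = 1 → a = gam g (ψ x)) :
    ∀ s ∈ MVal φ u, s * s = 1 → s = gam g (u.map ψ).sum := by
  induction u with
  | nil => intro s hs _; simpa [gam, MVal] using hs
  | cons x u ih =>
    rintro _ ⟨a, ha, b, hb, rfl⟩ hs
    obtain ⟨h1, h2⟩ := hM.unit_of_mul hs
    rw [List.map_cons, List.sum_cons, gam_add hg, ← h x (by simp) a ha h1,
      ← ih (fun y hy => h y (by simp [hy])) b hb h2]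

theorem Good.unit_cases (hM : Good M) {g a : M} (hg1 : g ≠ 1) (hg : g * g = 1)
    (ha : a * a = 1) : a = 1 ∨ a = g := by
  rcases hM.units ha hg with h | h | h
  · exact Or.inl h
  · exact absurd h hg1
  · exact Or.inr h

theorem Good.sound (hM : Good M) (w : List ℕ) (t : Set (List ℕ)) (hU : CU (FT0 M) w t)
    (hG : FG M → CT (FT0 M) w t ∧ CP (FT0 M) w t) (hT0 : FT0 M → CT False w t)
    (hT1 : FT1 M → CT True w t) (hL0 : FL0 M → CL False w t) (hL1 : FL1 M → CL True w t)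
    (hR0 : FR0 M → CR False w t) (hR1 : FR1 M → CR True w t) : MValid M w t := by
  classical
  intro φ hφ s hs
  by_cases hu : s * s = 1
  · have hun : ∀ u, Lev (FT0 M) w u → ∀ x ∈ u, ∃ a ∈ φ x, a * a = 1 := by
      intro u hl x hx
      by_cases h0 : FT0 M
      · exact hM.unit_of_mem hu hs x (hl h0 x hx)
      · obtain ⟨a, ha⟩ := hφ x
        exact ⟨a, ha, by by_contra h; exact h0 ⟨a, h⟩⟩
    by_cases hg : FG M
    · obtain ⟨c1, c2⟩ := hG hg
      obtain ⟨g, hg1, hg⟩ := hg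
      by_cases hb : ∃ x ∈ w, (1 : M) ∈ φ x ∧ g ∈ φ x
      · obtain ⟨x, hx, b1, b2⟩ := hb
        obtain ⟨u, hut, hl, hxu⟩ := c1 x hx
        obtain ⟨u1, u2, rfl⟩ := List.append_of_mem hxu
        obtain ⟨p, hp, e1⟩ := MVal_exists φ (fun a => a * a = 1) (mul_one 1)
          (fun a b => hM.mul_unit) u1 fun y hy => hun _ hl y (by simp [hy])
        obtain ⟨q, hq, e2⟩ := MVal_exists φ (fun a => a * a = 1) (mul_one 1)
          (fun a b => hM.mul_unit) u2 fun y hy => hun _ hl y (by simp [hy])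
        refine ⟨_, hut, (MVal_split φ u1 u2 x s).mpr ?_⟩
        rcases hM.unit_cases hg1 hg e1 with rfl | rfl <;>
          rcases hM.unit_cases hg1 hg e2 with rfl | rfl <;>
          rcases hM.unit_cases hg1 hg hu with rfl | rfl
        all_goals first
          | (refine ⟨_, hp, _, b1, _, hq, ?_⟩; simp [hg]; done)
          | (refine ⟨_, hp, _, b2, _, hq, ?_⟩; simp [hg])
      · set ψ : ℕ → ZMod 2 := fun x => if (1 : M) ∈ φ x then 0 else 1 with hψ
        obtain ⟨u, hut, hl, e⟩ := c2 ψ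
        refine ⟨u, hut, ?_⟩
        have e1 : s = gam g (w.map ψ).sum := by
          refine hM.eq_gam hg φ ψ w (fun x hx a ha h1 => ?_) s hs hu
          rcases hM.unit_cases hg1 hg h1 with rfl | rfl
          · simp [hψ, ha, gam]
          · have : (1 : M) ∉ φ x := fun h => hb ⟨x, hx, h, ha⟩
            simp [hψ, this, gam]
        rw [e1, ← e]
        refine gam_mem_MVal hg φ ψ u fun x hx => ?_
        obtain ⟨a, ha, h1⟩ := hun u hl x hx
        by_cases h2 : (1 : M) ∈ φ x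
        · simp [hψ, h2, gam]
        · rcases hM.unit_cases hg1 hg h1 with rfl | rfl
          · exact absurd ha h2
          · simpa [hψ, h2, gam] using ha
    · have hone : ∀ a : M, a * a = 1 → a = 1 := fun a ha => by
        by_contra h; exact hg ⟨a, h, ha⟩
      obtain ⟨u, hut, hl⟩ := hU
      obtain ⟨p, hp, e⟩ := MVal_exists φ (fun a => a = 1) rfl
        (fun a b ha hb => by rw [ha, hb, mul_one]) u fun x hx => by
          obtain ⟨a, ha, h1⟩ := hun u hl x hx
          exact ⟨a, ha, hone a h1⟩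
      exact ⟨u, hut, by rw [hone s hu, ← e]; exact hp⟩
  · have hnb : ∀ u, Lev (∃ z, Bl s z) w u → ∀ y ∈ u, ∃ a ∈ φ y, ¬ Bl s a := by
      intro u hl y hy
      by_cases h0 : ∃ z, Bl s z
      · exact hM.not_bl_of_mem hu hs y (hl h0 y hy)
      · obtain ⟨a, ha⟩ := hφ y
        exact ⟨a, ha, fun h => h0 ⟨a, h⟩⟩
    by_cases hlm : ∃ a, LM s a
    · obtain ⟨a0, ha0⟩ := hlm
      have hc : CL (∃ z, Bl s z) w t := by
        by_cases h0 : ∃ z, Bl s z
        · obtain ⟨z, hz⟩ := h0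
          intro w1 x w2 e
          obtain ⟨u1, u2, c1, c2, c3⟩ := hL1 ⟨s, a0, z, hu, ha0, hz⟩ w1 x w2 e
          exact ⟨u1, u2, c1, fun _ => c2 trivial, c3⟩
        · intro w1 x w2 e
          obtain ⟨u1, u2, c1, -, c3⟩ := hL0 ⟨s, a0, hu, ha0⟩ w1 x w2 e
          exact ⟨u1, u2, c1, fun h => absurd h h0, c3⟩
      obtain ⟨w1, x, w2, e, h1, h2⟩ := hM.firstL hu hs
      obtain ⟨u1, u2, c1, c2, c3⟩ := hc w1 x w2 e
      refine ⟨_, c1, mem_MVal_of_fix h1 (fun y hy => ?_) fun y hy => ?_⟩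
      · obtain ⟨a, ha, h3, -⟩ := h2 y (c3 y hy)
        exact ⟨a, ha, h3⟩
      · obtain ⟨a, ha, h3⟩ := hnb _ c2 y (by simp [hy])
        exact ⟨a, ha, hM.right_fix hu h3 fun h => hM.not_lm_rm hu ha0 h⟩
    · by_cases hrm : ∃ a, RM s a
      · obtain ⟨a0, ha0⟩ := hrm
        have hc : CR (∃ z, Bl s z) w t := by
          by_cases h0 : ∃ z, Bl s z
          · obtain ⟨z, hz⟩ := h0
            intro w1 x w2 e
            obtain ⟨u1, u2, c1, c2, c3⟩ := hR1 ⟨s, a0, z, hu, ha0, hz⟩ w1 x w2 e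
            exact ⟨u1, u2, c1, fun _ => c2 trivial, c3⟩
          · intro w1 x w2 e
            obtain ⟨u1, u2, c1, -, c3⟩ := hR0 ⟨s, a0, hu, ha0⟩ w1 x w2 e
            exact ⟨u1, u2, c1, fun h => absurd h h0, c3⟩
        obtain ⟨w1, x, w2, e, h1, h2⟩ := hM.lastR hu hs
        obtain ⟨u1, u2, c1, c2, c3⟩ := hc w1 x w2 e
        refine ⟨_, c1, mem_MVal_of_fix h1 (fun y hy => ?_) fun y hy => ?_⟩
        · obtain ⟨a, ha, h3⟩ := hnb _ c2 y (by simp [hy])
          exact ⟨a, ha, hM.left_fix hu h3 fun h => hlm ⟨a, h⟩⟩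
        · obtain ⟨a, ha, h3, -⟩ := h2 y (c3 y hy)
          exact ⟨a, ha, h3⟩
      · have hc : CT (∃ z, Bl s z) w t := by
          by_cases h0 : ∃ z, Bl s z
          · obtain ⟨z, hz⟩ := h0
            intro x hx
            obtain ⟨u, c1, c2, c3⟩ := hT1 ⟨s, z, hu, hz⟩ x hx
            exact ⟨u, c1, fun _ => c2 trivial, c3⟩
          · intro x hx
            obtain ⟨u, c1, -, c3⟩ := hT0 ⟨s, hu⟩ x hx
            exact ⟨u, c1, fun h => absurd h h0, c3⟩
        obtain ⟨w1, x, w2, e, h1, -⟩ := hM.firstL hu hs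
        obtain ⟨u, c1, c2, c3⟩ := hc x (by simp [e])
        obtain ⟨u1, u2, rfl⟩ := List.append_of_mem c3
        refine ⟨_, c1, mem_MVal_of_fix h1 (fun y hy => ?_) fun y hy => ?_⟩
        · obtain ⟨a, ha, h3⟩ := hnb _ c2 y (by simp [hy])
          exact ⟨a, ha, hM.left_fix hu h3 fun h => hlm ⟨a, h⟩⟩
        · obtain ⟨a, ha, h3⟩ := hnb _ c2 y (by simp [hy])
          exact ⟨a, ha, hM.right_fix hu h3 fun h => hrm ⟨a, h⟩⟩

theorem MVal_one_of (φ : ℕ → Set M) (u : List ℕ) (h : ∀ x ∈ u, (1 : M) ∈ φ x) :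
    (1 : M) ∈ MVal φ u := by
  obtain ⟨p, hp, e⟩ := MVal_exists φ (fun a => a = 1) rfl
    (fun a b ha hb => by rw [ha, hb, mul_one]) u fun x hx => ⟨1, h x hx, rfl⟩
  exact e ▸ hp

theorem eq_one_of_MVal (φ : ℕ → Set M) (u : List ℕ) (h : ∀ x ∈ u, ∀ a ∈ φ x, a = 1) :
    ∀ s ∈ MVal φ u, s = 1 :=
  MVal_forall φ (fun a => a = 1) rfl (fun a b ha hb => by rw [ha, hb, mul_one]) u h

theorem Good.cu (hM : Good M) {w : List ℕ} {t : Set (List ℕ)} (h : MValid M w t) :
    CU (FT0 M) w t := by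
  classical
  by_cases h0 : FT0 M
  · obtain ⟨z, hz⟩ := h0
    obtain ⟨u, hu, h1⟩ := h (fun x => if x ∈ w then {1} else {z})
      (fun x => by split_ifs <;> simp) 1 (MVal_one_of _ _ fun x hx => by simp [hx])
    refine ⟨u, hu, fun _ x hx => ?_⟩
    obtain ⟨a, ha, h2⟩ := hM.unit_of_mem (mul_one 1) h1 x hx
    by_contra h3
    simp only [h3, if_false, Set.mem_singleton_iff] at ha
    exact hz (ha ▸ h2)
  · obtain ⟨u, hu, -⟩ := h (fun _ => {1}) (fun x => by simp) 1 (MVal_one_of _ _ fun x hx => rfl)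
    exact ⟨u, hu, fun h => absurd h h0⟩

/-- Covering a letter, for a target `s ≠ 1` and a filler `z` for the letters outside `w`. -/
theorem ct_aux {w : List ℕ} {t : Set (List ℕ)} (h : MValid M w t) (b : Prop) (s z : M)
    (hs : s ≠ 1) (hz : ¬ b → z = 1)
    (hb : b → ∀ (φ : ℕ → Set M) u, s ∈ MVal φ u → ∀ y ∈ u, ∃ a ∈ φ y, a ≠ z) : CT b w t := by
  classical
  intro x hx
  obtain ⟨w1, w2, rfl⟩ := List.append_of_mem hx
  obtain ⟨u, hu, h1⟩ := h (fun y => if y = x then {1, s} else if y ∈ w1 ++ x :: w2 then {1} else {z})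
    (fun x => by split_ifs <;> simp) s (by
      refine (MVal_split _ w1 w2 x s).mpr ⟨1, MVal_one_of _ _ fun y hy => ?_, s, by simp, 1,
        MVal_one_of _ _ fun y hy => ?_, by simp⟩
      · by_cases h : y = x <;> simp [h, hy]
      · by_cases h : y = x <;> simp [h, hy])
  have hl : Lev b (w1 ++ x :: w2) u := by
    intro hb' y hy
    obtain ⟨a, ha, h2⟩ := hb hb' _ u h1 y hy
    by_contra h3
    have h4 : y ≠ x := fun e => h3 (by simp [e])
    simp only [h4, h3, if_false, Set.mem_singleton_iff] at ha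
    exact h2 ha
  refine ⟨u, hu, hl, ?_⟩
  by_contra hxu
  refine hs (eq_one_of_MVal _ u (fun y hy a ha => ?_) s h1)
  have h4 : y ≠ x := fun e => hxu (e ▸ hy)
  simp only [h4, if_false] at ha
  split_ifs at ha with h5
  · exact ha
  · rw [show a = z from ha]
    exact hz fun hb' => h5 (hl hb' y hy)

theorem Good.ct0 {w : List ℕ} {t : Set (List ℕ)} (h : MValid M w t) (h0 : FT0 M) :
    CT False w t := by
  obtain ⟨s, hs⟩ := h0
  exact ct_aux h False s 1 (fun e => hs (by rw [e, mul_one])) (fun _ => rfl) fun h => h.elim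

theorem Good.ct1 (hM : Good M) {w : List ℕ} {t : Set (List ℕ)} (h : MValid M w t) (h0 : FT1 M) :
    CT True w t := by
  obtain ⟨s, z, hs, hz⟩ := h0
  refine ct_aux h True s z (fun e => hs (by rw [e, mul_one])) (fun h => absurd trivial h)
    fun _ φ u hu y hy => ?_
  obtain ⟨a, ha, h1⟩ := hM.not_bl_of_mem hs hu y hy
  exact ⟨a, ha, fun e => h1 (e ▸ hz)⟩

theorem Good.ctg (hM : Good M) {w : List ℕ} {t : Set (List ℕ)} (h : MValid M w t) (h0 : FG M) :
    CT (FT0 M) w t := by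
  classical
  obtain ⟨g, hg1, hg⟩ := h0
  refine ct_aux h (FT0 M) g (if h : FT0 M then h.choose else 1) hg1 (fun h => dif_neg h)
    fun hb φ u hu y hy => ?_
  obtain ⟨a, ha, h1⟩ := hM.unit_of_mem hg hu y hy
  rw [dif_pos hb]
  exact ⟨a, ha, fun e => hb.choose_spec (e ▸ h1)⟩

theorem Good.cp (hM : Good M) {w : List ℕ} {t : Set (List ℕ)} (h : MValid M w t) (h0 : FG M) :
    CP (FT0 M) w t := by
  classical
  obtain ⟨g, hg1, hg⟩ := h0
  intro ψ
  set φ : ℕ → Set M := fun x =>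
    if h : FT0 M ∧ x ∉ w then {h.1.choose} else {gam g (ψ x)} with hφ
  obtain ⟨u, hu, h1⟩ := h φ (fun x => by simp only [hφ]; split_ifs <;> simp) _
    (gam_mem_MVal hg φ ψ w fun x hx => by simp [hφ, hx])
  have hl : Lev (FT0 M) w u := by
    intro hb y hy
    obtain ⟨a, ha, h2⟩ := hM.unit_of_mem (gam_sq hg _) h1 y hy
    by_contra h3
    simp only [hφ, dif_pos (And.intro hb h3), Set.mem_singleton_iff] at ha
    exact hb.choose_spec (ha ▸ h2)
  refine ⟨u, hu, hl, (gam_inj hg1 (hM.eq_gam hg φ ψ u (fun x hx a ha _ => ?_) _ h1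
    (gam_sq hg _))).symm⟩
  have : ¬ (FT0 M ∧ x ∉ w) := fun h => h.2 (hl h.1 x hx)
  simpa [hφ, this] using ha

theorem Good.cl_aux (hM : Good M) {w : List ℕ} {t : Set (List ℕ)} (h : MValid M w t) (b : Prop)
    {s s' z : M} (hs : s * s ≠ 1) (hs' : LM s s') (hz : Bl s z ∨ z = s') (hb : b → Bl s z) :
    CL b w t := by
  intro w1 x w2 e
  set φ : ℕ → Set M := fun y =>
    {a | (a = 1 ∧ y ∈ w1) ∨ (a = s ∧ y = x) ∨ (a = s' ∧ y ∈ w2) ∨ (a = z ∧ y ∉ w)} with hφ
  have hs1 : s ≠ 1 := fun e => hs (by rw [e, mul_one])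
  have hzs : z * s ≠ s := by
    rcases hz with hz | rfl
    · rw [hz.1]; exact hz.2.2
    · rw [hs'.1]; exact hs'.2.2
  obtain ⟨u, hu, h1⟩ := h φ (fun y => by
      by_cases hy : y ∈ w
      · rw [e] at hy
        simp only [List.mem_append, List.mem_cons] at hy
        rcases hy with hy | hy | hy
        · exact ⟨1, Or.inl ⟨rfl, hy⟩⟩
        · exact ⟨s, Or.inr (Or.inl ⟨rfl, hy⟩)⟩
        · exact ⟨s', Or.inr (Or.inr (Or.inl ⟨rfl, hy⟩))⟩
      · exact ⟨z, Or.inr (Or.inr (Or.inr ⟨rfl, hy⟩))⟩) s (by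
      rw [e]
      exact mem_MVal_of_fix (Or.inr (Or.inl ⟨rfl, rfl⟩))
        (fun y hy => ⟨1, Or.inl ⟨rfl, hy⟩, one_mul s⟩)
        fun y hy => ⟨s', Or.inr (Or.inr (Or.inl ⟨rfl, hy⟩)), hs'.2.1⟩)
  obtain ⟨u1, y, u2, rfl, h2, h3⟩ := hM.firstL hs h1
  have hy : y = x := by
    rcases h2 with h2 | h2 | h2 | h2
    · exact absurd h2.1 hs1
    · exact h2.2
    · exact absurd h2.1.symm hs'.2.2
    · exact absurd (by rw [← h2.1, hM.idem hs]) hzs
  subst hy
  refine ⟨u1, u2, hu, fun hb' v hv => ?_, fun v hv => ?_⟩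
  · obtain ⟨a, ha, h4⟩ := hM.not_bl_of_mem hs h1 v hv
    rcases ha with ha | ha | ha | ha
    · simp [e, ha.2]
    · simp [e, ha.2]
    · simp [e, ha.2]
    · exact absurd (ha.1 ▸ hb hb') h4
  · obtain ⟨a, ha, h4, h5⟩ := h3 v hv
    rcases ha with ha | ha | ha | ha
    · exact ha.2
    · exact absurd ha.1 h5
    · rw [ha.1, hs'.1] at h4
      exact absurd h4 hs'.2.2
    · exact absurd (ha.1 ▸ h4) hzs

theorem Good.cr_aux (hM : Good M) {w : List ℕ} {t : Set (List ℕ)} (h : MValid M w t) (b : Prop)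
    {s s' z : M} (hs : s * s ≠ 1) (hs' : RM s s') (hz : Bl s z ∨ z = s') (hb : b → Bl s z) :
    CR b w t := by
  intro w1 x w2 e
  set φ : ℕ → Set M := fun y =>
    {a | (a = s' ∧ y ∈ w1) ∨ (a = s ∧ y = x) ∨ (a = 1 ∧ y ∈ w2) ∨ (a = z ∧ y ∉ w)} with hφ
  have hs1 : s ≠ 1 := fun e => hs (by rw [e, mul_one])
  have hzs : s * z ≠ s := by
    rcases hz with hz | rfl
    · rw [hz.2.1]; exact hz.2.2
    · rw [hs'.2.1]; exact hs'.2.2
  obtain ⟨u, hu, h1⟩ := h φ (fun y => by
      by_cases hy : y ∈ w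
      · rw [e] at hy
        simp only [List.mem_append, List.mem_cons] at hy
        rcases hy with hy | hy | hy
        · exact ⟨s', Or.inl ⟨rfl, hy⟩⟩
        · exact ⟨s, Or.inr (Or.inl ⟨rfl, hy⟩)⟩
        · exact ⟨1, Or.inr (Or.inr (Or.inl ⟨rfl, hy⟩))⟩
      · exact ⟨z, Or.inr (Or.inr (Or.inr ⟨rfl, hy⟩))⟩) s (by
      rw [e]
      exact mem_MVal_of_fix (Or.inr (Or.inl ⟨rfl, rfl⟩))
        (fun y hy => ⟨s', Or.inl ⟨rfl, hy⟩, hs'.1⟩)
        fun y hy => ⟨1, Or.inr (Or.inr (Or.inl ⟨rfl, hy⟩)), mul_one s⟩)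
  obtain ⟨u1, y, u2, rfl, h2, h3⟩ := hM.lastR hs h1
  have hy : y = x := by
    rcases h2 with h2 | h2 | h2 | h2
    · exact absurd h2.1.symm hs'.2.2
    · exact h2.2
    · exact absurd h2.1 hs1
    · exact absurd (by rw [← h2.1, hM.idem hs]) hzs
  subst hy
  refine ⟨u1, u2, hu, fun hb' v hv => ?_, fun v hv => ?_⟩
  · obtain ⟨a, ha, h4⟩ := hM.not_bl_of_mem hs h1 v hv
    rcases ha with ha | ha | ha | ha
    · simp [e, ha.2]
    · simp [e, ha.2]
    · simp [e, ha.2]
    · exact absurd (ha.1 ▸ hb hb') h4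
  · obtain ⟨a, ha, h4, h5⟩ := h3 v hv
    rcases ha with ha | ha | ha | ha
    · rw [ha.1, hs'.2.1] at h4
      exact absurd h4 hs'.2.2
    · exact absurd ha.1 h5
    · exact ha.2
    · exact absurd (ha.1 ▸ h4) hzs

end

/-- Decidable level check. -/
def levb (b : Bool) (w u : List ℕ) : Bool := !b || u.all fun x => x ∈ w
/-- Decidable form of `CU`. -/
def dCU (b : Bool) (w : List ℕ) (L : List (List ℕ)) : Bool := L.any (levb b w)
/-- Decidable form of `CT`. -/
def dCT (b : Bool) (w : List ℕ) (L : List (List ℕ)) : Bool :=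
  w.all fun x => L.any fun u => levb b w u && decide (x ∈ u)
/-- Decidable form of `CL`. -/
def dCL (b : Bool) (w : List ℕ) (L : List (List ℕ)) : Bool :=
  (List.range w.length).all fun i => L.any fun u => levb b w u &&
    (List.range u.length).any fun j => decide (u[j]? = w[i]?) &&
      (u.take j).all fun y => y ∈ w.take i
/-- Decidable form of `CR`. -/
def dCR (b : Bool) (w : List ℕ) (L : List (List ℕ)) : Bool :=
  (List.range w.length).all fun i => L.any fun u => levb b w u &&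
    (List.range u.length).any fun j => decide (u[j]? = w[i]?) &&
      (u.drop (j + 1)).all fun y => y ∈ w.drop (i + 1)
/-- Decidable sufficient condition for `CP`. -/
def dCP (b : Bool) (w : List ℕ) (L : List (List ℕ)) : Bool :=
  L.any fun u => levb b w u && (u ++ w).all fun x => u.count x % 2 = w.count x % 2

theorem lev_of {b : Bool} {c : Prop} (hc : c → b = true) {w u : List ℕ} (h : levb b w u = true) :
    Lev c w u := by
  intro h1 x hx
  simp only [levb, hc h1, Bool.not_true, Bool.false_or, List.all_eq_true, decide_eq_true_eq] at h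
  exact h x hx

theorem cu_of {b : Bool} {c : Prop} (hc : c → b = true) {w : List ℕ} {L : List (List ℕ)}
    (h : dCU b w L = true) : CU c w {u | u ∈ L} := by
  obtain ⟨u, hu, h1⟩ := List.any_eq_true.mp h
  exact ⟨u, hu, lev_of hc h1⟩

theorem ct_of {b : Bool} {c : Prop} (hc : c → b = true) {w : List ℕ} {L : List (List ℕ)}
    (h : dCT b w L = true) : CT c w {u | u ∈ L} := by
  intro x hx
  obtain ⟨u, hu, h1⟩ := List.any_eq_true.mp (List.all_eq_true.mp h x hx)
  simp only [Bool.and_eq_true, decide_eq_true_eq] at h1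
  exact ⟨u, hu, lev_of hc h1.1, h1.2⟩

theorem split_at {u : List ℕ} {j x : ℕ} (h : u[j]? = some x) :
    u.take j ++ x :: u.drop (j + 1) = u := by
  obtain ⟨hj, e⟩ := List.getElem?_eq_some_iff.mp h
  rw [← e, ← List.drop_eq_getElem_cons hj, List.take_append_drop]

theorem cl_of {b : Bool} {c : Prop} (hc : c → b = true) {w : List ℕ} {L : List (List ℕ)}
    (h : dCL b w L = true) : CL c w {u | u ∈ L} := by
  rintro w1 x w2 rfl
  obtain ⟨u, hu, h1⟩ := List.any_eq_true.mp
    (List.all_eq_true.mp h w1.length (by simp))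
  simp only [Bool.and_eq_true, List.any_eq_true, decide_eq_true_eq, List.all_eq_true] at h1
  obtain ⟨h1, j, -, h2, h3⟩ := h1
  have e : u[j]? = some x := by rw [h2]; simp
  refine ⟨u.take j, u.drop (j + 1), ?_, ?_, fun y hy => by simpa using h3 y hy⟩
  · rw [split_at e]; exact hu
  · rw [split_at e]; exact lev_of hc h1

theorem cr_of {b : Bool} {c : Prop} (hc : c → b = true) {w : List ℕ} {L : List (List ℕ)}
    (h : dCR b w L = true) : CR c w {u | u ∈ L} := by
  rintro w1 x w2 rfl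
  obtain ⟨u, hu, h1⟩ := List.any_eq_true.mp
    (List.all_eq_true.mp h w1.length (by simp))
  simp only [Bool.and_eq_true, List.any_eq_true, decide_eq_true_eq, List.all_eq_true] at h1
  obtain ⟨h1, j, -, h2, h3⟩ := h1
  have e : u[j]? = some x := by rw [h2]; simp
  refine ⟨u.take j, u.drop (j + 1), ?_, ?_, fun y hy => ?_⟩
  · rw [split_at e]; exact hu
  · rw [split_at e]; exact lev_of hc h1
  · have := h3 y hy
    rw [show w1 ++ x :: w2 = (w1 ++ [x]) ++ w2 by simp, List.drop_left' (by simp)] at this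
    exact this

theorem sum_map_eq (ψ : ℕ → ZMod 2) (u : List ℕ) (A : Finset ℕ) (h : ∀ x ∈ u, x ∈ A) :
    (u.map ψ).sum = ∑ x ∈ A, (u.count x : ZMod 2) * ψ x := by
  induction u with
  | nil => simp
  | cons y u ih =>
    rw [List.map_cons, List.sum_cons, ih fun x hx => h x (by simp [hx])]
    simp only [List.count_cons, Nat.cast_add, add_mul, Finset.sum_add_distrib]
    rw [add_comm]
    congr 1
    rw [Finset.sum_eq_single y]
    · simp
    · intro x _ hx
      simp [Ne.symm hx]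
    · intro hy
      exact absurd (h y (by simp)) hy

theorem sum_map_congr (ψ : ℕ → ZMod 2) (u w : List ℕ)
    (h : ∀ x, u.count x % 2 = w.count x % 2) : (u.map ψ).sum = (w.map ψ).sum := by
  rw [sum_map_eq ψ u (u ++ w).toFinset (by simp +contextual),
    sum_map_eq ψ w (u ++ w).toFinset (by simp +contextual)]
  refine Finset.sum_congr rfl fun x _ => ?_
  rw [(ZMod.natCast_eq_natCast_iff' _ _ 2).mpr (h x)]

theorem cp_of {b : Bool} {c : Prop} (hc : c → b = true) {w : List ℕ} {L : List (List ℕ)}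
    (h : dCP b w L = true) : CP c w {u | u ∈ L} := by
  intro ψ
  obtain ⟨u, hu, h1⟩ := List.any_eq_true.mp h
  simp only [Bool.and_eq_true, decide_eq_true_eq, List.all_eq_true] at h1
  refine ⟨u, hu, lev_of hc h1.1, sum_map_congr ψ u w fun x => ?_⟩
  by_cases hx : x ∈ u ++ w
  · exact h1.2 x hx
  · rw [List.mem_append, not_or] at hx
    rw [List.count_eq_zero_of_not_mem hx.1, List.count_eq_zero_of_not_mem hx.2]

theorem Good.check {M : Type} [Monoid M] (hM : Good M) (w : List ℕ) (L : List (List ℕ))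
    (bU bT bL bR : Bool) (hU : FT0 M → bU = true) (hT : FT1 M → bT = true)
    (hL : FL1 M → bL = true) (hR : FR1 M → bR = true) (cU : dCU bU w L = true)
    (cG : FG M → dCT bU w L = true ∧ dCP bU w L = true) (cT : FT0 M → dCT bT w L = true)
    (cL : FL0 M → dCL bL w L = true) (cR : FR0 M → dCR bR w L = true) :
    MValid M w {u | u ∈ L} := by
  refine hM.sound w _ (cu_of hU cU) (fun h => ⟨ct_of hU (cG h).1, cp_of hU (cG h).2⟩)
    (fun h => ct_of False.elim (cT h)) (fun h => ct_of (fun _ => hT h) (cT ?_))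
    (fun h => cl_of False.elim (cL h)) (fun h => cl_of (fun _ => hL h) (cL ?_))
    (fun h => cr_of False.elim (cR h)) (fun h => cr_of (fun _ => hR h) (cR ?_))
  · obtain ⟨s, -, h, -⟩ := h; exact ⟨s, h⟩
  · obtain ⟨s, a, -, h, h', -⟩ := h; exact ⟨s, a, h, h'⟩
  · obtain ⟨s, a, -, h, h', -⟩ := h; exact ⟨s, a, h, h'⟩

end Pool.Agent.P.MP_485d6e_al
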