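import Pool.Agent.P.MP_485d6e_al.FBCrit
import Pool.Agent.P.MP_485d6e_al.Exact

set_option autoImplicit false

namespace Pool.Agent.P.MP_485d6e_al

section MV

variable {M : Type} [Monoid M]

/-- Values of a word in a monoid. -/
def MVal (φ : ℕ → Set M) : List ℕ → Set M
  | [] => {1}
  | x :: u => Set.image2 (fun a b => a * b) (φ x) (MVal φ u)

theorem mem_MVal_append (φ : ℕ → Set M) (u u' : List ℕ) (s : M) :
    s ∈ MVal φ (u ++ u') ↔ ∃ a ∈ MVal φ u, ∃ b ∈ MVal φ u', s = a * b := by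
  induction u generalizing s with
  | nil => simp [MVal]
  | cons x u ih =>
    simp only [List.cons_append, MVal, Set.mem_image2]
    constructor
    · rintro ⟨a, ha, b, hb, rfl⟩
      obtain ⟨c, hc, d, hd, rfl⟩ := (ih b).mp hb
      exact ⟨a * c, ⟨a, ha, c, hc, rfl⟩, d, hd, by simp [mul_assoc]⟩
    · rintro ⟨_, ⟨a, ha, c, hc, rfl⟩, d, hd, rfl⟩
      exact ⟨a, ha, c * d, (ih _).mpr ⟨c, hc, d, hd, rfl⟩, by simp [mul_assoc]⟩

theorem mem_Val_iff_MVal (φ : ℕ → Set M) (u : List ℕ) (hu : u ≠ []) (s : M) :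
    (s : WithOne M) ∈ Val φ u ↔ s ∈ MVal φ u := by
  induction u generalizing s with
  | nil => exact absurd rfl hu
  | cons x u ih =>
    by_cases h : u = []
    · subst h
      simp [Val, MVal]
    · simp only [Val, MVal, Set.mem_image2]
      constructor
      · rintro ⟨a, ha, b, hb, e⟩
        obtain ⟨b, rfl⟩ := exists_coe_of_mem_Val φ u h b hb
        exact ⟨a, ha, b, (ih h b).mp hb, WithOne.coe_inj.mp (by simpa using e)⟩
      · rintro ⟨a, ha, b, hb, rfl⟩
        exact ⟨a, ha, b, (ih h b).mpr hb, by simp⟩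

variable (M) in
/-- Validity with empty words allowed. -/
def MValid (w : List ℕ) (t : Set (List ℕ)) : Prop :=
  ∀ φ : ℕ → Set M, (∀ x, (φ x).Nonempty) → ∀ s ∈ MVal φ w, ∃ u ∈ t, s ∈ MVal φ u

theorem valid_iff_mvalid (w : List ℕ) (t : Set (List ℕ)) (hw : w ≠ []) (ht : ∀ u ∈ t, u ≠ []) :
    Valid M w t ↔ MValid M w t := by
  constructor
  · intro h φ hφ s hs
    obtain ⟨u, hu, h1⟩ := h φ hφ s ((mem_Val_iff_MVal φ w hw s).mpr hs)
    exact ⟨u, hu, (mem_Val_iff_MVal φ u (ht u hu) s).mp h1⟩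
  · intro h φ hφ s hs
    obtain ⟨s, rfl⟩ := exists_coe_of_mem_Val φ w hw s hs
    obtain ⟨u, hu, h1⟩ := h φ hφ s ((mem_Val_iff_MVal φ w hw s).mp hs)
    exact ⟨u, hu, (mem_Val_iff_MVal φ u (ht u hu) s).mpr h1⟩

theorem MVal_filter (φ : ℕ → Set M) (p : ℕ → Bool) (u : List ℕ) :
    MVal φ (u.filter p) = MVal (fun x => if p x then φ x else {1}) u := by
  induction u with
  | nil => rfl
  | cons x u ih =>
    by_cases h : p x
    · simp [List.filter_cons, h, MVal, ih]
    · simp [List.filter_cons, h, MVal, ih]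

theorem MValid.filter {w : List ℕ} {L : List (List ℕ)} (h : MValid M w {u | u ∈ L})
    (p : ℕ → Bool) : MValid M (w.filter p) {u | u ∈ L.map (List.filter p)} := by
  intro φ hφ s hs
  rw [MVal_filter] at hs
  obtain ⟨u, hu, h1⟩ := h _ (fun x => by
    by_cases hx : p x
    · simpa [hx] using hφ x
    · simp [hx]) s hs
  exact ⟨_, List.mem_map.mpr ⟨u, hu, rfl⟩, by rw [MVal_filter]; exact h1⟩

/-- Application of a law, with possibly empty pieces. -/
theorem Closed.law {n : ℕ} {T : Set (List ℕ)} (hT : Closed M n T) (h0 : [] ∉ T)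
    (w : List ℕ) (L : List (List ℕ)) (hL : L ≠ []) (hs : Small n w L)
    (hv : MValid M w {u | u ∈ L}) (P : List (List ℕ))
    (hw : (w.flatMap fun i => P.getD i []) ≠ [])
    (h : ∀ u ∈ L, (u.flatMap fun i => P.getD i []) ∈ T) :
    (w.flatMap fun i => P.getD i []) ∈ T := by
  have e2 : ∀ u : List ℕ, (u.flatMap fun i => P.getD i []) ≠ [] →
      (u.filter fun x => P.getD x [] ≠ []) ≠ [] := by
    intro u hu h1
    apply hu
    rw [List.flatMap_eq_nil_iff]
    intro x hx
    have := List.filter_eq_nil_iff.mp h1 x hx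
    simpa using this
  refine hT.del h0 w L hL hs _ ?_ hw h
  rw [valid_iff_mvalid _ _ (e2 w hw)]
  · exact hv.filter _
  · intro u hu
    obtain ⟨u', hu', rfl⟩ := List.mem_map.mp hu
    exact e2 u' fun h1 => h0 (h1 ▸ h u' hu')

theorem MVal_split (φ : ℕ → Set M) (u1 u2 : List ℕ) (x : ℕ) (s : M) :
    s ∈ MVal φ (u1 ++ x :: u2) ↔
      ∃ p ∈ MVal φ u1, ∃ a ∈ φ x, ∃ q ∈ MVal φ u2, s = p * (a * q) := by
  rw [mem_MVal_append]
  simp only [MVal, Set.mem_image2]
  constructor
  · rintro ⟨p, hp, _, ⟨a, ha, q, hq, rfl⟩, rfl⟩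
    exact ⟨p, hp, a, ha, q, hq, rfl⟩
  · rintro ⟨p, hp, a, ha, q, hq, rfl⟩
    exact ⟨p, hp, _, ⟨a, ha, q, hq, rfl⟩, rfl⟩

theorem MVal_exists (φ : ℕ → Set M) (P : M → Prop) (h1 : P 1)
    (hm : ∀ a b, P a → P b → P (a * b)) (u : List ℕ) (h : ∀ x ∈ u, ∃ a ∈ φ x, P a) :
    ∃ s ∈ MVal φ u, P s := by
  induction u with
  | nil => exact ⟨1, rfl, h1⟩
  | cons x u ih =>
    obtain ⟨a, ha, h2⟩ := h x (by simp)
    obtain ⟨s, hs, h3⟩ := ih fun y hy => h y (by simp [hy])
    exact ⟨a * s, ⟨a, ha, s, hs, rfl⟩, hm _ _ h2 h3⟩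

theorem MVal_forall (φ : ℕ → Set M) (P : M → Prop) (h1 : P 1)
    (hm : ∀ a b, P a → P b → P (a * b)) (u : List ℕ) (h : ∀ x ∈ u, ∀ a ∈ φ x, P a) :
    ∀ s ∈ MVal φ u, P s := by
  induction u with
  | nil => intro s hs; rw [show s = 1 from hs]; exact h1
  | cons x u ih =>
    rintro _ ⟨a, ha, s, hs, rfl⟩
    exact hm _ _ (h x (by simp) a ha) (ih (fun y hy => h y (by simp [hy])) s hs)

end MV

section Good

variable {M : Type} [Monoid M]

variable (M) in
/-- Every product of two elements is one of them or the identity. -/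
def Good : Prop := ∀ a b : M, a * b = a ∨ a * b = b ∨ a * b = 1

variable (hM : Good M)
include hM

theorem Good.idem {a : M} (h : a * a ≠ 1) : a * a = a := by
  rcases hM a a with h1 | h1 | h1
  · exact h1
  · exact h1
  · exact absurd h1 h

theorem Good.unit_left {a b : M} (h : a * b = 1) : a * a = 1 := by
  by_contra h1
  have h2 := hM.idem h1
  have : a = 1 := by
    calc a = a * (a * b) := by rw [h, mul_one]
      _ = 1 := by rw [← mul_assoc, h2, h]
  exact h1 (by rw [this, mul_one])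

theorem Good.unit_right {a b : M} (h : a * b = 1) : b * b = 1 := by
  by_contra h1
  have h2 := hM.idem h1
  have : b = 1 := by
    calc b = (a * b) * b := by rw [h, one_mul]
      _ = 1 := by rw [mul_assoc, h2, h]
  exact h1 (by rw [this, mul_one])

theorem Good.units {a b : M} (ha : a * a = 1) (hb : b * b = 1) : a = 1 ∨ b = 1 ∨ a = b := by
  rcases hM a b with h | h | h
  · right; left
    calc b = (a * a) * b := by rw [ha, one_mul]
      _ = 1 := by rw [mul_assoc, h, ha]
  · left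
    calc a = a * (b * b) := by rw [hb, mul_one]
      _ = 1 := by rw [← mul_assoc, h, hb]
  · right; right
    calc a = a * (b * b) := by rw [hb, mul_one]
      _ = b := by rw [← mul_assoc, h, one_mul]

theorem Good.mul_unit {a b : M} (ha : a * a = 1) (hb : b * b = 1) : (a * b) * (a * b) = 1 := by
  rcases hM.units ha hb with h | h | h
  · rw [h, one_mul, hb]
  · rw [h, mul_one, ha]
  · rw [h, hb, mul_one]

theorem Good.unit_of_mul {a b : M} (h : (a * b) * (a * b) = 1) : a * a = 1 ∧ b * b = 1 :=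
  ⟨hM.unit_left (b := b * (a * b)) (by rw [← mul_assoc]; exact h),
    hM.unit_right (a := a * b * a) (by rw [mul_assoc (a * b)]; exact h)⟩

theorem Good.left_cases {s : M} (hs : s * s ≠ 1) (a : M) : a * s = a ∨ a * s = s := by
  rcases hM a s with h | h | h
  · exact Or.inl h
  · exact Or.inr h
  · exact absurd (hM.unit_right h) hs

theorem Good.right_cases {s : M} (hs : s * s ≠ 1) (a : M) : s * a = s ∨ s * a = a := by
  rcases hM s a with h | h | h
  · exact Or.inl h
  · exact Or.inr h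
  · exact absurd (hM.unit_left h) hs

theorem Good.unit_mul {g s : M} (hg : g * g = 1) (hs : s * s ≠ 1) : g * s = s := by
  rcases hM.left_cases hs g with h | h
  · exfalso
    apply hs
    have : s = 1 := by
      calc s = (g * g) * s := by rw [hg, one_mul]
        _ = 1 := by rw [mul_assoc, h, hg]
    rw [this, mul_one]
  · exact h

theorem Good.mul_unit' {g s : M} (hg : g * g = 1) (hs : s * s ≠ 1) : s * g = s := by
  rcases hM.right_cases hs g with h | h
  · exact h
  · exfalso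
    apply hs
    have : s = 1 := by
      calc s = s * (g * g) := by rw [hg, mul_one]
        _ = 1 := by rw [← mul_assoc, h, hg]
    rw [this, mul_one]

omit hM in
/-- `a` lies strictly below `s`. -/
def Bl (s a : M) : Prop := a * s = a ∧ s * a = a ∧ a ≠ s

omit hM in
/-- `a` is a left mate of `s`. -/
def LM (s a : M) : Prop := a * s = a ∧ s * a = s ∧ a ≠ s

omit hM in
/-- `a` is a right mate of `s`. -/
def RM (s a : M) : Prop := a * s = s ∧ s * a = a ∧ a ≠ s

theorem Good.bl_nonunit {s a : M} (hs : s * s ≠ 1) (h : Bl s a) : a * a ≠ 1 := by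
  intro ha
  have := hM.unit_mul ha hs
  exact h.2.2 (h.1.symm.trans this)

theorem Good.bl_mul {s a : M} (hs : s * s ≠ 1) (h : Bl s a) (x : M) : Bl s (a * x) := by
  rcases hM.right_cases (hM.bl_nonunit hs h) x with h1 | h1
  · rw [h1]; exact h
  · obtain ⟨b1, b2, b3⟩ := h
    have e : x * s ≠ s := by
      intro e
      apply b3
      calc a = a * s := b1.symm
        _ = a * (x * s) := by rw [e]
        _ = s := by rw [← mul_assoc, h1, e]
    rw [h1]
    refine ⟨(hM.left_cases hs x).resolve_right e, ?_, ?_⟩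
    · calc s * x = s * (a * x) := by rw [h1]
        _ = x := by rw [← mul_assoc, b2, h1]
    · rintro rfl
      exact b3 (b1.symm.trans h1)

theorem Good.mul_bl {s a : M} (hs : s * s ≠ 1) (h : Bl s a) (x : M) : Bl s (x * a) := by
  rcases hM.left_cases (hM.bl_nonunit hs h) x with h1 | h1
  · obtain ⟨b1, b2, b3⟩ := h
    have e : s * x ≠ s := by
      intro e
      apply b3
      calc a = s * a := b2.symm
        _ = (s * x) * a := by rw [e]
        _ = s := by rw [mul_assoc, h1, e]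
    rw [h1]
    refine ⟨?_, (hM.right_cases hs x).resolve_left e, ?_⟩
    · calc x * s = (x * a) * s := by rw [h1]
        _ = x := by rw [mul_assoc, b1, h1]
    · rintro rfl
      exact b3 (b2.symm.trans h1)
  · rw [h1]; exact h

theorem Good.not_lm_rm {s a b : M} (hs : s * s ≠ 1) (ha : LM s a) (hb : RM s b) : False := by
  obtain ⟨a1, a2, a3⟩ := ha
  obtain ⟨b1, b2, b3⟩ := hb
  rcases hM a b with h | h | h
  · apply b3
    calc b = s * b := b2.symm
      _ = (s * a) * b := by rw [a2]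
      _ = s := by rw [mul_assoc, h, a2]
  · apply a3
    calc a = a * s := a1.symm
      _ = a * (b * s) := by rw [b1]
      _ = s := by rw [← mul_assoc, h, b1]
  · have := hM.unit_mul (hM.unit_left h) hs
    exact a3 (a1.symm.trans this)

theorem Good.right_fix {s a : M} (hs : s * s ≠ 1) (h1 : ¬ Bl s a) (h2 : ¬ RM s a) :
    s * a = s := by
  by_contra h
  have e := (hM.right_cases hs a).resolve_left h
  have ne : a ≠ s := fun e' => h (by rw [e', hM.idem hs])
  rcases hM.left_cases hs a with h3 | h3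
  · exact h1 ⟨h3, e, ne⟩
  · exact h2 ⟨h3, e, ne⟩

theorem Good.left_fix {s a : M} (hs : s * s ≠ 1) (h1 : ¬ Bl s a) (h2 : ¬ LM s a) :
    a * s = s := by
  by_contra h
  have e := (hM.left_cases hs a).resolve_right h
  have ne : a ≠ s := fun e' => h (by rw [e', hM.idem hs])
  rcases hM.right_cases hs a with h3 | h3
  · exact h2 ⟨e, h3, ne⟩
  · exact h1 ⟨e, h3, ne⟩

theorem Good.not_bl_of_mem {s : M} (hs : s * s ≠ 1) {φ : ℕ → Set M} {w : List ℕ}
    (h : s ∈ MVal φ w) : ∀ y ∈ w, ∃ a ∈ φ y, ¬ Bl s a := by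
  intro y hy
  obtain ⟨u1, u2, rfl⟩ := List.append_of_mem hy
  obtain ⟨p, -, a, ha, q, -, e⟩ := (MVal_split φ u1 u2 y s).mp h
  refine ⟨a, ha, fun hb => ?_⟩
  have := hM.mul_bl hs (hM.bl_mul hs hb q) p
  rw [← e] at this
  exact this.2.2 rfl

theorem Good.unit_of_mem {s : M} (hs : s * s = 1) {φ : ℕ → Set M} {w : List ℕ}
    (h : s ∈ MVal φ w) : ∀ y ∈ w, ∃ a ∈ φ y, a * a = 1 := by
  intro y hy
  obtain ⟨u1, u2, rfl⟩ := List.append_of_mem hy
  obtain ⟨p, -, a, ha, q, -, e⟩ := (MVal_split φ u1 u2 y s).mp h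
  rw [e] at hs
  exact ⟨a, ha, (hM.unit_of_mul (hM.unit_of_mul hs).2).1⟩

theorem Good.firstL {s : M} (hs : s * s ≠ 1) {φ : ℕ → Set M} {w : List ℕ}
    (h : s ∈ MVal φ w) : ∃ w1 x w2, w = w1 ++ x :: w2 ∧ s ∈ φ x ∧
      ∀ y ∈ w1, ∃ a ∈ φ y, a * s = s ∧ a ≠ s := by
  induction w with
  | nil =>
    have : s = 1 := h
    exact absurd (by rw [this, mul_one]) hs
  | cons x w ih =>
    obtain ⟨a, ha, b, hb, e⟩ := h
    simp only at e
    by_cases h1 : a = s
    · exact ⟨[], x, w, rfl, h1 ▸ ha, by simp⟩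
    · have h2 : b = s := by
        rcases hM a b with h2 | h2 | h2
        · exact absurd (h2.symm.trans e) h1
        · exact h2.symm.trans e
        · exact absurd (by rw [← e, h2, mul_one]) hs
      subst h2
      obtain ⟨w1, y, w2, rfl, h3, h4⟩ := ih hb
      refine ⟨x :: w1, y, w2, rfl, h3, fun z hz => ?_⟩
      rcases List.mem_cons.mp hz with rfl | hz
      · exact ⟨a, ha, e, h1⟩
      · exact h4 z hz

theorem Good.lastR {s : M} (hs : s * s ≠ 1) {φ : ℕ → Set M} {w : List ℕ}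
    (h : s ∈ MVal φ w) : ∃ w1 x w2, w = w1 ++ x :: w2 ∧ s ∈ φ x ∧
      ∀ y ∈ w2, ∃ a ∈ φ y, s * a = s ∧ a ≠ s := by
  induction w using List.reverseRecOn with
  | nil =>
    have : s = 1 := h
    exact absurd (by rw [this, mul_one]) hs
  | append_singleton w x ih =>
    obtain ⟨b, hb, a, ha, q, hq, e⟩ := (MVal_split φ w [] x s).mp h
    have : q = 1 := hq
    rw [this, mul_one] at e
    by_cases h1 : a = s
    · exact ⟨w, x, [], rfl, h1 ▸ ha, by simp⟩
    · have h2 : b = s := by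
        rcases hM b a with h2 | h2 | h2
        · exact h2.symm.trans e.symm
        · exact absurd (h2.symm.trans e.symm) h1
        · exact absurd (by rw [e, h2, mul_one]) hs
      subst h2
      obtain ⟨w1, y, w2, rfl, h3, h4⟩ := ih hb
      refine ⟨w1, y, w2 ++ [x], by simp, h3, fun z hz => ?_⟩
      rcases List.mem_append.mp hz with hz | hz
      · exact h4 z hz
      · rw [List.mem_singleton.mp hz]
        exact ⟨a, ha, e.symm, h1⟩

omit hM in
theorem mem_MVal_of_fix {s : M} {φ : ℕ → Set M} {u1 u2 : List ℕ} {x : ℕ} (hx : s ∈ φ x)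
    (h1 : ∀ y ∈ u1, ∃ a ∈ φ y, a * s = s) (h2 : ∀ y ∈ u2, ∃ a ∈ φ y, s * a = s) :
    s ∈ MVal φ (u1 ++ x :: u2) := by
  obtain ⟨p, hp, e1⟩ := MVal_exists φ (fun a => a * s = s) (one_mul s)
    (fun a b ha hb => by rw [mul_assoc, hb, ha]) u1 h1
  obtain ⟨q, hq, e2⟩ := MVal_exists φ (fun a => s * a = s) (mul_one s)
    (fun a b ha hb => by rw [← mul_assoc, ha, hb]) u2 h2
  exact (MVal_split φ u1 u2 x s).mpr ⟨p, hp, s, hx, q, hq, by rw [e2, e1]⟩

end Good

end Pool.Agent.P.MP_485d6e_al
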