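import Pool.Agent.P.MP_485d6e_al.Duality
import Pool.Agent.P.MP_485d6e_al.FBCrit
import Pool.Agent.P.MP_485d6e_al.Exact

set_option autoImplicit false

namespace Pool.Agent.P.MP_485d6e_al

section

variable {S : Type} [Semigroup S]

theorem Val_single (ψ : ℕ → S) (u : List ℕ) :
    Val (fun x => {ψ x}) u = {(u.map fun x => (ψ x : WithOne S)).prod} := by
  induction u with
  | nil => simp [Val]
  | cons x u ih => simp [Val, ih]

theorem mem_Val_one (φ : ℕ → Set S) (x : ℕ) (s : S) :
    (s : WithOne S) ∈ Val φ [x] ↔ s ∈ φ x := by simp [Val]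

theorem mem_Val_two (φ : ℕ → Set S) (x y : ℕ) (s : WithOne S) :
    s ∈ Val φ [x, y] ↔ ∃ a ∈ φ x, ∃ b ∈ φ y, s = ((a * b : S) : WithOne S) := by
  simp only [Val, Set.mem_image2, Set.mem_singleton_iff]
  constructor
  · rintro ⟨a, ha, _, ⟨b, hb, _, rfl, rfl⟩, rfl⟩
    exact ⟨a, ha, b, hb, by simp⟩
  · rintro ⟨a, ha, b, hb, rfl⟩
    exact ⟨a, ha, b, ⟨b, hb, 1, rfl, by simp⟩, by simp⟩

theorem exists_prod_coe (f : ℕ → S) (l : List ℕ) (hl : l ≠ []) :
    ∃ a : S, (a : WithOne S) = (l.map fun i => (f i : WithOne S)).prod := by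
  obtain ⟨a, ha⟩ := exists_coe_of_mem_Val (fun x => {f x}) l hl _
    (prod_mem_Val _ f l fun _ _ => rfl)
  exact ⟨a, ha.symm⟩

theorem prod_flatMap {M : Type} [Monoid M] (g : ℕ → M) (σ : ℕ → List ℕ) (u : List ℕ) :
    ((u.flatMap σ).map g).prod = (u.map fun x => ((σ x).map g).prod).prod := by
  induction u with
  | nil => simp
  | cons x u ih => simp [List.flatMap_cons, ih]

variable {z : S} (h3 : ∀ a b c : S, a * b * c = z)
include h3

theorem nil_mul_z (a : S) : a * z = z := by
  have := h3 a (a * a) a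
  rw [← h3 a a a, ← mul_assoc, h3, h3]

theorem nil_z_mul (a : S) : z * a = z := by
  nth_rewrite 1 [← h3 a a a]
  exact h3 _ _ _

theorem nil_ctx (p q : WithOne S) : p * (z : WithOne S) * q = z := by
  have h1 : p * (z : WithOne S) = z := by
    induction p using WithOne.recOneCoe with
    | one => simp
    | coe p => rw [← WithOne.coe_mul, nil_mul_z h3]
  rw [h1]
  induction q using WithOne.recOneCoe with
  | one => simp
  | coe q => rw [← WithOne.coe_mul, nil_z_mul h3]

theorem nil_val_long (φ : ℕ → Set S) (u : List ℕ) (hu : 3 ≤ u.length) (s : WithOne S)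
    (hs : s ∈ Val φ u) : s = z := by
  match u, hu with
  | x :: y :: v :: u, _ =>
    obtain ⟨a, _, _, ⟨b, _, _, ⟨c, _, d, _, rfl⟩, rfl⟩, rfl⟩ := hs
    have := nil_ctx h3 1 d
    rw [one_mul, ← h3 a b c] at this
    rw [← h3 a b c, ← this]
    simp [mul_assoc]

theorem nil_one (hn : ∃ a : S, a ≠ z) (x : ℕ) (t : Set (List ℕ)) (ht : ∀ u ∈ t, u ≠ [])
    (hv : Valid S [x] t) : [x] ∈ t := by
  classical
  obtain ⟨s, hs⟩ : ∃ s : S, ∀ a b, a * b ≠ s := by
    by_contra hc
    push Not at hc
    obtain ⟨a, ha⟩ := hn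
    obtain ⟨b, c, rfl⟩ := hc a
    obtain ⟨d, e, rfl⟩ := hc b
    exact ha (h3 _ _ _)
  have hz : z ≠ s := by rw [← h3 z z z]; exact hs _ _
  obtain ⟨u, hu, h⟩ := hv (fun y => {if y = x then s else z}) (fun _ => by simp) s
    (by simp [Val])
  match u, ht u hu with
  | [y], _ =>
    rw [mem_Val_one] at h
    by_cases e : y = x
    · exact e ▸ hu
    · simp only [e, if_false, Set.mem_singleton_iff] at h
      exact absurd h.symm hz
  | y :: y' :: u, _ =>
    obtain ⟨a, _, b, hb, e⟩ := h
    obtain ⟨b, rfl⟩ := exists_coe_of_mem_Val _ _ (by simp) b hb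
    exact absurd (WithOne.coe_inj.mp (by simpa using e)) (hs a b)

theorem nil_two (h2 : ∀ a : S, a * a = z) (hn : ∃ a b : S, a * b ≠ z) (x y : ℕ)
    (t : Set (List ℕ)) (ht : ∀ u ∈ t, u ≠ []) (hv : Valid S [x, y] t) :
    [x, y] ∈ t ∨ ([y, x] ∈ t ∧ ∀ a b : S, a * b = b * a) := by
  classical
  by_contra hc
  push Not at hc
  have key : ∀ a b : S, a * b ≠ z → [y, x] ∈ t ∧ a * b = b * a := by
    intro a b hab
    have ha : a * b ≠ a := fun e => hab (by rw [← e]; exact h3 _ _ _)
    have hb : a * b ≠ b := fun e => hab (by rw [← e, ← mul_assoc]; exact h3 _ _ _)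
    obtain ⟨u, hu, h⟩ := hv (fun v => {c | (v = x ∧ c = a) ∨ (v = y ∧ c = b) ∨ c = z})
      (fun _ => ⟨z, by simp⟩) ((a * b : S) : WithOne S)
      ((mem_Val_two _ _ _ _).mpr ⟨a, by simp, b, by simp, rfl⟩)
    match u, ht u hu with
    | [v], _ =>
      rw [mem_Val_one] at h
      rcases h with h | h | h
      · exact absurd h.2 ha
      · exact absurd h.2 hb
      · exact absurd h hab
    | [v, v'], _ =>
      obtain ⟨c, hc1, d, hd, e⟩ := (mem_Val_two _ _ _ _).mp h
      have e := WithOne.coe_inj.mp e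
      rcases hc1 with ⟨rfl, rfl⟩ | ⟨rfl, rfl⟩ | rfl <;>
        rcases hd with ⟨rfl, rfl⟩ | ⟨rfl, rfl⟩ | rfl
      · exact absurd (e.trans (h2 _)) hab
      · exact absurd hu hc.1
      · exact absurd (e.trans (nil_mul_z h3 _)) hab
      · exact ⟨hu, e⟩
      · exact absurd (e.trans (h2 _)) hab
      · exact absurd (e.trans (nil_mul_z h3 _)) hab
      all_goals exact absurd (e.trans (nil_z_mul h3 _)) hab
    | v :: v' :: v'' :: u, _ =>
      exact absurd (WithOne.coe_inj.mp (nil_val_long h3 _ _ (by simp) _ h)) hab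
  obtain ⟨a, b, hab⟩ := hn
  obtain ⟨c, d, hcd⟩ := hc.2 (key a b hab).1
  by_cases e : c * d = z
  · by_cases e' : d * c = z
    · exact hcd (e.trans e'.symm)
    · exact hcd (key d c e').2.symm
  · exact hcd (key c d e).2

theorem nil_not_fb (h2 : ∀ a : S, a * a = z)
    (h : ¬ FiniteDuality fun a b : S => a * b ≠ z) :
    ¬ FinitelyBased (Pow.add (S := S)) Pow.mul := by
  classical
  have hloc : ∀ N, ∃ (m : ℕ) (G : Fin m → Fin m → Prop),
      IsEmpty (G →r fun a b : S => a * b ≠ z) ∧ ∀ k ≤ N, ∀ g : Fin k → Fin m,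
        Nonempty ((fun i j => G (g i) (g j)) →r fun a b : S => a * b ≠ z) := by
    intro N
    by_contra hc
    push Not at hc
    apply h
    refine ⟨{D | D.1 ≤ N ∧ IsEmpty (D.2 →r fun a b : S => a * b ≠ z)}, ?_, fun m G => ⟨?_, ?_⟩⟩
    · have : (⋃ k ∈ Set.Iic N, Set.range
          (Sigma.mk (β := fun k : ℕ => Fin k → Fin k → Prop) k)).Finite :=
        (Set.finite_Iic N).biUnion fun k _ => Set.finite_range _
      refine this.subset ?_
      rintro ⟨k, D⟩ ⟨hk, -⟩
      exact Set.mem_biUnion (x := k) hk ⟨D, rfl⟩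
    · rintro ⟨f⟩ D ⟨-, hD⟩
      exact ⟨fun g => hD.false (f.comp g)⟩
    · intro hG
      by_contra hne
      obtain ⟨k, hk, g, hg⟩ := hc m G (not_nonempty_iff.mp hne)
      exact (hG ⟨k, fun i j => G (g i) (g j)⟩ ⟨hk, hg⟩).false ⟨g, fun h => h⟩
  have hedge : ∀ (m : ℕ) (G : Fin m → Fin m → Prop), IsEmpty (G →r fun a b : S => a * b ≠ z) →
      ∃ i j, G i j := by
    intro m G hG
    by_contra hc
    push Not at hc
    exact hG.false ⟨fun _ => z, fun {i j} h => absurd h (hc i j)⟩
  have hn : ∃ a b : S, a * b ≠ z := by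
    obtain ⟨m, G, h1, h2⟩ := hloc 2
    obtain ⟨i, j, hij⟩ := hedge m G h1
    obtain ⟨f⟩ := h2 2 le_rfl ![i, j]
    exact ⟨f 0, f 1, f.map_rel (by simpa using hij)⟩
  have hn1 : ∃ a : S, a ≠ z := by
    obtain ⟨a, b, h⟩ := hn
    exact ⟨_, h⟩
  apply not_fb_of
  intro n
  obtain ⟨m, G, hG1, hG2⟩ := hloc (2 * n + 2)
  set G' : ℕ → ℕ → Prop := fun a b => ∃ i j : Fin m, G i j ∧
    ((a = i ∧ b = j) ∨ ((∀ c d : S, c * d = d * c) ∧ a = j ∧ b = i)) with hG'
  have hA : ∀ A : Finset ℕ, A.card ≤ 2 * n + 2 → ∃ f : ℕ → S,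
      ∀ a ∈ A, ∀ b ∈ A, G' a b → f a * f b ≠ z := by
    intro A hA
    set B : Finset (Fin m) := Finset.univ.filter fun i => (i : ℕ) ∈ A with hB
    have hBc : B.card ≤ 2 * n + 2 := le_trans (Finset.card_le_card_of_injOn Fin.val
      (fun i hi => by simpa [hB] using hi) Fin.val_injective.injOn) hA
    obtain ⟨f⟩ := hG2 B.card hBc fun k => B.equivFin.symm k
    refine ⟨fun a => if h : ∃ i ∈ B, (i : ℕ) = a then
      f (B.equivFin ⟨h.choose, h.choose_spec.1⟩) else z, ?_⟩
    have e : ∀ (i : Fin m) (hi : i ∈ B), (if h : ∃ j ∈ B, (j : ℕ) = i then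
        f (B.equivFin ⟨h.choose, h.choose_spec.1⟩) else z) = f (B.equivFin ⟨i, hi⟩) := by
      intro i hi
      have h : ∃ j ∈ B, (j : ℕ) = i := ⟨i, hi, rfl⟩
      rw [dif_pos h]
      congr 3
      exact Fin.ext h.choose_spec.2
    rintro a ha b hb ⟨i, j, hij, ⟨rfl, rfl⟩ | ⟨hc, rfl, rfl⟩⟩
    · simp only []
      rw [e i (by simpa [hB] using ha), e j (by simpa [hB] using hb)]
      exact f.map_rel (by simpa using hij)
    · simp only []
      rw [e i (by simpa [hB] using hb), e j (by simpa [hB] using ha), hc]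
      exact f.map_rel (by simpa using hij)
  refine ⟨{v | ∃ a b, G' a b ∧ v = [a, b]}, ?_, [0, 0, 0],
    {v | ∃ i j : Fin m, G i j ∧ v = [(i : ℕ), (j : ℕ)]}, by simp, ?_, ?_, ?_, ?_, ?_, ?_⟩
  · intro w t hw ht hne _ _ htn hval τ hτ hτ' p q H
    match w, hw with
    | [x], _ => exact H _ (nil_one h3 hn1 x t ht hval)
    | [x, y], _ =>
      rcases nil_two h3 h2 hn x y t ht hval with h | ⟨h, hc⟩
      · exact H _ h
      · rintro _ ⟨a, ha, _, ⟨b, hb, _, rfl, rfl⟩, rfl⟩
        obtain ⟨i, j, hij, e⟩ := H _ h (b ++ (a ++ [])) ⟨b, hb, _, ⟨a, ha, _, rfl, rfl⟩, rfl⟩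
        have l1 := List.length_pos_iff.mpr (hτ' x a ha)
        have l2 := List.length_pos_iff.mpr (hτ' y b hb)
        have l3 := congrArg List.length e
        simp only [List.length_append, List.length_cons, List.length_nil] at l3
        obtain rfl : p = [] := List.length_eq_zero_iff.mp (by omega)
        obtain rfl : q = [] := List.length_eq_zero_iff.mp (by omega)
        obtain ⟨a, rfl⟩ := List.length_eq_one_iff.mp (show a.length = 1 by omega)
        obtain ⟨b, rfl⟩ := List.length_eq_one_iff.mp (show b.length = 1 by omega)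
        simp only [List.nil_append, List.append_nil, List.cons_append, List.cons.injEq,
          and_true] at e
        obtain ⟨rfl, rfl⟩ := e
        refine ⟨a, b, ?_, by simp⟩
        obtain ⟨i, j, h1, h2 | h2⟩ := hij
        · exact ⟨i, j, h1, Or.inr ⟨hc, h2.2, h2.1⟩⟩
        · exact ⟨i, j, h1, Or.inl ⟨h2.2.2, h2.2.1⟩⟩
    | x :: y :: y' :: w, _ =>
      exfalso
      set σ : ℕ → List ℕ := fun x => (hτ x).some with hσ
      have hσ1 : ∀ x, σ x ∈ τ x := fun x => (hτ x).some_mem
      have H1 : ∀ u ∈ t, ∃ a b, G' a b ∧ p ++ u.flatMap σ ++ q = [a, b] :=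
        fun u hu => H u hu _ (flatMap_mem_Sub τ σ u fun x _ => hσ1 x)
      obtain ⟨f, hf⟩ := hA ((p ++ q).toFinset ∪
          (Finset.range n).biUnion fun x => ((σ x).take 2).toFinset) (by
        refine le_trans (Finset.card_union_le _ _) ?_
        have a1 : (p ++ q).toFinset.card ≤ 2 := by
          obtain ⟨u, hu⟩ := hne
          obtain ⟨a, b, -, e⟩ := H1 u hu
          have l3 := congrArg List.length e
          refine le_trans (List.toFinset_card_le _) ?_
          simp only [List.length_append, List.length_cons, List.length_nil] at l3 ⊢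
          omega
        have a2 : ((Finset.range n).biUnion fun x => ((σ x).take 2).toFinset).card ≤ n * 2 := by
          refine le_trans (Finset.card_biUnion_le_card_mul _ _ 2 fun x _ => ?_) (by simp)
          exact le_trans (List.toFinset_card_le _) (List.length_take_le _ _)
        omega)
      choose ψ hψ using fun x => exists_prod_coe f (σ x) (hτ' x _ (hσ1 x))
      have hz := prod_mem_Val (fun x => {ψ x}) ψ (x :: y :: y' :: w) fun _ _ => rfl
      obtain ⟨u, hu, h4⟩ := hval _ (fun _ => by simp) _ hz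
      rw [nil_val_long h3 _ _ (by simp) _ hz, Val_single, Set.mem_singleton_iff] at h4
      obtain ⟨a, b, hab, e⟩ := H1 u hu
      have hm : ∀ c ∈ [a, b], c ∈ (p ++ q).toFinset ∪
          (Finset.range n).biUnion fun x => ((σ x).take 2).toFinset := by
        intro c hc
        rw [← e] at hc
        simp only [List.mem_append, List.mem_flatMap] at hc
        simp only [Finset.mem_union, List.mem_toFinset, List.mem_append, Finset.mem_biUnion,
          Finset.mem_range]
        rcases hc with (hc | ⟨v, hv, hc⟩) | hc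
        · exact Or.inl (Or.inl hc)
        · refine Or.inr ⟨v, htn u hu v hv, ?_⟩
          rw [List.take_of_length_le]
          · exact hc
          · obtain ⟨u1, u2, rfl⟩ := List.append_of_mem hv
            have l3 := congrArg List.length e
            simp only [List.length_append, List.length_cons, List.length_nil,
              List.flatMap_append, List.flatMap_cons] at l3
            omega
        · exact Or.inl (Or.inr hc)
      apply hf a (hm a (by simp)) b (hm b (by simp)) hab
      have e2 := congrArg (fun l : List ℕ => (l.map fun i => (f i : WithOne S)).prod) e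
      simp only [List.map_append, List.prod_append, prod_flatMap, ← hψ, ← h4, nil_ctx h3] at e2
      exact WithOne.coe_inj.mp (by simpa using e2.symm)
  · rintro _ ⟨i, j, -, rfl⟩
    simp
  · obtain ⟨i, j, h⟩ := hedge m G hG1
    exact ⟨_, i, j, h, rfl⟩
  · refine (Set.finite_range fun p : Fin m × Fin m => [(p.1 : ℕ), (p.2 : ℕ)]).subset ?_
    rintro _ ⟨i, j, -, rfl⟩
    exact ⟨(i, j), rfl⟩
  · intro φ hφ s hs
    rw [nil_val_long h3 _ _ (by simp) _ hs]
    by_contra hc
    push Not at hc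
    refine hG1.false ⟨fun i => (hφ i).some, fun {i j} hij e => hc _ ⟨i, j, hij, rfl⟩ ?_⟩
    exact (mem_Val_two _ _ _ _).mpr ⟨_, (hφ i).some_mem, _, (hφ j).some_mem, by rw [e]⟩
  · rintro _ ⟨i, j, h, rfl⟩
    exact ⟨i, j, ⟨i, j, h, Or.inl ⟨rfl, rfl⟩⟩, rfl⟩
  · rintro ⟨a, b, -, e⟩
    simp at e

theorem nil_fb (h2 : ∀ a : S, a * a = z) (h : FiniteDuality fun a b : S => a * b ≠ z) :
    FinitelyBased (Pow.add (S := S)) Pow.mul := by
  classical
  obtain ⟨F, hF, hd⟩ := h
  obtain ⟨N, hN⟩ := (hF.image fun D => D.1).bddAbove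
  have hN' : ∀ D ∈ F, D.1 ≤ N := fun D hD => hN ⟨D, hD, rfl⟩
  apply fb_of S (N * N + N + 6)
  intro w t hw ht hf hne hv T hT h0 hsub
  by_cases hn1 : ∃ a : S, a ≠ z
  swap
  · push Not at hn1
    obtain ⟨u, hu⟩ := hne
    have := hT [0] [[1]] (by simp) (by simp) (by simp) (by simp [Small])
      (by
        intro φ hφ s hs
        obtain ⟨a, rfl⟩ := exists_coe_of_mem_Val _ _ (by simp) s hs
        refine ⟨[1], by simp, (mem_Val_one _ _ _).mpr ?_⟩
        rw [hn1 a, ← hn1 (hφ 1).some]
        exact (hφ 1).some_mem)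
      (fun i => if i = 0 then w else u) (fun i => by
        split_ifs
        · exact hw
        · exact ht u hu) (by simpa using hsub hu)
    simpa using this
  have zero : ∀ (k : ℕ) (P : ℕ → List ℕ), 0 < k → k ≤ 3 → (∀ i, P i ≠ []) →
      (List.range k).flatMap P = w →
      (∀ (φ : ℕ → Set S) (c : ℕ), ∀ s ∈ Val φ ((List.range k).map (c + ·)), s = z) → w ∈ T := by
    intro k P k0 k3 hP hPw hz
    have app : ∀ (c : ℕ) (L : List (List ℕ)) (σ : ℕ → List ℕ), c ≤ N + 3 → L ≠ [] →
        L.length ≤ N * N + 1 → (∀ u ∈ L, u ≠ [] ∧ u.length ≤ 3 ∧ ∀ x ∈ u, x < c) →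
        (∀ x, σ x ≠ []) → (∀ u ∈ L, u.flatMap σ ∈ T) →
        (∀ φ : ℕ → Set S, (∀ x, (φ x).Nonempty) → ∃ u ∈ L, (z : WithOne S) ∈ Val φ u) →
        w ∈ T := by
      intro c L σ hc hL hl hL' hσ hin hval
      have := hT ((List.range k).map (c + ·)) L (by simpa using k0.ne') (fun u hu => (hL' u hu).1)
        hL ⟨⟨by simp; omega, fun x hx => by
            obtain ⟨y, hy, rfl⟩ := List.mem_map.mp hx
            have := List.mem_range.mp hy
            omega⟩, by omega, fun u hu => ⟨by have := (hL' u hu).2.1; omega, fun x hx => by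
            have := (hL' u hu).2.2 x hx
            omega⟩⟩
        (fun φ hφ s hs => by rw [hz φ c s hs]; exact hval φ hφ)
        (fun i => if i < c then σ i else P (i - c)) (fun i => by
          split_ifs
          · exact hσ i
          · exact hP _) (fun u hu => by
          rw [List.flatMap_congr (g := σ) fun x hx => if_pos ((hL' u hu).2.2 x hx)]
          exact hin u hu)
      rw [List.flatMap_map] at this
      simpa [hPw] using this
    by_cases hl : ∃ u ∈ t, 3 ≤ u.length
    · obtain ⟨u, hu, hl⟩ := hl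
      match u, hl with
      | a :: b :: c :: u, _ =>
        refine app 3 [[0, 1, 2]] (fun i => if i = 0 then [a] else if i = 1 then [b] else c :: u)
          (by omega) (by simp) (by simp) (by simp) (fun i => by split_ifs <;> simp)
          (by simpa using hsub hu) fun φ hφ => ⟨[0, 1, 2], by simp, ?_⟩
        obtain ⟨s, hs⟩ := Val_nonempty φ hφ [0, 1, 2]
        rwa [nil_val_long h3 _ _ (by simp) _ hs] at hs
    push Not at hl
    obtain ⟨m, hm⟩ : ∃ m, ∀ u ∈ t, ∀ x ∈ u, x < m := by
      obtain ⟨m, hm⟩ := (hf.biUnion fun u _ => u.finite_toSet).bddAbove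
      exact ⟨m + 1, fun u hu x hx => Nat.lt_succ_of_le (hm (Set.mem_biUnion hu hx))⟩
    have hG : ¬ Nonempty ((fun i j : Fin m => [(i : ℕ), (j : ℕ)] ∈ t) →r
        fun a b : S => a * b ≠ z) := by
      rintro ⟨f⟩
      obtain ⟨a0, ha0⟩ := hn1
      set ψ : ℕ → S := fun x => if h : x < m then (if f ⟨x, h⟩ = z then a0 else f ⟨x, h⟩) else a0
        with hψ
      have hw' := prod_mem_Val (fun x => {ψ x}) ψ w fun _ _ => rfl
      obtain ⟨u, hu, h4⟩ := hv _ (fun _ => by simp) _ hw'
      have e0 : (w.map fun x => (ψ x : WithOne S)).prod = z := by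
        choose χ hχ using fun x => exists_prod_coe ψ (P x) (hP x)
        refine hz (fun x => {χ x}) 0 _ ?_
        rw [Val_single, ← hPw, prod_flatMap]
        simp [hχ, Function.comp_def]
      rw [e0, Val_single, Set.mem_singleton_iff] at h4
      match u, ht u hu, hl u hu with
      | [x], _, _ =>
        have h5 : z = ψ x := WithOne.coe_inj.mp (by simpa using h4)
        simp only [hψ] at h5
        split_ifs at h5 with h6 h7
        · exact ha0 h5.symm
        · exact h7 h5.symm
        · exact ha0 h5.symm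
      | [x, y], _, _ =>
        have h5 : z = ψ x * ψ y := WithOne.coe_inj.mp (by simpa using h4)
        have hx := hm _ hu x (by simp)
        have hy := hm _ hu y (by simp)
        have h6 : f ⟨x, hx⟩ * f ⟨y, hy⟩ ≠ z := f.map_rel (a := ⟨x, hx⟩) (b := ⟨y, hy⟩) hu
        have h7 : f ⟨x, hx⟩ ≠ z := fun e => h6 (by rw [e, nil_z_mul h3])
        have h8 : f ⟨y, hy⟩ ≠ z := fun e => h6 (by rw [e, nil_mul_z h3])
        simp only [hψ, hx, hy, dif_pos, h7, h8, if_false] at h5
        exact h6 h5.symm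
      | _ :: _ :: _ :: _, _, h => simp only [List.length_cons] at h; omega
    rw [hd] at hG
    push Not at hG
    obtain ⟨⟨k', D⟩, hD, ⟨g⟩⟩ := hG
    have hDH : ¬ Nonempty (D →r fun a b : S => a * b ≠ z) := fun h =>
      (((hd k' D).mp h) _ hD).false (RelHom.id D)
    have hk' : k' ≤ N := hN' _ hD
    have hval : ∀ φ : ℕ → Set S, (∀ x, (φ x).Nonempty) → ∃ i j : Fin k', D i j ∧
        (z : WithOne S) ∈ Val φ [(i : ℕ), (j : ℕ)] := by
      intro φ hφ
      by_contra hc
      push Not at hc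
      refine hDH ⟨⟨fun i => (hφ i).some, fun {i j} hij e => hc i j hij ?_⟩⟩
      exact (mem_Val_two _ _ _ _).mpr ⟨_, (hφ i).some_mem, _, (hφ j).some_mem, by rw [e]⟩
    set L : List (List ℕ) := ((Finset.univ.filter fun p : Fin k' × Fin k' => D p.1 p.2).toList).map
      fun p => [(p.1 : ℕ), (p.2 : ℕ)] with hL
    have hLm : ∀ u, u ∈ L ↔ ∃ i j : Fin k', D i j ∧ u = [(i : ℕ), (j : ℕ)] := by
      intro u
      simp [hL, eq_comm]
    refine app k' L (fun i => if h : i < k' then [(g ⟨i, h⟩ : ℕ)] else [0]) (by omega) ?_ ?_ ?_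
      (fun i => by split_ifs <;> simp) ?_ fun φ hφ => ?_
    · obtain ⟨i, j, h, -⟩ := hval (fun _ => {z}) fun _ => by simp
      exact List.ne_nil_of_mem ((hLm _).mpr ⟨i, j, h, rfl⟩)
    · rw [hL, List.length_map, Finset.length_toList]
      refine le_trans (Finset.card_filter_le _ _) ?_
      simp only [Finset.card_univ, Fintype.card_prod, Fintype.card_fin]
      exact le_trans (Nat.mul_le_mul hk' hk') (by omega)
    · intro u hu
      obtain ⟨i, j, -, rfl⟩ := (hLm u).mp hu
      simp
    · intro u hu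
      obtain ⟨i, j, h, rfl⟩ := (hLm u).mp hu
      simpa using hsub (g.map_rel h)
    · obtain ⟨i, j, h, h'⟩ := hval φ hφ
      exact ⟨_, (hLm _).mpr ⟨i, j, h, rfl⟩, h'⟩
  match w, hw with
  | [x], _ => exact hsub (nil_one h3 hn1 x t ht hv)
  | [x, y], _ =>
    by_cases hn : ∃ a b : S, a * b ≠ z
    · rcases nil_two h3 h2 hn x y t ht hv with h | ⟨h, hc⟩
      · exact hsub h
      · have := hT [0, 1] [[1, 0]] (by simp) (by simp) (by simp) (by simp [Small])
          (by
            intro φ hφ s hs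
            obtain ⟨a, ha, b, hb, rfl⟩ := (mem_Val_two _ _ _ _).mp hs
            exact ⟨[1, 0], by simp, (mem_Val_two _ _ _ _).mpr ⟨b, hb, a, ha, by rw [hc]⟩⟩)
          (fun i => if i = 0 then [x] else [y]) (fun i => by split_ifs <;> simp)
          (by simpa using hsub h)
        simpa using this
    · push Not at hn
      refine zero 2 (fun i => if i = 0 then [x] else [y]) (by omega) (by omega)
        (fun i => by split_ifs <;> simp) (by simp [List.range_succ]) fun φ c s hs => ?_
      obtain ⟨a, -, b, -, rfl⟩ := (mem_Val_two φ (c + 0) (c + 1) s).mp hs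
      rw [hn]
  | x :: y :: v :: w, _ =>
    refine zero 3 (fun i => if i = 0 then [x] else if i = 1 then [y] else v :: w) (by omega)
      (by omega) (fun i => by split_ifs <;> simp) (by simp [List.range_succ])
      fun φ c s hs => nil_val_long h3 _ _ (by simp) _ hs

end

end Pool.Agent.P.MP_485d6e_al
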