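import Pool.Agent.P.MP_485d6e_al.Sep
import Pool.Agent.P.MP_485d6e_al.ExactSets

set_option autoImplicit false

namespace Pool.Agent.P.MP_485d6e_al

variable {S : Type} [Semigroup S]

theorem left_fix (φ : ℕ → Set S) {e : S} {s : WithOne S} (he : e * s = s) (u : List ℕ)
    (h : ∀ x ∈ u, e ∈ φ x) : ∃ a ∈ Val φ u, a * s = s := by
  induction u with
  | nil => exact ⟨1, rfl, one_mul _⟩
  | cons x u ih =>
    obtain ⟨a, ha, h1⟩ := ih fun y hy => h y (by simp [hy])
    exact ⟨e * a, ⟨e, h x (by simp), a, ha, rfl⟩, by rw [mul_assoc, h1, he]⟩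

theorem right_fix (φ : ℕ → Set S) {e : S} {s : WithOne S} (he : s * e = s) (u : List ℕ)
    (h : ∀ x ∈ u, e ∈ φ x) : ∃ a ∈ Val φ u, s * a = s := by
  induction u with
  | nil => exact ⟨1, rfl, mul_one _⟩
  | cons x u ih =>
    obtain ⟨a, ha, h1⟩ := ih fun y hy => h y (by simp [hy])
    exact ⟨e * a, ⟨e, h x (by simp), a, ha, rfl⟩, by rw [← mul_assoc, he, h1]⟩

theorem mem_Val_mid (φ : ℕ → Set S) {e f : S} {s : WithOne S} (he : e * s = s) (hf : s * f = s)
    (u1 m u2 : List ℕ) (h1 : ∀ x ∈ u1, e ∈ φ x) (h2 : ∀ x ∈ u2, f ∈ φ x) (hs : s ∈ Val φ m) :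
    s ∈ Val φ (u1 ++ m ++ u2) := by
  obtain ⟨a, ha, e1⟩ := left_fix φ he u1 h1
  obtain ⟨b, hb, e2⟩ := right_fix φ hf u2 h2
  exact (mem_Val_append _ _ _ _).mpr ⟨s, (mem_Val_append _ _ _ _).mpr ⟨a, ha, s, hs, e1.symm⟩,
    b, hb, e2.symm⟩

theorem Val_factor (φ : ℕ → Set S) (u : List ℕ) (x : ℕ) (hx : x ∈ u) (s : WithOne S)
    (hs : s ∈ Val φ u) : ∃ a ∈ φ x, ∃ p q : WithOne S, s = p * a * q := by
  obtain ⟨u1, u2, rfl⟩ := List.append_of_mem hx
  obtain ⟨p, -, _, ⟨a, ha, q, -, rfl⟩, rfl⟩ := (mem_Val_append _ _ _ _).mp hs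
  exact ⟨a, ha, p, q, by simp [mul_assoc]⟩

theorem form_of_junction (κ : ℕ → ℕ) (hκ : ∀ x, κ x ≤ 2) (l : List ℕ) (z : ℕ) (r : List ℕ)
    (hz : κ z = 1) (h : ∀ w1 y y' w2, l ++ z :: r = w1 ++ y :: y' :: w2 → ¬ (1 ≤ κ y ∧ κ y' ≤ 1)) :
    Form κ (l ++ z :: r) := by
  refine ⟨l, z, r, rfl, ?_, hz, ?_⟩
  · induction l with
    | nil => simp
    | cons a l ih =>
      have h1 := ih fun w1 y y' w2 e => h (a :: w1) y y' w2 (by simp [e])
      intro x hx
      rcases List.mem_cons.mp hx with rfl | hx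
      · cases l with
        | nil => have := h [] x z r rfl; omega
        | cons b l =>
          have := h [] x b (l ++ z :: r) rfl
          have := h1 b (by simp)
          omega
      · exact h1 x hx
  · have key : ∀ (r l : List ℕ) (z : ℕ), 1 ≤ κ z →
        (∀ w1 y y' w2, l ++ z :: r = w1 ++ y :: y' :: w2 → ¬ (1 ≤ κ y ∧ κ y' ≤ 1)) →
        ∀ x ∈ r, κ x = 2 := by
      intro r
      induction r with
      | nil => simp
      | cons a r ih =>
        intro l z hz h
        have h1 := h l z a r rfl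
        have h2 := hκ a
        have h3 := ih (l ++ [z]) a (by omega) (by simpa using h)
        intro x hx
        rcases List.mem_cons.mp hx with rfl | hx
        · omega
        · exact h3 x hx
    exact key r l z (by omega) h

theorem sepP_of (E X F : Set S) (hE : E.Nonempty) (hX : X.Nonempty) (hF : F.Nonempty)
    (h1 : ∀ a ∈ E, ∀ b ∈ X, a * b ∈ X) (h2 : ∀ a ∈ X, ∀ b ∈ F, a * b ∈ X)
    (hbad : ∀ φ : ℕ → Set S, (∀ x, φ x = E ∨ φ x = X ∨ φ x = F) → ∀ w1 y y' w2,
      (φ y = X ∨ φ y = F) → (φ y' = E ∨ φ y' = X) →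
      ∃ s ∈ Val φ (w1 ++ y :: y' :: w2), ∀ a ∈ X, s ≠ a)
    (h x : S) (hh : h * h = h) (hx : h * x = x) (hx' : x * h = x) (hne : x ≠ h) : SepP S := by
  intro w t hw ht hv κ hκ H
  by_cases hj : ∀ w1 y y' w2, w = w1 ++ y :: y' :: w2 → ¬ (1 ≤ κ y ∧ κ y' ≤ 1)
  · by_cases hz : ∃ z ∈ w, κ z = 1
    · obtain ⟨z, hz, e⟩ := hz
      obtain ⟨l, r, rfl⟩ := List.append_of_mem hz
      exact form_of_junction κ hκ l z r e hj
    · exfalso
      push Not at hz
      set φ : ℕ → Set S := fun y => {if κ y = 1 then x else h} with hφ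
      obtain ⟨y, w, rfl⟩ := List.exists_cons_of_ne_nil hw
      obtain ⟨u, hu, h3⟩ := hv φ (fun _ => by simp [hφ]) h
        (mem_Val_mid φ (e := h) (f := h) (by rw [← WithOne.coe_mul, hh])
          (by rw [← WithOne.coe_mul, hh]) [] [y] w (by simp)
          (fun z hz' => by simp [hφ, hz z (by simp [hz'])])
          (by rw [mem_Val_one]; simp [hφ, hz y (by simp)]))
      obtain ⟨l, z, r, rfl, a1, a2, a3⟩ := H u hu
      have h4 := mem_Val_mid φ (e := h) (f := h) (s := x) (by rw [← WithOne.coe_mul, hx])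
        (by rw [← WithOne.coe_mul, hx']) l [z] r (fun z hz' => by simp [hφ, a1 z hz'])
        (fun z hz' => by simp [hφ, a3 z hz']) (by rw [mem_Val_one]; simp [hφ, a2])
      simp only [List.append_assoc, List.singleton_append] at h4
      rw [hφ, Val_single] at h3 h4
      exact hne (WithOne.coe_inj.mp (h4.trans h3.symm))
  · exfalso
    push Not at hj
    obtain ⟨w1, y, y', w2, rfl, a1, a2⟩ := hj
    set φ : ℕ → Set S := fun y => if κ y = 0 then E else if κ y = 1 then X else F with hφ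
    obtain ⟨s, hs, h3⟩ := hbad φ (fun x => by simp only [hφ]; split_ifs <;> simp) w1 y y' w2
      (by simp only [hφ]; split_ifs <;> first | omega | simp)
      (by simp only [hφ]; split_ifs <;> first | omega | simp)
    obtain ⟨u, hu, h4⟩ := hv φ (fun x => by simp only [hφ]; split_ifs <;> assumption) s hs
    obtain ⟨l, z, r, rfl, b1, b2, b3⟩ := H u hu
    obtain ⟨p, hp, _, ⟨a, ha, q, hq, rfl⟩, rfl⟩ := (mem_Val_append _ _ _ _).mp h4
    have k1 : ∀ (r : List ℕ), (∀ x ∈ r, κ x = 2) → ∀ q ∈ Val φ r, ∀ a ∈ X,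
        ∃ b ∈ X, (a : WithOne S) * q = b := by
      intro r
      induction r with
      | nil => intro _ q hq a ha; exact ⟨a, ha, by rw [show q = 1 from hq, mul_one]⟩
      | cons c r ih =>
        rintro hr _ ⟨d, hd, q, hq, rfl⟩ a ha
        simp only [hφ, hr c (by simp)] at hd
        obtain ⟨b, hb, e⟩ := ih (fun x hx => hr x (by simp [hx])) q hq _ (h2 a ha d hd)
        exact ⟨b, hb, by rw [← e]; simp [mul_assoc]⟩
    have k2 : ∀ (l : List ℕ), (∀ x ∈ l, κ x = 0) → ∀ p ∈ Val φ l, ∀ a ∈ X,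
        ∃ b ∈ X, p * (a : WithOne S) = b := by
      intro l
      induction l with
      | nil => intro _ q hq a ha; exact ⟨a, ha, by rw [show q = 1 from hq, one_mul]⟩
      | cons c r ih =>
        rintro hr _ ⟨d, hd, q, hq, rfl⟩ a ha
        simp only [hφ, hr c (by simp)] at hd
        obtain ⟨b, hb, e⟩ := ih (fun x hx => hr x (by simp [hx])) q hq a ha
        exact ⟨_, h1 d hd b hb, by simp [mul_assoc, e]⟩
    simp only [hφ, b2] at ha
    obtain ⟨b, hb, e⟩ := k1 r b3 q hq a ha
    obtain ⟨b', hb', e'⟩ := k2 l b1 p hp b hb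
    exact h3 b' hb' (by simp only []; rw [e, e'])

/-- Covering at level one from a triple `e s = s = s f`. -/
theorem cover_of {e f s d : S} (h1 : e * s = s) (h2 : s * f = s) (G : S → Prop)
    (hG : ∀ a b, G a → G b → G (a * b)) (he : G e) (hf : G f) (hs : ¬ G s)
    (hd : ∀ p q : WithOne S, (s : WithOne S) ≠ p * d * q)
    (w : List ℕ) (t : Set (List ℕ)) (ht : ∀ u ∈ t, u ≠ []) (hv : Valid S w t) :
    ∀ x ∈ w, ∃ u ∈ t, x ∈ u ∧ ∀ y ∈ u, y ∈ w := by
  classical
  intro x hx
  set φ : ℕ → Set S := fun y => if y ∈ w then (if y = x then {s, e, f} else {e, f}) else {d}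
    with hφ
  obtain ⟨u, hu, h3⟩ := hv φ (fun y => by simp only [hφ]; split_ifs <;> simp) s (by
    obtain ⟨w1, w2, rfl⟩ := List.append_of_mem hx
    have := mem_Val_mid φ (e := e) (f := f) (s := s) (by rw [← WithOne.coe_mul, h1])
      (by rw [← WithOne.coe_mul, h2]) w1 [x] w2
      (fun y hy => by simp only [hφ]; split_ifs <;> simp_all)
      (fun y hy => by simp only [hφ]; split_ifs <;> simp_all)
      (by rw [mem_Val_one]; simp [hφ])
    simpa using this)
  have h4 : ∀ y ∈ u, y ∈ w := by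
    intro y hy
    by_contra hn
    obtain ⟨a, ha, p, q, e⟩ := Val_factor φ u y hy _ h3
    simp only [hφ, hn, if_false, Set.mem_singleton_iff] at ha
    exact hd p q (ha ▸ e)
  refine ⟨u, hu, ?_, h4⟩
  by_contra hxu
  refine hs (Val_forall φ G hG u (ht u hu) (fun y hy a ha => ?_) s h3)
  have : y ≠ x := fun e => hxu (e ▸ hy)
  simp only [hφ, h4 y hy, this, if_true, if_false] at ha
  rcases ha with rfl | rfl
  exacts [he, hf]

theorem not_fb_of_nongroup [Finite S] {c b : S} (h1 : c * b * c = c) (h2 : b * c * b = b)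
    (hb : ∀ p q : WithOne S, (c : WithOne S) ≠ p * (c * c : S) * q) :
    ¬ FinitelyBased (Pow.add (S := S)) Pow.mul := by
  obtain ⟨e, he⟩ : ∃ e, e = c * b := ⟨_, rfl⟩
  obtain ⟨f, hf⟩ : ∃ f, f = b * c := ⟨_, rfl⟩
  have ee : e * e = e := by rw [he, ← mul_assoc, h1]
  have ff : f * f = f := by rw [hf, ← mul_assoc, h2]
  have ec : e * c = c := by rw [he, h1]
  have cf : c * f = c := by rw [hf, ← mul_assoc, h1]
  have fb : f * b = b := by rw [hf, h2]
  have be : b * e = b := by rw [he, ← mul_assoc, h2]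
  set Bl : S → Prop := fun a => ∃ p q : WithOne S, (a : WithOne S) = p * (c * c : S) * q with hBl
  have bl1 : ∀ a a', Bl a → Bl (a * a') := by
    rintro a a' ⟨p, q, h⟩
    exact ⟨p, q * a', by rw [WithOne.coe_mul, h, mul_assoc]⟩
  have bl2 : ∀ a a', Bl a' → Bl (a * a') := by
    rintro a a' ⟨p, q, h⟩
    exact ⟨a * p, q, by rw [WithOne.coe_mul, h]; simp only [mul_assoc]⟩
  have blc : ¬ Bl c := fun ⟨p, q, h⟩ => hb p q h
  have cc : Bl (c * c) := ⟨1, 1, by simp⟩
  have ce : Bl (c * e) := by rw [he, ← mul_assoc]; exact bl1 _ _ cc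
  have fc : Bl (f * c) := by rw [hf, mul_assoc]; exact bl2 _ _ cc
  have fe : Bl (f * e) := by rw [hf, mul_assoc]; exact bl2 _ _ ce
  have hsep : SepP S := by
    refine sepP_of {e} {c} {f} (by simp) (by simp) (by simp) (by simp [ec]) (by simp [cf]) ?_
      e (e * f * e) ee (by rw [← mul_assoc, ← mul_assoc, ee]) (by rw [mul_assoc, ee]) ?_
    · intro φ hφ w1 y y' w2 a1 a2
      have hne : ∀ x, (φ x).Nonempty := fun x => by
        rcases hφ x with h | h | h <;> simp [h]
      obtain ⟨s, hs⟩ := Val_nonempty φ hne (w1 ++ y :: y' :: w2)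
      refine ⟨s, hs, ?_⟩
      obtain ⟨p, -, _, ⟨a, ha, _, ⟨a', ha', q, -, rfl⟩, rfl⟩, rfl⟩ :=
        (mem_Val_append _ _ _ _).mp hs
      have : Bl (a * a') := by
        rcases a1 with a1 | a1 <;> rcases a2 with a2 | a2 <;> rw [a1] at ha <;> rw [a2] at ha' <;>
          rw [ha, ha'] <;> assumption
      obtain ⟨p', q', h⟩ := this
      rintro _ rfl h3
      refine hb (p * p') (q' * q) ?_
      rw [← h3]
      simp only []
      rw [← mul_assoc (a : WithOne S), ← WithOne.coe_mul, h]
      simp only [mul_assoc]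
    · intro h
      apply blc
      rw [← ec, ← h, mul_assoc e]
      exact bl1 _ _ (bl2 _ _ fe)
  have hG : ∀ a a', (a = e ∨ a = f ∨ a = e * f ∨ Bl a) → (a' = e ∨ a' = f ∨ a' = e * f ∨ Bl a') →
      (a * a' = e ∨ a * a' = f ∨ a * a' = e * f ∨ Bl (a * a')) := by
    intro a a' ha ha'
    rcases ha with ha | ha | ha | ha
    rotate_right
    · exact Or.inr (Or.inr (Or.inr (bl1 _ _ ha)))
    all_goals
      rcases ha' with ha' | ha' | ha' | ha'
      rotate_right
      · exact Or.inr (Or.inr (Or.inr (bl2 _ _ ha')))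
    all_goals rw [ha, ha']
    · exact Or.inl ee
    · simp
    · rw [← mul_assoc, ee]; simp
    · exact Or.inr (Or.inr (Or.inr fe))
    · simp [ff]
    · rw [← mul_assoc]; exact Or.inr (Or.inr (Or.inr (bl1 _ _ fe)))
    · rw [mul_assoc]; exact Or.inr (Or.inr (Or.inr (bl2 _ _ fe)))
    · rw [mul_assoc, ff]; simp
    · rw [mul_assoc, ← mul_assoc f]; exact Or.inr (Or.inr (Or.inr (bl2 _ _ (bl1 _ _ fe))))
  have nce : c ≠ e := fun h => blc (by rw [← ec, ← h]; exact cc)
  have ncf : c ≠ f := fun h => blc (by rw [← cf, ← h]; exact cc)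
  have hcov : ∀ (w : List ℕ) (t : Set (List ℕ)), (∀ u ∈ t, u ≠ []) → Valid S w t →
      ∀ x ∈ w, ∃ u ∈ t, x ∈ u ∧ ∀ y ∈ u, y ∈ w := by
    by_cases hc : c = e * f
    · have blb : ¬ Bl b := fun h => blc (by rw [← h1]; exact bl1 _ _ (bl2 _ _ h))
      refine cover_of (d := c * c) fb be _ hG (by simp) (by simp) ?_ fun p q h => blb ⟨p, q, h⟩
      rintro (h | h | h | h)
      · exact ncf (by rw [hf, h, ec])
      · exact nce (by rw [he, h, cf])
      · rw [← hc] at h
        exact blb (by rw [← be, he, h, ← mul_assoc]; exact bl1 _ _ cc)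
      · exact blb h
    · refine cover_of (d := c * c) ec cf _ hG (by simp) (by simp) ?_ hb
      rintro (h | h | h | h)
      exacts [nce h, ncf h, hc h, blc h]
  refine not_fb_of_sep hsep (fun w t _ ht hv x hx => ?_) (fun v y => y ∈ v)
    (fun α a γ y h1 h2 => by simp [h1, h2]) (fun _ _ _ => Iff.rfl) fun w t _ ht hv y y' h => ?_
  · obtain ⟨u, hu, h, -⟩ := hcov w t ht hv x hx
    exact ⟨u, hu, h⟩
  · constructor
    · intro hy
      obtain ⟨u, hu, h3, h4⟩ := hcov w t ht hv y hy
      exact h4 _ ((h u hu).mp h3)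
    · intro hy
      obtain ⟨u, hu, h3, h4⟩ := hcov w t ht hv y' hy
      exact h4 _ ((h u hu).mpr h3)

open Classical in
/-- The power of an involution of a subgroup with exponent in `ZMod 2`. -/
noncomputable def gm (g : S) (a : ZMod 2) : S := if a = 0 then g * g else g

theorem gm_add {g : S} (hg : g * g * g = g) (a b : ZMod 2) : gm g a * gm g b = gm g (a + b) := by
  have hz : ∀ c : ZMod 2, c = 0 ∨ c = 1 := by decide
  have h11 : (1 : ZMod 2) + 1 = 0 := by decide
  rcases hz a with rfl | rfl <;> rcases hz b with rfl | rfl <;> simp [gm, h11, ← mul_assoc, hg]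

theorem gm_inj {g : S} (hg : g * g ≠ g) {a b : ZMod 2} (h : gm g a = gm g b) : a = b := by
  have hz : ∀ c : ZMod 2, c = 0 ∨ c = 1 := by decide
  rcases hz a with rfl | rfl <;> rcases hz b with rfl | rfl <;> simp_all [gm, eq_comm]

theorem val_gm {g : S} (hg : g * g * g = g) (ψ : ℕ → ZMod 2) (u : List ℕ) (hu : u ≠ []) (s : S) :
    (s : WithOne S) ∈ Val (fun x => {gm g (ψ x)}) u ↔ s = gm g (u.map ψ).sum := by
  induction u generalizing s with
  | nil => exact absurd rfl hu
  | cons x u ih =>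
    by_cases e : u = []
    · subst e
      simp [mem_Val_one]
    · rw [mem_Val_cons _ _ _ e]
      simp [ih e, gm_add hg]

theorem sum_map_ite (u : List ℕ) (y : ℕ) :
    (u.map fun z => if z = y then (1 : ZMod 2) else 0).sum = u.count y := by
  induction u with
  | nil => simp
  | cons x u ih =>
    by_cases h : x = y <;> simp [List.count_cons, ih, h, add_comm]

theorem not_fb_of_twist [Finite S] {e f : S} (ee : e * e = e) (ff : f * f = f)
    (h1 : e * f * e * f * e = e) (h2 : f * e * f * e * f = f) (hne : e * f * (e * f) ≠ e * f) :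
    ¬ FinitelyBased (Pow.add (S := S)) Pow.mul := by
  classical
  obtain ⟨g, hg⟩ : ∃ g, g = e * f := ⟨_, rfl⟩
  obtain ⟨h, hh⟩ : ∃ h, h = g * g := ⟨_, rfl⟩
  have he : h * e = e := by rw [hh, hg, ← mul_assoc, h1]
  have fh : f * h = f := by rw [hh, hg, ← mul_assoc, ← mul_assoc, ← mul_assoc, h2]
  have eh : e * h = h := by rw [hh, hg, ← mul_assoc, ← mul_assoc e e, ee]
  have hf : h * f = h := by rw [hh, hg, mul_assoc, mul_assoc e f f, ff]
  have h3 : h * g = g := by rw [hg, ← mul_assoc, he]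
  have h4 : g * h = g := by rw [hg, mul_assoc, fh]
  have g3 : g * g * g = g := by rw [← hh, h3]
  have hhh : h * h = h := by nth_rewrite 2 [hh]; rw [← mul_assoc, h3, hh]
  rw [← hg] at hne
  have hsep : SepP S := by
    refine sepP_of {h, f} {h, e, f, f * e} {h, e} (by simp) (by simp) (by simp) ?_ ?_ ?_
      h g hhh h3 h4 (by rw [hh]; exact hne.symm)
    · rintro a (rfl | rfl) b (rfl | rfl | rfl | rfl) <;>
        simp [hhh, he, hf, fh, ff, ← mul_assoc]
    · rintro a (rfl | rfl | rfl | rfl) b (rfl | rfl) <;>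
        simp [hhh, he, eh, fh, ee, mul_assoc]
    · intro φ hφ w1 y y' w2 a1 a2
      have m : ∀ x, h ∈ φ x := fun x => by rcases hφ x with k | k | k <;> simp [k]
      refine ⟨g, ?_, ?_⟩
      · have := mem_Val_mid φ (e := h) (f := h) (s := g) (by rw [← WithOne.coe_mul, h3])
          (by rw [← WithOne.coe_mul, h4]) w1 [y, y'] w2 (fun x _ => m x) (fun x _ => m x)
          ((mem_Val_two _ _ _ _).mpr ⟨e, by rcases a1 with k | k <;> simp [k], f,
            by rcases a2 with k | k <;> simp [k], by rw [hg]⟩)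
        simpa using this
      · intro a ha k
        have k := WithOne.coe_inj.mp k
        apply hne
        rcases ha with ha | ha | ha | ha <;> rw [ha] at k
        · rw [k, hhh]
        · rw [k, ee]
        · rw [k, ff]
        · nth_rewrite 2 [k]
          rw [hg, mul_assoc, ← mul_assoc f, ff, ← k, hg, ← mul_assoc, ee]
  refine not_fb_of_sep hsep (fun w t _ ht hv x hx => ?_) (fun v y => v.count y % 2 = 1)
    (fun α a γ y h1 h2 => by
      simp [List.count_eq_zero_of_not_mem h1, List.count_eq_zero_of_not_mem h2])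
    (fun u y hu => ?_) fun w t hw ht hv y y' H => ?_
  · set φ : ℕ → Set S := fun y => if y = x then {h, g} else {h} with hφ
    have m : ∀ x, h ∈ φ x := fun x => by simp only [hφ]; split_ifs <;> simp
    obtain ⟨u, hu, k⟩ := hv φ (fun y => ⟨h, m y⟩) g (by
      obtain ⟨w1, w2, rfl⟩ := List.append_of_mem hx
      have := mem_Val_mid φ (e := h) (f := h) (s := g) (by rw [← WithOne.coe_mul, h3])
        (by rw [← WithOne.coe_mul, h4]) w1 [x] w2 (fun x _ => m x) (fun x _ => m x)
        (by rw [mem_Val_one]; simp [hφ])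
      simpa using this)
    refine ⟨u, hu, ?_⟩
    by_contra hxu
    refine hne (hh ▸ (Val_forall φ (fun a => a = h) (by rintro _ _ rfl rfl; exact hhh) u
      (ht u hu) (fun y hy a ha => ?_) g k).symm)
    have : y ≠ x := fun e => hxu (e ▸ hy)
    simpa [hφ, this] using ha
  · by_cases hy : y ∈ u
    · simp [List.count_eq_one_of_mem hu hy, hy]
    · simp [List.count_eq_zero_of_not_mem hy, hy]
  · obtain ⟨u, hu, k⟩ := hv (fun x => {gm g ((if x = y then 1 else 0) + if x = y' then 1 else 0)})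
      (fun _ => by simp) _ ((val_gm g3 _ w hw _).mpr rfl)
    have k := gm_inj hne ((val_gm g3 _ u (ht u hu) _).mp k)
    simp only [List.sum_map_add, sum_map_ite, ← Nat.cast_add] at k
    have k := (ZMod.natCast_eq_natCast_iff' _ _ 2).mp k
    have := H u hu
    omega

theorem exists_idem_pow {M : Type} [Monoid M] [Finite M] (a : M) :
    ∃ k, 0 < k ∧ a ^ k * a ^ k = a ^ k := by
  obtain ⟨i, j, hij, e⟩ := Finite.exists_ne_map_eq_of_infinite fun n : ℕ => a ^ n
  wlog hlt : i < j generalizing i j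
  · exact this j i hij.symm e.symm (lt_of_le_of_ne (not_lt.mp hlt) hij.symm)
  obtain ⟨d, rfl⟩ := Nat.exists_eq_add_of_lt hlt
  have key : ∀ m n, i ≤ n → a ^ (n + m * (d + 1)) = a ^ n := by
    intro m n hn
    induction m with
    | zero => simp
    | succ m ih =>
      obtain ⟨c, rfl⟩ := Nat.exists_eq_add_of_le hn
      have : i + c + (m + 1) * (d + 1) = (i + d + 1) + (c + m * (d + 1)) := by ring
      rw [this, pow_add, ← e, ← pow_add, ← add_assoc, ih]
  refine ⟨(i + 1) * (d + 1), by positivity, ?_⟩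
  rw [← pow_add, key _ _ (by nlinarith)]

/-- An element of a finite semigroup that is divisible by its square lies in a local monoid. -/
theorem local_of_sq [Finite S] {c : S} {p q : WithOne S} (h : (c : WithOne S) = p * (c * c : S) * q) :
    ∃ e : S, e * e = e ∧ e * c = c ∧ c * e = c := by
  have : Finite (WithOne S) := inferInstanceAs (Finite (Option S))
  rw [WithOne.coe_mul] at h
  have k1 : ∀ n, (c : WithOne S) = p ^ n * c * (c * q) ^ n := by
    intro n
    induction n with
    | zero => simp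
    | succ n ih =>
      rw [pow_succ' p, pow_succ, mul_assoc p, mul_assoc p, ← mul_assoc (p ^ n * c), ← ih]
      simpa only [mul_assoc] using h
  have k2 : ∀ n, (c : WithOne S) = (p * c) ^ n * c * q ^ n := by
    intro n
    induction n with
    | zero => simp
    | succ n ih =>
      rw [pow_succ' (p * c), pow_succ, mul_assoc (p * c), mul_assoc (p * c),
        ← mul_assoc ((p * c) ^ n * c), ← ih]
      simpa only [mul_assoc] using h
  obtain ⟨m, hm, e1⟩ := exists_idem_pow ((c : WithOne S) * q)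
  obtain ⟨n, hn, e2⟩ := exists_idem_pow (p * (c : WithOne S))
  have a1 : (c : WithOne S) * (c * q) ^ m = c := by
    nth_rewrite 1 [k1 m]
    rw [mul_assoc, e1, ← k1]
  have a2 : (p * (c : WithOne S)) ^ n * c = c := by
    nth_rewrite 2 [k2 n]
    rw [← mul_assoc, ← mul_assoc, e2, ← k2]
  obtain ⟨m, rfl⟩ := Nat.exists_eq_add_of_lt hm
  obtain ⟨n, rfl⟩ := Nat.exists_eq_add_of_lt hn
  rw [zero_add, pow_succ', mul_assoc (c : WithOne S) q] at a1
  rw [zero_add, pow_succ, ← mul_assoc] at a2
  generalize q * ((c : WithOne S) * q) ^ m = u at a1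
  generalize (p * (c : WithOne S)) ^ n * p = v at a2
  have a3 : v * c = c * u := by
    nth_rewrite 1 [← a1]
    rw [← mul_assoc, ← mul_assoc, a2]
  obtain ⟨e, he⟩ : ∃ e : S, (e : WithOne S) = c * u := by
    induction u using WithOne.recOneCoe with
    | one => exact ⟨c, by simp⟩
    | coe u => exact ⟨c * u, by simp⟩
  have b1 : (e : WithOne S) * c = c := by rw [he, ← a3, a2]
  refine ⟨e, WithOne.coe_inj.mp ?_, WithOne.coe_inj.mp ?_, WithOne.coe_inj.mp ?_⟩
  · rw [WithOne.coe_mul]
    nth_rewrite 2 [he]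
    rw [← mul_assoc, b1, he]
  · rw [WithOne.coe_mul, b1]
  · rw [WithOne.coe_mul, he, a1]

section Nec

variable [Finite S] (h : FinitelyBased (Pow.add (S := S)) Pow.mul)
include h

theorem fb_good (e a b : S) (he : e * e = e) (a1 : e * a = a) (a2 : a * e = a) (a3 : e * b = b)
    (a4 : b * e = b) : a * b = a ∨ a * b = b ∨ a * b = e := by
  have : Nonempty S := ⟨e⟩
  by_contra hn
  push Not at hn
  exact not_fb_of_exact (exact_of_local e a b he a1 a2 a3 a4 hn.1 hn.2.1 hn.2.2) h

theorem fb_cube (a c : S) (h1 : a * c * a = a) : a * a * a = a := by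
  have h1' : a * (c * a * c) * a = a := by
    rw [← mul_assoc, ← mul_assoc, h1, h1]
  have h2 : c * a * c * a * (c * a * c) = c * a * c := by
    calc c * a * c * a * (c * a * c) = c * (a * c * a) * c * a * c := by simp only [mul_assoc]
      _ = c * a * c * a * c := by rw [h1]
      _ = c * (a * c * a) * c := by simp only [mul_assoc]
      _ = c * a * c := by rw [h1]
  by_contra hn
  refine not_fb_of_nongroup h1' h2 (fun p q k => hn ?_) h
  obtain ⟨e, he, k1, k2⟩ := local_of_sq k
  rcases fb_good h e a a he k1 k2 k1 k2 with k | k | k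
  · rw [k, k]
  · rw [k, k]
  · rw [k, k1]

theorem fb_idem (e f c : S) (ee : e * e = e) (ff : f * f = f)
    (h1 : e * f * c * (e * f) = e * f) : e * f * (e * f) = e * f := by
  have g3 := fb_cube h _ c h1
  by_contra hn
  refine not_fb_of_twist ee ff ?_ ?_ hn h
  · have k1 : e * (e * f * e) = e * f * e := by rw [← mul_assoc, ← mul_assoc, ee]
    have k2 : e * f * e * e = e * f * e := by rw [mul_assoc, ee]
    have k3 : e * f * e * (e * f * e) = e * f * e * f * e := by
      rw [← mul_assoc, ← mul_assoc, k2]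
    have k4 : e * f * e * f * e ≠ e * f * e := fun k => hn (by
      have : e * f * (e * f) * (e * f) = e * f * e * f * e * f := by simp only [mul_assoc]
      rw [this, k] at g3
      simpa only [mul_assoc] using g3)
    rcases fb_good h e _ _ ee k1 k2 k1 k2 with k | k | k <;> rw [k3] at k
    exacts [absurd k k4, absurd k k4, k]
  · have k1 : f * (f * e * f) = f * e * f := by rw [← mul_assoc, ← mul_assoc, ff]
    have k2 : f * e * f * f = f * e * f := by rw [mul_assoc, ff]
    have k3 : f * e * f * (f * e * f) = f * e * f * e * f := by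
      rw [← mul_assoc, ← mul_assoc, k2]
    have k4 : f * e * f * e * f ≠ f * e * f := fun k => hn (by
      have : e * f * (e * f) * (e * f) = e * (f * e * f * e * f) := by simp only [mul_assoc]
      rw [this, k] at g3
      simpa only [mul_assoc] using g3)
    rcases fb_good h f _ _ ff k1 k2 k1 k2 with k | k | k <;> rw [k3] at k
    exacts [absurd k k4, absurd k k4, k]

end Nec

end Pool.Agent.P.MP_485d6e_al
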