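import Pool.Agent.P.MP_485d6e_al.Reg

set_option autoImplicit false

namespace Pool.Agent.P.MP_485d6e_al.RegularElementsOld

open Pool.Agent.P.MP_485d6e_al

/-- If the power semiring `P(S)` of a finite semigroup `S` is finitely based, then every regular
element satisfies `a³ = a`, a regular product of two idempotents is idempotent, and in every
local monoid `eSe` the product of two elements is one of them or `e`. -/
theorem result (S : Type) [Semigroup S] [Finite S]
    (h : FinitelyBased (Pow.add (S := S)) Pow.mul) :
    (∀ a : S, (∃ c : S, a * c * a = a) → a * a * a = a) ∧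
    (∀ e f : S, e * e = e → f * f = f → (∃ c : S, e * f * c * (e * f) = e * f) →
      e * f * (e * f) = e * f) ∧
    ∀ e a b : S, e * e = e → e * a = a → a * e = a → e * b = b → b * e = b →
      a * b = a ∨ a * b = b ∨ a * b = e :=
  ⟨fun a ⟨c, hc⟩ => fb_cube h a c hc, fun e f ee ff ⟨c, hc⟩ => fb_idem h e f c ee ff hc,
    fun e a b he a1 a2 a3 a4 => fb_good h e a b he a1 a2 a3 a4⟩

end Pool.Agent.P.MP_485d6e_al.RegularElementsOld
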