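import Pool.Agent.P.MP_485d6e_al.InvSem

set_option autoImplicit false

namespace Pool.Agent.P.MP_485d6e_al

theorem Sub_piece (τ : ℕ → Set (List ℕ)) (u v : List ℕ) (hv : v ∈ Sub τ u) (c : ℕ) (hc : c ∈ v) :
    ∃ x ∈ u, ∃ a ∈ τ x, c ∈ a ∧ ∃ α γ, v = α ++ a ++ γ := by
  induction u generalizing v with
  | nil => rw [show v = [] from hv] at hc; simp at hc
  | cons x u ih =>
    obtain ⟨a, ha, b, hb, rfl⟩ := hv
    rcases List.mem_append.mp hc with hc | hc
    · exact ⟨x, by simp, a, ha, hc, [], b, by simp⟩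
    · obtain ⟨y, hy, d, hd, h1, α, γ, rfl⟩ := ih b hb hc
      exact ⟨y, by simp [hy], d, hd, h1, a ++ α, γ, by simp⟩

theorem Sub_at (τ : ℕ → Set (List ℕ)) (σ : ℕ → List ℕ) (hσ : ∀ x, σ x ∈ τ x) (u1 u2 : List ℕ)
    (x : ℕ) (a : List ℕ) (ha : a ∈ τ x) :
    u1.flatMap σ ++ a ++ u2.flatMap σ ∈ Sub τ (u1 ++ x :: u2) :=
  (mem_Sub_append _ _ _ _).mpr ⟨_, flatMap_mem_Sub τ σ u1 fun y _ => hσ y, _,
    ⟨a, ha, _, flatMap_mem_Sub τ σ u2 fun y _ => hσ y, rfl⟩, by simp⟩

theorem Sub_ne_nil (τ : ℕ → Set (List ℕ)) (hτ : ∀ x, ∀ v ∈ τ x, v ≠ []) (u : List ℕ)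
    (hu : u ≠ []) (v : List ℕ) (hv : v ∈ Sub τ u) : v ≠ [] := by
  cases u with
  | nil => exact absurd rfl hu
  | cons x u =>
    obtain ⟨a, ha, b, -, rfl⟩ := hv
    simp [hτ x a ha]

section

variable {S : Type} [Semigroup S]

theorem Val_Sub (φ : ℕ → Set S) (τ : ℕ → Set (List ℕ)) (hτ : ∀ x, ∀ v ∈ τ x, v ≠ [])
    (u : List ℕ) (s : WithOne S) :
    s ∈ Val (fun x => {a : S | ∃ v ∈ τ x, (a : WithOne S) ∈ Val φ v}) u ↔
      ∃ v ∈ Sub τ u, s ∈ Val φ v := by
  induction u generalizing s with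
  | nil => simp [Val, Sub]
  | cons x u ih =>
    constructor
    · rintro ⟨a, ⟨v, hv, ha⟩, b, hb, rfl⟩
      obtain ⟨v', hv', hb⟩ := (ih b).mp hb
      exact ⟨v ++ v', ⟨v, hv, v', hv', rfl⟩, (mem_Val_append _ _ _ _).mpr ⟨a, ha, b, hb, rfl⟩⟩
    · rintro ⟨_, ⟨v, hv, v', hv', rfl⟩, h⟩
      obtain ⟨a, ha, b, hb, rfl⟩ := (mem_Val_append _ _ _ _).mp h
      obtain ⟨a, rfl⟩ := exists_coe_of_mem_Val _ v (hτ x v hv) a ha
      exact ⟨a, ⟨v, hv, ha⟩, b, (ih b).mpr ⟨v', hv', hb⟩, rfl⟩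

/-- Validity passes to instances in a context. -/
theorem Valid.inst {w : List ℕ} {t : Set (List ℕ)} (h : Valid S w t) (τ : ℕ → Set (List ℕ))
    (hτ : ∀ x, (τ x).Nonempty) (hτ' : ∀ x, ∀ v ∈ τ x, v ≠ []) (p q v : List ℕ)
    (hv : v ∈ Sub τ w) :
    Valid S (p ++ v ++ q) {y | ∃ u ∈ t, ∃ v' ∈ Sub τ u, y = p ++ v' ++ q} := by
  intro φ hφ s hs
  obtain ⟨a', ha', c, hc, rfl⟩ := (mem_Val_append _ _ _ _).mp hs
  obtain ⟨a, ha, b, hb, rfl⟩ := (mem_Val_append _ _ _ _).mp ha'
  obtain ⟨u, hu, h1⟩ := h _ (fun x => by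
    obtain ⟨v, hv⟩ := hτ x
    obtain ⟨s, hs⟩ := Val_nonempty φ hφ v
    obtain ⟨s, rfl⟩ := exists_coe_of_mem_Val _ v (hτ' x v hv) s hs
    exact ⟨s, v, hv, hs⟩) b ((Val_Sub φ τ hτ' w b).mpr ⟨v, hv, hb⟩)
  obtain ⟨v', hv', h2⟩ := (Val_Sub φ τ hτ' u b).mp h1
  exact ⟨_, ⟨u, hu, v', hv', rfl⟩, (mem_Val_append _ _ _ _).mpr
    ⟨_, (mem_Val_append _ _ _ _).mpr ⟨a, ha, b, h2, rfl⟩, c, hc, rfl⟩⟩

/-- Letters of class `0`, one letter of class `1`, letters of class `2`. -/
def Form (κ : ℕ → ℕ) (u : List ℕ) : Prop :=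
  ∃ l z r, u = l ++ z :: r ∧ (∀ x ∈ l, κ x = 0) ∧ κ z = 1 ∧ ∀ x ∈ r, κ x = 2

variable (S) in
/-- Valid inequalities preserve `Form`. -/
def SepP : Prop :=
  ∀ (w : List ℕ) (t : Set (List ℕ)), w ≠ [] → (∀ u ∈ t, u ≠ []) → Valid S w t →
    ∀ κ : ℕ → ℕ, (∀ x, κ x ≤ 2) → (∀ u ∈ t, Form κ u) → Form κ w

/-- The words with separators. -/
def sepW (M i j : ℕ) : ℕ → List ℕ
  | 0 => [Nat.pair 0 0]
  | b + 1 => sepW M i j b ++
      ((List.range i ++ List.range' j (M - j)).map (Nat.pair (2 * b + 1)) ++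
        [Nat.pair (2 * b + 2) 0])

theorem mem_sepW {M i j : ℕ} (hj : j ≤ M) (b c : ℕ) :
    c ∈ sepW M i j b ↔ (∃ r ≤ b, c = Nat.pair (2 * r) 0) ∨
      ∃ r < b, ∃ k, (k < i ∨ (j ≤ k ∧ k < M)) ∧ c = Nat.pair (2 * r + 1) k := by
  induction b with
  | zero => simp [sepW]
  | succ b ih =>
    simp only [sepW, List.mem_append, ih, List.mem_map, List.mem_range, List.mem_range'_1,
      List.mem_singleton]
    constructor
    · rintro ((⟨r, hr, e⟩ | ⟨r, hr, e⟩) | ⟨k, hk, e⟩ | e)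
      · exact Or.inl ⟨r, by omega, e⟩
      · exact Or.inr ⟨r, by omega, e⟩
      · exact Or.inr ⟨b, by omega, k, by omega, e.symm⟩
      · exact Or.inl ⟨b + 1, le_rfl, e⟩
    · rintro (⟨r, hr, e⟩ | ⟨r, hr, k, hk, e⟩)
      · by_cases h : r = b + 1
        · subst h; exact Or.inr (Or.inr e)
        · exact Or.inl (Or.inl ⟨r, by omega, e⟩)
      · by_cases h : r = b
        · subst h; exact Or.inr (Or.inl ⟨k, by clear ih; omega, e.symm⟩)
        · exact Or.inl (Or.inr ⟨r, by omega, k, hk, e⟩)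

theorem sepW_le {M i j : ℕ} (hj : j ≤ M) (b c : ℕ) (h : c ∈ sepW M i j b) :
    c.unpair.1 ≤ 2 * b := by
  rcases (mem_sepW hj b c).mp h with ⟨r, hr, rfl⟩ | ⟨r, hr, k, -, rfl⟩ <;> simp <;> omega

theorem sepW_nodup {M i j : ℕ} (hij : i ≤ j) (hj : j ≤ M) (b : ℕ) : (sepW M i j b).Nodup := by
  induction b with
  | zero => simp [sepW]
  | succ b ih =>
    simp only [sepW]
    rw [List.nodup_append, List.nodup_append]
    refine ⟨ih, ⟨List.Nodup.map (fun a b h => (Nat.pair_eq_pair.mp h).2) ?_, by simp, ?_⟩, ?_⟩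
    · rw [List.nodup_append]
      refine ⟨List.nodup_range, List.nodup_range', ?_⟩
      intro a ha c hc
      simp only [List.mem_range, List.mem_range'_1] at ha hc
      omega
    · intro a ha c hc e
      obtain ⟨k, -, rfl⟩ := List.mem_map.mp ha
      rw [List.mem_singleton.mp hc, Nat.pair_eq_pair] at e
      omega
    · intro a ha c hc e
      have := sepW_le hj b a ha
      rw [e] at this
      rcases List.mem_append.mp hc with hc | hc
      · obtain ⟨k, -, rfl⟩ := List.mem_map.mp hc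
        simp at this
      · rw [List.mem_singleton.mp hc] at this
        simp at this

theorem sepW_sorted {M i j : ℕ} (hj : j ≤ M) (b : ℕ) :
    (sepW M i j b).Pairwise fun a c => a.unpair.1 ≤ c.unpair.1 := by
  induction b with
  | zero => simp [sepW]
  | succ b ih =>
    simp only [sepW]
    rw [List.pairwise_append, List.pairwise_append, List.pairwise_map]
    refine ⟨ih, ⟨by simp [List.pairwise_of_forall], by simp, ?_⟩, ?_⟩
    · intro a ha c hc
      obtain ⟨k, -, rfl⟩ := List.mem_map.mp ha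
      rw [List.mem_singleton.mp hc]
      simp
    · intro a ha c hc
      have := sepW_le hj b a ha
      rcases List.mem_append.mp hc with hc | hc
      · obtain ⟨k, -, rfl⟩ := List.mem_map.mp hc
        simp only [Nat.unpair_pair]
        omega
      · rw [List.mem_singleton.mp hc]
        simp only [Nat.unpair_pair]
        omega

theorem sepW_count {M i j : ℕ} (hj : j ≤ M) (b r : ℕ) (hr : r ≤ b) :
    (sepW M i j b).countP (fun c => c.unpair.1 = 2 * r) = 1 := by
  induction b with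
  | zero =>
    obtain rfl : r = 0 := by omega
    simp [sepW]
  | succ b ih =>
    simp only [sepW, List.countP_append]
    have h1 : ((List.range i ++ List.range' j (M - j)).map (Nat.pair (2 * b + 1))).countP
        (fun c => c.unpair.1 = 2 * r) = 0 := by
      rw [List.countP_eq_zero]
      intro a ha
      obtain ⟨k, -, rfl⟩ := List.mem_map.mp ha
      simp only [Nat.unpair_pair, decide_eq_true_eq]
      omega
    rw [h1]
    by_cases h : r = b + 1
    · subst h
      rw [List.countP_eq_zero.mpr]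
      · simp [mul_add]
      · intro a ha
        have := sepW_le hj b a ha
        simp only [decide_eq_true_eq]
        omega
    · rw [ih (by omega), List.countP_eq_zero.mpr]
      intro a ha
      rw [List.mem_singleton.mp ha]
      simp only [Nat.unpair_pair, decide_eq_true_eq]
      omega

theorem sepW_prod {N : Type} [Monoid N] (g : ℕ → N) {M i j : ℕ} (hj : j ≤ M) (b : ℕ)
    (h : ∀ r < b, ((List.range i).map fun k => g (Nat.pair (2 * r + 1) k)).prod =
      ((List.range j).map fun k => g (Nat.pair (2 * r + 1) k)).prod) :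
    ((sepW M i j b).map g).prod = ((sepW M 0 0 b).map g).prod := by
  induction b with
  | zero => rfl
  | succ b ih =>
    have e : List.range 0 ++ List.range' 0 (M - 0) = List.range j ++ List.range' j (M - j) := by
      rw [List.range_eq_range' (n := j)]
      have := @List.range'_append 0 j (M - j) 1
      simp only [one_mul, zero_add] at this
      rw [this]
      simp [Nat.add_sub_cancel' hj]
    simp only [sepW]
    rw [e]
    simp only [List.map_append, List.prod_append, List.map_map, Function.comp_def]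
    rw [ih fun r hr => h r (by omega), h b (by omega)]

theorem not_fb_of_sep [Finite S] (hS : SepP S)
    (hct : ∀ (w : List ℕ) (t : Set (List ℕ)), w ≠ [] → (∀ u ∈ t, u ≠ []) → Valid S w t →
      ∀ x ∈ w, ∃ u ∈ t, x ∈ u)
    (sig : List ℕ → ℕ → Prop)
    (s1 : ∀ α a γ y, y ∉ α → y ∉ γ → (sig (α ++ a ++ γ) y ↔ sig a y))
    (s2 : ∀ u y, u.Nodup → (sig u y ↔ y ∈ u))
    (hper : ∀ (w : List ℕ) (t : Set (List ℕ)), w ≠ [] → (∀ u ∈ t, u ≠ []) → Valid S w t →
      ∀ y y', (∀ u ∈ t, sig u y ↔ sig u y') → (sig w y ↔ sig w y')) :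
    ¬ FinitelyBased (Pow.add (S := S)) Pow.mul := by
  classical
  have : Finite (WithOne S) := inferInstanceAs (Finite (Option S))
  have := Fintype.ofFinite (WithOne S)
  apply not_fb_of
  intro n
  set B := n + 2 with hB
  set M := Fintype.card (Fin B → WithOne S) with hM
  set ρ : ℕ → ℕ := fun c => min c.unpair.1 (2 * B + 1) with hρ
  set T : Set (List ℕ) := {v | v.Pairwise (fun a c => ρ a ≤ ρ c) ∧
    (∀ r ≤ B, v.countP (fun c => ρ c = 2 * r) = 1) ∧ ∃ i j, i < j ∧ j ≤ M ∧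
      ∀ r < B, ∀ k < M, sig v (Nat.pair (2 * r + 1) k) ↔ ¬ (i ≤ k ∧ k < j)} with hT
  have loc : ∀ (α a γ : List ℕ) (r r' : ℕ), r < r' → r' ≤ B →
      (α ++ a ++ γ).Pairwise (fun a c => ρ a ≤ ρ c) →
      (∃ c ∈ a, ρ c = 2 * r) → (∃ c ∈ a, ρ c = 2 * r') → ∀ k,
      sig (α ++ a ++ γ) (Nat.pair (2 * r + 1) k) ↔ sig a (Nat.pair (2 * r + 1) k) := by
    rintro α a γ r r' h1 h2 h3 ⟨c, hc, e⟩ ⟨c', hc', e'⟩ k
    have e2 : ρ (Nat.pair (2 * r + 1) k) = 2 * r + 1 := by
      simp only [hρ, Nat.unpair_pair]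
      omega
    rw [List.pairwise_append, List.pairwise_append] at h3
    refine s1 _ _ _ _ (fun h => ?_) fun h => ?_
    · have := h3.1.2.2 _ h c hc
      omega
    · have := h3.2.2 c' (by simp [hc']) _ h
      omega
  refine ⟨T, ?_, sepW M 0 0 B, {v | ∃ i j, i < j ∧ j ≤ M ∧ v = sepW M i j B}, ?_, ?_, ?_, ?_, ?_,
    ?_, ?_⟩
  · intro w t hw ht hne _ hwn _ hval τ hτ hτ' p q H v hv
    have hval' := hval.inst τ hτ hτ' p q v hv
    have hne1 : p ++ v ++ q ≠ [] := by simp [Sub_ne_nil τ hτ' w hw v hv]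
    have hne2 : ∀ y ∈ {y | ∃ u ∈ t, ∃ v' ∈ Sub τ u, y = p ++ v' ++ q}, y ≠ [] := by
      rintro _ ⟨u, hu, v', hv', rfl⟩
      simp [Sub_ne_nil τ hτ' u (ht u hu) v' hv']
    have hform : ∀ r ≤ B, Form (fun c => if ρ c < 2 * r then 0 else if ρ c = 2 * r then 1 else 2)
        (p ++ v ++ q) := by
      intro r hr
      refine hS _ _ hne1 hne2 hval' _ (fun x => by split_ifs <;> omega) ?_
      rintro _ ⟨u, hu, v', hv', rfl⟩
      obtain ⟨a1, a2, -⟩ := H u hu v' hv'
      have a3 := a2 r hr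
      obtain ⟨z, hz, e⟩ := List.countP_pos_iff.mp (a3 ▸ Nat.one_pos)
      obtain ⟨l, m, e1⟩ := List.append_of_mem hz
      rw [e1] at a1 a3 ⊢
      simp only [decide_eq_true_eq] at e
      rw [List.pairwise_append, List.pairwise_cons] at a1
      rw [List.countP_append, List.countP_cons_of_pos (by simpa using e)] at a3
      have b1 : l.countP (fun c => ρ c = 2 * r) = 0 := by omega
      have b2 : m.countP (fun c => ρ c = 2 * r) = 0 := by omega
      rw [List.countP_eq_zero] at b1 b2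
      refine ⟨l, z, m, rfl, fun x hx => ?_, by simp [e], fun x hx => ?_⟩
      · have c1 := a1.2.2 x hx z (by simp)
        have c2 := b1 x hx
        simp only [decide_eq_true_eq] at c2
        exact if_pos (by omega)
      · have c1 := a1.2.1.1 x hx
        have c2 := b2 x hx
        simp only [decide_eq_true_eq] at c2
        exact (if_neg (by omega)).trans (if_neg c2)
    have hsort : (p ++ v ++ q).Pairwise fun a c => ρ a ≤ ρ c := by
      rw [List.pairwise_iff_forall_sublist]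
      intro a c hac
      by_contra hlt
      have hρa : ρ a ≤ 2 * B + 1 := min_le_right _ _
      obtain ⟨l, z, m, e, b1, b2, b3⟩ := hform ((ρ c + 1) / 2) (by omega)
      have hp : (l ++ z :: m).Pairwise fun a' c' => (fun c' => if ρ c' < 2 * ((ρ c + 1) / 2) then 0
          else if ρ c' = 2 * ((ρ c + 1) / 2) then 1 else 2) a' ≤
          (fun c' => if ρ c' < 2 * ((ρ c + 1) / 2) then 0
          else if ρ c' = 2 * ((ρ c + 1) / 2) then 1 else 2) c' := by
        rw [List.pairwise_append, List.pairwise_cons]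
        refine ⟨List.pairwise_of_forall_mem_list fun x hx y _ => ?_, ⟨fun x hx => ?_,
          List.pairwise_of_forall_mem_list fun x hx y hy => ?_⟩, fun x hx y _ => ?_⟩
        · rw [b1 x hx]; exact Nat.zero_le _
        · rw [b2, b3 x hx]; omega
        · rw [b3 x hx, b3 y hy]
        · rw [b1 x hx]; exact Nat.zero_le _
      rw [← e, List.pairwise_iff_forall_sublist] at hp
      have := hp hac
      simp only at this
      split_ifs at this <;> omega
    have hcount : ∀ r ≤ B, (p ++ v ++ q).countP (fun c => ρ c = 2 * r) = 1 := by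
      intro r hr
      obtain ⟨l, z, m, e, b1, b2, b3⟩ := hform r hr
      rw [e, List.countP_append, List.countP_cons_of_pos, List.countP_eq_zero.mpr,
        List.countP_eq_zero.mpr]
      · intro x hx
        have := b3 x hx
        simp only [decide_eq_true_eq] at this ⊢
        split_ifs at this <;> omega
      · intro x hx
        have := b1 x hx
        simp only [decide_eq_true_eq] at this ⊢
        split_ifs at this <;> omega
      · simp only [decide_eq_true_eq] at b2 ⊢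
        split_ifs at b2 <;> omega
    refine ⟨hsort, hcount, ?_⟩
    set σ : ℕ → List ℕ := fun x => (hτ x).some with hσ
    have hσ1 : ∀ x, σ x ∈ τ x := fun x => (hτ x).some_mem
    suffices key : ∃ r < B, ∃ y ∈ T, ∀ k, sig (p ++ v ++ q) (Nat.pair (2 * r + 1) k) ↔
        sig y (Nat.pair (2 * r + 1) k) by
      obtain ⟨r, hr, y, ⟨-, -, i, j, hij, hj, h1⟩, h2⟩ := key
      refine ⟨i, j, hij, hj, fun r' hr' k hk => ?_⟩
      rw [← h1 r hr k hk, ← h2]
      refine hper _ _ hne1 hne2 hval' _ _ ?_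
      rintro _ ⟨u, hu, v', hv', rfl⟩
      obtain ⟨-, -, i, j, -, -, h3⟩ := H u hu v' hv'
      rw [h3 r hr k hk, h3 r' hr' k hk]
    have own : ∀ r : Fin (B + 1), ∃ o : Fin (n + 2), ((o : ℕ) = n ∧ ∃ c ∈ p, ρ c = 2 * r) ∨
        ((o : ℕ) = n + 1 ∧ ∃ c ∈ q, ρ c = 2 * r) ∨ ((o : ℕ) < n ∧ (o : ℕ) ∈ w ∧ ∃ a ∈ τ o,
          (∃ c ∈ a, ρ c = 2 * r) ∧ ∃ α γ, v = α ++ a ++ γ) := by
      intro r
      obtain ⟨c, hc, e⟩ := List.countP_pos_iff.mp
        (hcount r (Nat.lt_succ_iff.mp r.2) ▸ Nat.one_pos)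
      simp only [decide_eq_true_eq] at e
      simp only [List.mem_append] at hc
      rcases hc with (hc | hc) | hc
      · exact ⟨⟨n, by omega⟩, Or.inl ⟨rfl, c, hc, e⟩⟩
      · obtain ⟨x, hx, a, ha, h1, h2⟩ := Sub_piece τ w v hv c hc
        have := hwn x hx
        exact ⟨⟨x, by omega⟩, Or.inr (Or.inr ⟨this, hx, a, ha, ⟨c, h1, e⟩, h2⟩)⟩
      · exact ⟨⟨n + 1, by omega⟩, Or.inr (Or.inl ⟨rfl, c, hc, e⟩)⟩
    choose o ho using own
    obtain ⟨r, r', hrr, e⟩ := Fintype.exists_ne_map_eq_of_card_lt o (by simp [hB])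
    wlog hlt : (r : ℕ) < r' generalizing r r'
    · exact this r' r hrr.symm e.symm
        (lt_of_le_of_ne (not_lt.mp hlt) fun h' => hrr (Fin.ext h'.symm))
    have hr' : (r' : ℕ) ≤ B := Nat.lt_succ_iff.mp r'.2
    have h1 := ho r
    have h2 := ho r'
    rw [← e] at h2
    obtain ⟨u0, hu0⟩ := hne
    have i0 := H u0 hu0 _ (flatMap_mem_Sub τ σ u0 fun x _ => hσ1 x)
    refine ⟨r, by omega, ?_⟩
    rcases h1 with ⟨a1, a2⟩ | ⟨a1, a2⟩ | ⟨a1, a0, a, ha, a2, α, γ, rfl⟩ <;>
      rcases h2 with ⟨b1, b2⟩ | ⟨b1, b2⟩ | ⟨b1, -, a', ha', b2, -⟩ <;> try omega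
    · refine ⟨_, i0, fun k => ?_⟩
      have c1 := loc [] p (v ++ q) r r' hlt hr' (by simpa using hsort) a2 b2 k
      have c2 := loc [] p (u0.flatMap σ ++ q) r r' hlt hr' (by simpa using i0.1) a2 b2 k
      simp only [List.nil_append, ← List.append_assoc] at c1 c2
      rw [c1, c2]
    · refine ⟨_, i0, fun k => ?_⟩
      have c1 := loc (p ++ v) q [] r r' hlt hr' (by simpa using hsort) a2 b2 k
      have c2 := loc (p ++ u0.flatMap σ) q [] r r' hlt hr' (by simpa using i0.1) a2 b2 k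
      simp only [List.append_nil] at c1 c2
      rw [c1, c2]
    · obtain ⟨u, hu, hx⟩ := hct w t hw ht hval _ a0
      obtain ⟨u1, u2, rfl⟩ := List.append_of_mem hx
      have i1 := H _ hu _ (Sub_at τ σ hσ1 u1 u2 _ a ha)
      have i2 := H _ hu _ (Sub_at τ σ hσ1 u1 u2 _ a' ha')
      have b3 : ∃ c ∈ a, ρ c = 2 * r' := by
        have c1 := i1.2.1 r' hr'
        have c2 := i2.2.1 r' hr'
        have c3 : 0 < a'.countP (fun c => ρ c = 2 * r') :=
          List.countP_pos_iff.mpr (by simpa using b2)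
        simp only [List.countP_append] at c1 c2
        simpa using List.countP_pos_iff.mp
          (show 0 < a.countP (fun c => ρ c = 2 * r') by omega)
      refine ⟨_, i1, fun k => ?_⟩
      have c1 := loc (p ++ α) a (γ ++ q) r r' hlt hr' (by simpa using hsort) a2 b3 k
      have c2 := loc (p ++ u1.flatMap σ) a (u2.flatMap σ ++ q) r r' hlt hr'
        (by simpa using i1.1) a2 b3 k
      simp only [← List.append_assoc] at c1 c2 ⊢
      rw [c1, c2]
  · exact List.ne_nil_of_mem ((mem_sepW (Nat.zero_le _) B _).mpr (Or.inl ⟨0, by omega, rfl⟩))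
  · rintro _ ⟨i, j, -, hj, rfl⟩
    exact List.ne_nil_of_mem ((mem_sepW hj B _).mpr (Or.inl ⟨0, by omega, rfl⟩))
  · exact ⟨_, 0, 1, by omega, Fintype.card_pos, rfl⟩
  · refine ((Set.finite_Iic (M, M)).image fun p => sepW M p.1 p.2 B).subset ?_
    rintro _ ⟨i, j, hij, hj, rfl⟩
    exact ⟨(i, j), ⟨by simp; omega, hj⟩, rfl⟩
  · intro φ hφ s hs
    obtain ⟨ψ, hψ, rfl⟩ := exists_point_of_nodup φ hφ _ (sepW_nodup le_rfl (Nat.zero_le _) B) s hs
    obtain ⟨i, j, hij, e⟩ := Fintype.exists_ne_map_eq_of_card_lt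
      (fun (i : Fin (M + 1)) (r : Fin B) =>
        ((List.range i).map fun k => (ψ (Nat.pair (2 * r + 1) k) : WithOne S)).prod)
      (by simp [hM])
    wlog hlt : (i : ℕ) < j generalizing i j
    · exact this j i hij.symm e.symm
        (lt_of_le_of_ne (not_lt.mp hlt) fun h' => hij (Fin.ext h'.symm))
    have hj : (j : ℕ) ≤ M := Nat.lt_succ_iff.mp j.2
    refine ⟨_, ⟨i, j, hlt, hj, rfl⟩, ?_⟩
    rw [← sepW_prod (fun x => (ψ x : WithOne S)) hj B fun r hr => congrFun e ⟨r, hr⟩]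
    exact prod_mem_Val φ ψ _ fun x _ => hψ x
  · rintro _ ⟨i, j, hij, hj, rfl⟩
    have e : ∀ c ∈ sepW M i j B, ρ c = c.unpair.1 := by
      intro c hc
      have := sepW_le hj B c hc
      simp only [hρ]
      omega
    refine ⟨(sepW_sorted hj B).imp_of_mem fun ha hc h => by rwa [e _ ha, e _ hc], fun r hr => ?_,
      i, j, hij, hj, fun r hr k hk => ?_⟩
    · rw [← sepW_count (i := i) hj B r hr]
      exact List.countP_congr fun c hc => by rw [e c hc]
    · rw [s2 _ _ (sepW_nodup hij.le hj B), mem_sepW hj]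
      simp only [Nat.pair_eq_pair]
      constructor
      · rintro (⟨r', -, h, -⟩ | ⟨r', -, k', h, -, rfl⟩) <;> omega
      · intro h
        exact Or.inr ⟨r, hr, k, by omega, rfl, rfl⟩
  · rintro ⟨-, -, i, j, hij, hj, h⟩
    have := h 0 (by omega) i (by omega)
    rw [s2 _ _ (sepW_nodup le_rfl (Nat.zero_le _) B), mem_sepW (Nat.zero_le _)] at this
    exact this.mp (Or.inr ⟨0, by omega, i, by omega, rfl⟩) ⟨le_rfl, hij⟩

end

end Pool.Agent.P.MP_485d6e_al
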