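import Pool.Agent.P.MP_485d6e_al.Defs

set_option autoImplicit false

namespace Pool.Agent.P.MP_485d6e_al

/-- The words obtained by expanding a term. -/
def Term.W : Term → Set (List ℕ)
  | .var n => {[n]}
  | .add s t => s.W ∪ t.W
  | .mul s t => Set.image2 (fun a b => a ++ b) s.W t.W

theorem Term.W_ne_nil (t : Term) : ∀ v ∈ t.W, v ≠ [] := by
  induction t with
  | var n => intro v hv; simp only [Term.W, Set.mem_singleton_iff] at hv; simp [hv]
  | add s t ihs iht =>
    intro v hv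
    rcases hv with hv | hv
    · exact ihs v hv
    · exact iht v hv
  | mul s t ihs _ =>
    rintro v ⟨a, ha, b, _, rfl⟩
    have := ihs a ha
    simp [this]

theorem Term.W_nonempty (t : Term) : t.W.Nonempty := by
  induction t with
  | var n => exact ⟨[n], rfl⟩
  | add s t ihs _ => exact ihs.inl
  | mul s t ihs iht => exact ihs.image2 iht

theorem Term.W_finite (t : Term) : t.W.Finite := by
  induction t with
  | var n => exact Set.finite_singleton _
  | add s t ihs iht => exact ihs.union iht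
  | mul s t ihs iht => exact ihs.image2 _ iht

/-- A bound for the variables of a term. -/
def Term.bd : Term → ℕ
  | .var n => n + 1
  | .add s t => max s.bd t.bd
  | .mul s t => max s.bd t.bd

theorem Term.lt_bd (t : Term) : ∀ v ∈ t.W, ∀ x ∈ v, x < t.bd := by
  induction t with
  | var n =>
    intro v hv x hx
    simp only [Term.W, Set.mem_singleton_iff] at hv
    subst hv
    simp only [List.mem_singleton] at hx
    simp [Term.bd, hx]
  | add s t ihs iht =>
    intro v hv x hx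
    rcases hv with hv | hv
    · exact lt_of_lt_of_le (ihs v hv x hx) (le_max_left _ _)
    · exact lt_of_lt_of_le (iht v hv x hx) (le_max_right _ _)
  | mul s t ihs iht =>
    rintro v ⟨a, ha, b, hb, rfl⟩ x hx
    rcases List.mem_append.mp hx with hx | hx
    · exact lt_of_lt_of_le (ihs a ha x hx) (le_max_left _ _)
    · exact lt_of_lt_of_le (iht b hb x hx) (le_max_right _ _)

/-- The words obtained from a word by replacing each occurrence of `x` by a member of `τ x`. -/
def Sub (τ : ℕ → Set (List ℕ)) : List ℕ → Set (List ℕ)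
  | [] => {[]}
  | x :: u => Set.image2 (fun a b => a ++ b) (τ x) (Sub τ u)

theorem mem_Sub_append (τ : ℕ → Set (List ℕ)) (u u' v : List ℕ) :
    v ∈ Sub τ (u ++ u') ↔ ∃ a ∈ Sub τ u, ∃ b ∈ Sub τ u', v = a ++ b := by
  induction u generalizing v with
  | nil => simp [Sub]
  | cons x u ih =>
    simp only [List.cons_append, Sub, Set.mem_image2]
    constructor
    · rintro ⟨a, ha, b, hb, rfl⟩
      obtain ⟨c, hc, d, hd, rfl⟩ := (ih b).mp hb
      exact ⟨a ++ c, ⟨a, ha, c, hc, rfl⟩, d, hd, by simp⟩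
    · rintro ⟨_, ⟨a, ha, c, hc, rfl⟩, d, hd, rfl⟩
      exact ⟨a, ha, c ++ d, (ih _).mpr ⟨c, hc, d, hd, rfl⟩, by simp⟩

theorem mem_W_subst (σ : ℕ → Term) (t : Term) (v : List ℕ) :
    v ∈ (t.subst σ).W ↔ ∃ u ∈ t.W, v ∈ Sub (fun x => (σ x).W) u := by
  induction t generalizing v with
  | var n => simp [Term.subst, Term.eval, Term.W, Sub]
  | add s t ihs iht =>
    have e : (Term.add s t).subst σ = Term.add (s.subst σ) (t.subst σ) := rfl
    rw [e]
    simp only [Term.W, Set.mem_union, ihs, iht]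
    constructor
    · rintro (⟨u, hu, h⟩ | ⟨u, hu, h⟩)
      · exact ⟨u, Or.inl hu, h⟩
      · exact ⟨u, Or.inr hu, h⟩
    · rintro ⟨u, hu | hu, h⟩
      · exact Or.inl ⟨u, hu, h⟩
      · exact Or.inr ⟨u, hu, h⟩
  | mul s t ihs iht =>
    have e : (Term.mul s t).subst σ = Term.mul (s.subst σ) (t.subst σ) := rfl
    rw [e]
    simp only [Term.W, Set.mem_image2]
    constructor
    · rintro ⟨a, ha, b, hb, rfl⟩
      obtain ⟨u, hu, h1⟩ := (ihs a).mp ha
      obtain ⟨u', hu', h2⟩ := (iht b).mp hb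
      exact ⟨u ++ u', ⟨u, hu, u', hu', rfl⟩, (mem_Sub_append _ _ _ _).mpr ⟨a, h1, b, h2, rfl⟩⟩
    · rintro ⟨_, ⟨u, hu, u', hu', rfl⟩, h⟩
      obtain ⟨a, h1, b, h2, rfl⟩ := (mem_Sub_append _ _ _ _).mp h
      exact ⟨a, (ihs a).mpr ⟨u, hu, h1⟩, b, (iht b).mpr ⟨u', hu', h2⟩, rfl⟩

/-- A selection of one word for each variable gives a member of `Sub`. -/
theorem flatMap_mem_Sub (τ : ℕ → Set (List ℕ)) (σ : ℕ → List ℕ) (u : List ℕ)
    (h : ∀ x ∈ u, σ x ∈ τ x) : u.flatMap σ ∈ Sub τ u := by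
  induction u with
  | nil => simp [Sub]
  | cons x u ih =>
    simp only [List.flatMap_cons, Sub, Set.mem_image2]
    exact ⟨σ x, h x (by simp), _, ih fun y hy => h y (by simp [hy]), rfl⟩

/-- For a word without repeated letters every member of `Sub` comes from a selection. -/
theorem exists_sel_of_nodup (τ : ℕ → Set (List ℕ)) (hτ : ∀ x, (τ x).Nonempty) (u : List ℕ)
    (hu : u.Nodup) : ∀ v ∈ Sub τ u, ∃ σ : ℕ → List ℕ, (∀ x, σ x ∈ τ x) ∧ v = u.flatMap σ := by
  induction u with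
  | nil =>
    intro v hv
    simp only [Sub, Set.mem_singleton_iff] at hv
    exact ⟨fun x => (hτ x).some, fun x => (hτ x).some_mem, by simp [hv]⟩
  | cons x u ih =>
    rintro v ⟨a, ha, b, hb, rfl⟩
    obtain ⟨hx, hu'⟩ := List.nodup_cons.mp hu
    obtain ⟨σ, hσ, rfl⟩ := ih hu' b hb
    refine ⟨Function.update σ x a, fun y => ?_, ?_⟩
    · by_cases h : y = x
      · subst h; simpa using ha
      · simpa [Function.update_of_ne h] using hσ y
    · simp only [List.flatMap_cons, Function.update_self]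
      congr 1
      apply List.flatMap_congr
      intro y hy
      have : y ≠ x := fun h => hx (h ▸ hy)
      simp [Function.update_of_ne this]

section Val

variable {S : Type} [Semigroup S]

/-- The set of values of a word when each occurrence of `x` ranges over `φ x`. -/
def Val (φ : ℕ → Set S) : List ℕ → Set (WithOne S)
  | [] => {1}
  | x :: u => Set.image2 (fun (a : S) (b : WithOne S) => (a : WithOne S) * b) (φ x) (Val φ u)

theorem mem_Val_append (φ : ℕ → Set S) (u u' : List ℕ) (s : WithOne S) :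
    s ∈ Val φ (u ++ u') ↔ ∃ a ∈ Val φ u, ∃ b ∈ Val φ u', s = a * b := by
  induction u generalizing s with
  | nil => simp [Val]
  | cons x u ih =>
    simp only [List.cons_append, Val, Set.mem_image2]
    constructor
    · rintro ⟨a, ha, b, hb, rfl⟩
      obtain ⟨c, hc, d, hd, rfl⟩ := (ih b).mp hb
      exact ⟨a * c, ⟨a, ha, c, hc, rfl⟩, d, hd, by simp [mul_assoc]⟩
    · rintro ⟨_, ⟨a, ha, c, hc, rfl⟩, d, hd, rfl⟩
      exact ⟨a, ha, c * d, (ih _).mpr ⟨c, hc, d, hd, rfl⟩, by simp [mul_assoc]⟩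

theorem Val_nonempty (φ : ℕ → Set S) (hφ : ∀ x, (φ x).Nonempty) (u : List ℕ) :
    (Val φ u).Nonempty := by
  induction u with
  | nil => exact ⟨1, rfl⟩
  | cons x u ih => exact (hφ x).image2 ih

theorem exists_coe_of_mem_Val (φ : ℕ → Set S) (u : List ℕ) (hu : u ≠ []) (s : WithOne S)
    (hs : s ∈ Val φ u) : ∃ a : S, s = a := by
  cases u with
  | nil => exact absurd rfl hu
  | cons x u =>
    obtain ⟨a, _, b, _, rfl⟩ := hs
    induction b using WithOne.recOneCoe with
    | one => exact ⟨a, by simp⟩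
    | coe b => exact ⟨a * b, by simp⟩

theorem mem_eval (Φ : ℕ → Pow S) (t : Term) (a : S) :
    a ∈ (t.eval Pow.add Pow.mul Φ).set ↔
      ∃ u ∈ t.W, (a : WithOne S) ∈ Val (fun x => (Φ x).set) u := by
  induction t generalizing a with
  | var n => simp [Term.eval, Term.W, Val]
  | add s t ihs iht =>
    simp only [Term.eval, Pow.add, Set.mem_union, Term.W]
    rw [ihs, iht]
    constructor
    · rintro (⟨u, hu, h⟩ | ⟨u, hu, h⟩)
      · exact ⟨u, Or.inl hu, h⟩
      · exact ⟨u, Or.inr hu, h⟩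
    · rintro ⟨u, hu | hu, h⟩
      · exact Or.inl ⟨u, hu, h⟩
      · exact Or.inr ⟨u, hu, h⟩
  | mul s t ihs iht =>
    simp only [Term.eval, Pow.mul, Set.mem_image2, Term.W]
    constructor
    · rintro ⟨b, hb, c, hc, rfl⟩
      obtain ⟨u, hu, h1⟩ := (ihs b).mp hb
      obtain ⟨u', hu', h2⟩ := (iht c).mp hc
      exact ⟨u ++ u', ⟨u, hu, u', hu', rfl⟩,
        (mem_Val_append _ _ _ _).mpr ⟨b, h1, c, h2, by simp⟩⟩
    · rintro ⟨_, ⟨u, hu, u', hu', rfl⟩, h⟩
      obtain ⟨b, h1, c, h2, h3⟩ := (mem_Val_append _ _ _ _).mp h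
      obtain ⟨b, rfl⟩ := exists_coe_of_mem_Val _ u (s.W_ne_nil u hu) b h1
      obtain ⟨c, rfl⟩ := exists_coe_of_mem_Val _ u' (t.W_ne_nil u' hu') c h2
      refine ⟨b, (ihs b).mpr ⟨u, hu, h1⟩, c, (iht c).mpr ⟨u', hu', h2⟩, ?_⟩
      exact WithOne.coe_inj.mp (by simpa using h3.symm)

variable (S) in
/-- The inequality `w ≤ Σ t` holds in the power semiring of `S`. -/
def Valid (w : List ℕ) (t : Set (List ℕ)) : Prop :=
  ∀ φ : ℕ → Set S, (∀ x, (φ x).Nonempty) → ∀ s ∈ Val φ w, ∃ u ∈ t, s ∈ Val φ u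

theorem Valid.mono {w : List ℕ} {t t' : Set (List ℕ)} (h : Valid S w t) (ht : t ⊆ t') :
    Valid S w t' := fun φ hφ s hs => by
  obtain ⟨u, hu, h1⟩ := h φ hφ s hs
  exact ⟨u, ht hu, h1⟩

theorem Valid.of_mem {w : List ℕ} {t : Set (List ℕ)} (h : w ∈ t) : Valid S w t :=
  fun _ _ _ hs => ⟨w, h, hs⟩

theorem Pow.ext' {A B : Pow S} (h : A.set = B.set) : A = B := by
  cases A; cases B; simp only at h; subst h; rfl

theorem holds_iff (s t : Term) :
    Holds (Pow.add (S := S)) Pow.mul s t ↔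
      (∀ w ∈ s.W, Valid S w t.W) ∧ (∀ w ∈ t.W, Valid S w s.W) := by
  constructor
  · intro h
    have key : ∀ s t : Term, Holds (Pow.add (S := S)) Pow.mul s t → ∀ w ∈ s.W, Valid S w t.W := by
      intro s t h w hw φ hφ a ha
      obtain ⟨a, rfl⟩ := exists_coe_of_mem_Val φ w (s.W_ne_nil w hw) a ha
      have h1 := (mem_eval (fun x => ⟨φ x, hφ x⟩) s a).mpr ⟨w, hw, ha⟩
      rw [h] at h1
      exact (mem_eval _ t a).mp h1
    exact ⟨key s t h, key t s fun φ => (h φ).symm⟩
  · rintro ⟨h1, h2⟩ Φ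
    apply Pow.ext'
    ext a
    rw [mem_eval, mem_eval]
    constructor
    · rintro ⟨u, hu, h⟩
      exact h1 u hu _ (fun x => (Φ x).ne) _ h
    · rintro ⟨u, hu, h⟩
      exact h2 u hu _ (fun x => (Φ x).ne) _ h

end Val

/-- The term of a nonempty word. -/
def wt : ℕ → List ℕ → Term
  | x, [] => .var x
  | x, y :: l => .mul (.var x) (wt y l)

theorem wt_W (x : ℕ) (l : List ℕ) : (wt x l).W = {x :: l} := by
  induction l generalizing x with
  | nil => rfl
  | cons y l ih => simp [wt, Term.W, ih]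

/-- The term of a word (junk for the empty word). -/
def wterm : List ℕ → Term
  | [] => .var 0
  | x :: l => wt x l

theorem wterm_W (u : List ℕ) (hu : u ≠ []) : (wterm u).W = {u} := by
  cases u with
  | nil => exact absurd rfl hu
  | cons x l => exact wt_W x l

/-- The sum of a nonempty list of words. -/
def sumT : List ℕ → List (List ℕ) → Term
  | u, [] => wterm u
  | u, v :: L => .add (wterm u) (sumT v L)

theorem sumT_W (u : List ℕ) (L : List (List ℕ)) (h : ∀ v ∈ u :: L, v ≠ []) :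
    (sumT u L).W = {v | v ∈ u :: L} := by
  induction L generalizing u with
  | nil => ext v; simp [sumT, wterm_W u (h u (by simp))]
  | cons v L ih =>
    ext y
    simp only [sumT, Term.W, wterm_W u (h u (by simp)),
      ih v (fun z hz => h z (List.mem_cons_of_mem _ hz))]
    simp

theorem exists_term (t : Set (List ℕ)) (hf : t.Finite) (hne : t.Nonempty)
    (h : ∀ v ∈ t, v ≠ []) : ∃ s : Term, s.W = t := by
  obtain ⟨L, hL⟩ : ∃ L : List (List ℕ), ∀ v, v ∈ L ↔ v ∈ t :=
    ⟨hf.toFinset.toList, by simp⟩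
  cases L with
  | nil => obtain ⟨v, hv⟩ := hne; exact absurd ((hL v).mpr hv) (by simp)
  | cons u L =>
    refine ⟨sumT u L, ?_⟩
    rw [sumT_W u L fun v hv => h v ((hL v).mp hv)]
    ext v
    exact hL v

section NFB

variable (S : Type) [Semigroup S]

/-- `T` is closed under all instances, in all contexts, of the valid inequalities in the
variables below `n`. -/
def CtxClosed (n : ℕ) (T : Set (List ℕ)) : Prop :=
  ∀ (w : List ℕ) (t : Set (List ℕ)), w ≠ [] → (∀ u ∈ t, u ≠ []) → t.Nonempty → t.Finite →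
    (∀ x ∈ w, x < n) → (∀ u ∈ t, ∀ x ∈ u, x < n) → Valid S w t →
    ∀ τ : ℕ → Set (List ℕ), (∀ x, (τ x).Nonempty) → (∀ x, ∀ v ∈ τ x, v ≠ []) →
    ∀ p q : List ℕ, (∀ u ∈ t, ∀ v ∈ Sub τ u, p ++ v ++ q ∈ T) →
      ∀ v ∈ Sub τ w, p ++ v ++ q ∈ T

theorem not_fb_of
    (h : ∀ n, ∃ T : Set (List ℕ), CtxClosed S n T ∧
      ∃ (w : List ℕ) (t : Set (List ℕ)), w ≠ [] ∧ (∀ u ∈ t, u ≠ []) ∧ t.Nonempty ∧ t.Finite ∧
        Valid S w t ∧ t ⊆ T ∧ w ∉ T) :
    ¬ FinitelyBased (Pow.add (S := S)) Pow.mul := by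
  rintro ⟨E, hE, hv, hd⟩
  obtain ⟨n, hn⟩ : ∃ n, ∀ e ∈ E, e.1.bd ≤ n ∧ e.2.bd ≤ n := by
    obtain ⟨n, hn⟩ := (hE.image fun e => max e.1.bd e.2.bd).bddAbove
    exact ⟨n, fun e he => by
      have := hn ⟨e, he, rfl⟩
      exact ⟨le_trans (le_max_left _ _) this, le_trans (le_max_right _ _) this⟩⟩
  obtain ⟨T, hT, w, t, hw, ht, hne, hf, hval, hsub, hwT⟩ := h n
  have key : ∀ s s' : Term, Derives E s s' → ∀ p q : List ℕ,
      (∀ v ∈ s.W, p ++ v ++ q ∈ T) ↔ (∀ v ∈ s'.W, p ++ v ++ q ∈ T) := by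
    have ax : ∀ s s' : Term, Holds (Pow.add (S := S)) Pow.mul s s' → s.bd ≤ n → s'.bd ≤ n →
        ∀ (σ : ℕ → Term) (p q : List ℕ), (∀ v ∈ (s.subst σ).W, p ++ v ++ q ∈ T) →
          ∀ v ∈ (s'.subst σ).W, p ++ v ++ q ∈ T := by
      intro s s' hh b1 b2 σ p q h1 v hv
      obtain ⟨w', hw', hv'⟩ := (mem_W_subst σ s' v).mp hv
      refine hT w' s.W (s'.W_ne_nil w' hw') s.W_ne_nil s.W_nonempty s.W_finite
        (fun x hx => lt_of_lt_of_le (s'.lt_bd w' hw' x hx) b2)
        (fun u hu x hx => lt_of_lt_of_le (s.lt_bd u hu x hx) b1)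
        (((holds_iff s s').mp hh).2 w' hw') (fun x => (σ x).W) (fun x => (σ x).W_nonempty)
        (fun x => (σ x).W_ne_nil) p q (fun u hu v' hv'' => h1 v' ?_) v hv'
      exact (mem_W_subst σ s v').mpr ⟨u, hu, hv''⟩
    intro s s' hD
    induction hD with
    | ax s s' he σ =>
      intro p q
      have h1 := hv _ he
      exact ⟨ax s s' h1 (hn _ he).1 (hn _ he).2 σ p q,
        ax s' s (fun φ => (h1 φ).symm) (hn _ he).2 (hn _ he).1 σ p q⟩
    | refl s => intro p q; rfl
    | symm _ ih => intro p q; exact (ih p q).symm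
    | trans _ _ ih1 ih2 => intro p q; exact (ih1 p q).trans (ih2 p q)
    | add _ _ ih1 ih2 =>
      intro p q
      simp only [Term.W, Set.mem_union, or_imp, forall_and]
      rw [ih1 p q, ih2 p q]
    | @mul s s' t t' _ _ ih1 ih2 =>
      intro p q
      simp only [Term.W, Set.forall_mem_image2]
      calc (∀ a ∈ s.W, ∀ b ∈ t.W, p ++ (a ++ b) ++ q ∈ T)
          ↔ ∀ a ∈ s.W, ∀ b ∈ t'.W, p ++ (a ++ b) ++ q ∈ T := by
            refine forall₂_congr fun a _ => ?_
            have := ih2 (p ++ a) q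
            simpa only [List.append_assoc] using this
        _ ↔ ∀ b ∈ t'.W, ∀ a ∈ s.W, p ++ (a ++ b) ++ q ∈ T := by
            constructor
            · intro h b hb a ha; exact h a ha b hb
            · intro h b hb a ha; exact h a ha b hb
        _ ↔ ∀ b ∈ t'.W, ∀ a ∈ s'.W, p ++ (a ++ b) ++ q ∈ T := by
            refine forall₂_congr fun b _ => ?_
            have := ih1 p (b ++ q)
            simpa only [List.append_assoc] using this
        _ ↔ _ := by
            constructor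
            · intro h b hb a ha; exact h a ha b hb
            · intro h b hb a ha; exact h a ha b hb
  obtain ⟨s, hs⟩ := exists_term t hf hne ht
  have hH : Holds (Pow.add (S := S)) Pow.mul s (.add s (wterm w)) := by
    rw [holds_iff]
    refine ⟨fun u hu => Valid.of_mem (Or.inl hu), fun u hu => ?_⟩
    rcases hu with hu | hu
    · exact Valid.of_mem hu
    · rw [wterm_W w hw] at hu
      rw [hu, hs]
      exact hval
  have := (key _ _ (hd _ _ hH) [] []).mp (by
    intro v hv
    rw [hs] at hv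
    simpa using hsub hv) w (Or.inr (by rw [wterm_W w hw]; rfl))
  exact hwT (by simpa using this)

end NFB

end Pool.Agent.P.MP_485d6e_al
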